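import Mathlib

/-!
Continuants `K_j(a_0, a_1, ...)` with `K_{j+2} = a_{j+1} K_{j+1} + t K_j`, in characteristic two.
-/

namespace Pool.Agent.H4

open Polynomial

variable {F : Type*} [Field F]

/-- Continuant polynomials attached to a sequence. -/
noncomputable def Kc (a : ℕ → F) : ℕ → F[X]
  | 0 => 1
  | 1 => C (a 0)
  | (j + 2) => C (a (j + 1)) * Kc a (j + 1) + X * Kc a j

lemma Kc_zero (a : ℕ → F) : Kc a 0 = 1 := rfl
lemma Kc_one (a : ℕ → F) : Kc a 1 = C (a 0) := rfl
lemma Kc_succ (a : ℕ → F) (j : ℕ) :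
    Kc a (j + 2) = C (a (j + 1)) * Kc a (j + 1) + X * Kc a j := rfl

/-- The left recursion. -/
lemma Kc_left (a : ℕ → F) (j : ℕ) :
    Kc a (j + 2) = C (a 0) * Kc (fun i => a (i + 1)) (j + 1)
      + X * Kc (fun i => a (i + 2)) j := by
  induction j using Nat.twoStepInduction with
  | zero => simp [Kc_succ, Kc_one, Kc_zero]; ring
  | one => simp [Kc_succ, Kc_one, Kc_zero]; ring
  | more j h1 h2 =>
    have e1 := Kc_succ (fun i => a (i + 1)) (j + 1)
    have e2 := Kc_succ (fun i => a (i + 2)) j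
    have e3 := Kc_succ a (j + 2)
    have h2' : Kc a (j + 2 + 1) = C (a 0) * Kc (fun i => a (i + 1)) (j + 2)
      + X * Kc (fun i => a (i + 2)) (j + 1) := h2
    have e1' : Kc (fun i => a (i + 1)) (j + 2 + 1) = C (a (j + 3)) * Kc (fun i => a (i + 1)) (j + 2)
      + X * Kc (fun i => a (i + 1)) (j + 1) := e1
    have e2' : Kc (fun i => a (i + 2)) (j + 2) = C (a (j + 3)) * Kc (fun i => a (i + 2)) (j + 1)
      + X * Kc (fun i => a (i + 2)) j := e2
    have e3' : Kc a (j + 2 + 2) = C (a (j + 3)) * Kc a (j + 2 + 1) + X * Kc a (j + 2) := e3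
    rw [e3', h2', h1, e1', e2']
    ring

/-- Euler's identity for continuants in characteristic two. -/
lemma Kc_euler [CharP F 2] (a : ℕ → F) (j : ℕ) :
    Kc a (j + 2) * Kc (fun i => a (i + 1)) j
      + Kc a (j + 1) * Kc (fun i => a (i + 1)) (j + 1) = X ^ (j + 1) := by
  have h2 : (2 : F[X]) = 0 := CharTwo.two_eq_zero
  induction j with
  | zero =>
    have e1 : Kc a (0 + 2) = C (a 1) * C (a 0) + X * 1 := rfl
    have e2 : Kc (fun i => a (i + 1)) 0 = 1 := rfl
    have e3 : Kc a (0 + 1) = C (a 0) := rfl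
    have e4 : Kc (fun i => a (i + 1)) (0 + 1) = C (a 1) := rfl
    rw [e1, e2, e3, e4]
    linear_combination (C (a 1) * C (a 0)) * h2
  | succ j ih =>
    have e1 : Kc a (j + 1 + 2) = C (a (j + 2)) * Kc a (j + 2) + X * Kc a (j + 1) := rfl
    have e2 : Kc (fun i => a (i + 1)) (j + 1 + 1) = C (a (j + 2)) * Kc (fun i => a (i + 1)) (j + 1)
      + X * Kc (fun i => a (i + 1)) j := rfl
    have e3 : Kc a (j + 1 + 1) = Kc a (j + 2) := rfl
    rw [e1, e2, e3]
    linear_combination X * ih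
      + (C (a (j + 2)) * Kc a (j + 2) * Kc (fun i => a (i + 1)) (j + 1)) * h2

/-- Continuants and ring homomorphisms. -/
lemma Kc_map (σ : F →+* F) (a : ℕ → F) (j : ℕ) :
    (Kc a j).map σ = Kc (fun i => σ (a i)) j := by
  induction j using Nat.twoStepInduction with
  | zero => simp [Kc_zero]
  | one => simp [Kc_one]
  | more j h1 h2 => rw [Kc_succ, Kc_succ, Polynomial.map_add, Polynomial.map_mul,
      Polynomial.map_mul, h1, h2, map_C, map_X]

/-- The value at zero. -/
lemma Kc_coeff_zero (a : ℕ → F) (j : ℕ) : (Kc a j).coeff 0 = ∏ i ∈ Finset.range j, a i := by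
  induction j using Nat.twoStepInduction with
  | zero => simp [Kc_zero]
  | one => simp [Kc_one]
  | more j h1 h2 =>
    rw [Kc_succ, coeff_add, coeff_C_mul, h2, coeff_X_mul_zero, add_zero,
      Finset.prod_range_succ _ (j + 1)]
    ring

/-- The linear coefficient. -/
lemma Kc_coeff_one (a : ℕ → F) (ha : ∀ i, a i ≠ 0) (j : ℕ) :
    (Kc a (j + 1)).coeff 1
      = (∏ i ∈ Finset.range (j + 1), a i) * ∑ i ∈ Finset.range j, (a i * a (i + 1))⁻¹ := by
  induction j using Nat.twoStepInduction with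
  | zero => simp [Kc_one, coeff_C]
  | one =>
    simp [Kc_succ, Kc_one, Kc_zero, Finset.prod_range_succ, coeff_C]
    have h0 := ha 0
    have h1 := ha 1
    field_simp
  | more j h1 h2 =>
    rw [Kc_succ, coeff_add, coeff_C_mul, h2, coeff_X_mul, Kc_coeff_zero,
      Finset.sum_range_succ _ (j + 1), Finset.prod_range_succ _ (j + 2),
      Finset.prod_range_succ _ (j + 1)]
    have h3 := ha (j + 1)
    have h4 := ha (j + 2)
    field_simp

/-- Degree bound and top coefficients. -/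
lemma Kc_deg (a : ℕ → F) (i : ℕ) :
    (∀ l, i < l → (Kc a (2 * i)).coeff l = 0) ∧ (Kc a (2 * i)).coeff i = 1 ∧
    (∀ l, i < l → (Kc a (2 * i + 1)).coeff l = 0) ∧
    (Kc a (2 * i + 1)).coeff i = ∑ l ∈ Finset.range (i + 1), a (2 * l) := by
  induction i with
  | zero =>
    refine ⟨fun l hl => ?_, ?_, fun l hl => ?_, ?_⟩
    · simp [Kc_zero, coeff_one, hl.ne']
    · simp [Kc_zero]
    · simp [Kc_one, coeff_C, hl.ne']
    · simp [Kc_one]
  | succ i ih =>
    obtain ⟨h1, h2, h3, h4⟩ := ih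
    have e1 : 2 * (i + 1) = 2 * i + 2 := by ring
    have k1 : ∀ l, i + 1 < l → (Kc a (2 * (i + 1))).coeff l = 0 := by
      intro l hl
      obtain ⟨l', rfl⟩ : ∃ l', l = l' + 1 := ⟨l - 1, by omega⟩
      rw [e1, Kc_succ, coeff_add, coeff_C_mul, coeff_X_mul, h3 _ (by omega), h1 _ (by omega)]
      simp
    have k2 : (Kc a (2 * (i + 1))).coeff (i + 1) = 1 := by
      rw [e1, Kc_succ, coeff_add, coeff_C_mul, coeff_X_mul, h3 _ (by omega), h2]
      simp
    refine ⟨k1, k2, ?_, ?_⟩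
    · intro l hl
      obtain ⟨l', rfl⟩ : ∃ l', l = l' + 1 := ⟨l - 1, by omega⟩
      rw [show 2 * (i + 1) + 1 = (2 * i + 1) + 2 by ring, Kc_succ, coeff_add, coeff_C_mul,
        coeff_X_mul, show 2 * i + 1 + 1 = 2 * (i + 1) by ring, k1 _ (by omega),
        h3 _ (by omega)]
      simp
    · rw [show 2 * (i + 1) + 1 = (2 * i + 1) + 2 by ring, Kc_succ, coeff_add, coeff_C_mul,
        coeff_X_mul, show 2 * i + 1 + 1 = 2 * (i + 1) by ring, k2, h4,
        Finset.sum_range_succ _ (i + 1)]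
      ring

end Pool.Agent.H4
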