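import Mathlib
import Pool.Agent.H4.Cont

/-!
Abstract places: a field `L` with a degree function, a coefficientwise Frobenius `Φ` and
elements `t`, `T` with `T^2 + h(t) T + t^(N+2) = 0`.
-/

namespace Pool.Agent.H4

open Polynomial

/-- The sequence of conjugates of `a`. -/
def cj {F : Type*} [Field F] (σ : F →+* F) (a : F) : ℕ → F := fun i => σ^[i] a

/-- Continuants of the sequence of conjugates. -/
noncomputable def K {F : Type*} [Field F] (σ : F →+* F) (a : F) (j : ℕ) : F[X] := Kc (cj σ a) j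

/-- The trace polynomial (`n = N + 2`). -/
noncomputable def H {F : Type*} [Field F] (σ : F →+* F) (N : ℕ) (a : F) : F[X] :=
  K σ a (N + 2) + X * K σ (σ a) N

section cont
variable {F : Type*} [Field F] (σ : F →+* F) (a : F)

lemma cj_succ (i : ℕ) : cj σ a (i + 1) = cj σ (σ a) i := by
  simp [cj, Function.iterate_succ_apply]

lemma cj_map (i : ℕ) : σ (cj σ a i) = cj σ (σ a) i := by
  change σ (σ^[i] a) = σ^[i] (σ a)
  rw [← Function.iterate_succ_apply, Function.iterate_succ_apply']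

lemma K_zero : K σ a 0 = 1 := rfl
lemma K_one : K σ a 1 = C a := rfl

lemma K_left (j : ℕ) :
    K σ a (j + 2) = C a * K σ (σ a) (j + 1) + X * K σ (σ (σ a)) j := by
  unfold K
  rw [Kc_left]
  have e1 : (fun i => cj σ a (i + 1)) = cj σ (σ a) := funext fun i => cj_succ σ a i
  have e2 : (fun i => cj σ a (i + 2)) = cj σ (σ (σ a)) := funext fun i => by
    rw [show i + 2 = (i + 1) + 1 from rfl, cj_succ, cj_succ]
  rw [e1, e2]
  rfl

lemma K_right (j : ℕ) :
    K σ a (j + 2) = C (σ^[j + 1] a) * K σ a (j + 1) + X * K σ a j := rfl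

lemma K_map (j : ℕ) : (K σ a j).map σ = K σ (σ a) j := by
  unfold K
  rw [Kc_map]
  congr 1
  exact funext fun i => cj_map σ a i

lemma K_euler [CharP F 2] (j : ℕ) :
    K σ a (j + 2) * K σ (σ a) j + K σ a (j + 1) * K σ (σ a) (j + 1) = X ^ (j + 1) := by
  have := Kc_euler (cj σ a) j
  have e1 : (fun i => cj σ a (i + 1)) = cj σ (σ a) := funext fun i => cj_succ σ a i
  rw [e1] at this
  exact this

/-- If `σ` has order dividing `N + 2`, then the trace polynomial is `σ`-invariant. -/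
lemma H_map (N : ℕ) (hn : σ^[N + 2] a = a) : (H σ N a).map σ = H σ N a := by
  have h1 := K_left σ a N
  have h2 := K_right σ (σ a) N
  have h3 : σ^[N + 1] (σ a) = a := by rw [← Function.iterate_succ_apply]; exact hn
  rw [h3] at h2
  unfold H
  rw [Polynomial.map_add, Polynomial.map_mul, map_X, K_map, K_map, h1, h2]
  ring

lemma K_coeff_zero (j : ℕ) : (K σ a j).coeff 0 = ∏ i ∈ Finset.range j, σ^[i] a :=
  Kc_coeff_zero _ _

end cont

/-- Place data. -/
structure Pl (F L : Type*) [Field F] [Field L] (φ : F →+* F) (N : ℕ) (h : F[X]) where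
  ι : F →+* L
  Φ : L →+* L
  deg : L → ℤ
  t : L
  T : L
  Φι : ∀ c, Φ (ι c) = ι (φ c)
  Φt : Φ t = t
  ΦT : Φ T = T
  Φn : ∀ x, Φ^[N + 2] x = x
  deg_mul : ∀ x y, x ≠ 0 → y ≠ 0 → deg (x * y) = deg x + deg y
  deg_add : ∀ x y, x ≠ 0 → y ≠ 0 → deg x < deg y → x + y ≠ 0 ∧ deg (x + y) = deg y
  deg_red : ∀ x y, x ≠ 0 → y ≠ 0 → deg x = deg y →
    ∃ c : F, c ≠ 0 ∧ (x = ι c * y ∨ (x - ι c * y ≠ 0 ∧ deg (x - ι c * y) < deg x))
  deg_ι : ∀ c, c ≠ 0 → deg (ι c) = 0
  deg_Φ : ∀ x, deg (Φ x) = deg x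
  t_ne : t ≠ 0
  T_ne : T ≠ 0
  deg_t : deg t = 2
  deg_T : deg T = N + 2
  eqn : T ^ 2 + h.eval₂ ι t * T + t ^ (N + 2) = 0

namespace Pl

variable {F L : Type*} [Field F] [Field L] {φ : F →+* F} {N : ℕ} {h : F[X]}
  (D : Pl F L φ N h)

/-- Evaluation at `t`. -/
noncomputable def ev : F[X] →+* L := eval₂RingHom D.ι D.t

lemma ev_C (c : F) : D.ev (C c) = D.ι c := by simp [ev]
lemma ev_X : D.ev X = D.t := by simp [ev]

lemma eqn' : D.T ^ 2 + D.ev h * D.T + D.t ^ (N + 2) = 0 := D.eqn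

lemma deg_one : D.deg 1 = 0 := by
  have := D.deg_ι 1 one_ne_zero
  rwa [map_one] at this

lemma deg_pow (x : L) (hx : x ≠ 0) (j : ℕ) : D.deg (x ^ j) = j * D.deg x := by
  induction j with
  | zero => simp [D.deg_one]
  | succ j ih =>
    rw [pow_succ, D.deg_mul _ _ (pow_ne_zero _ hx) hx, ih]
    push_cast; ring

lemma ι_ne {c : F} (hc : c ≠ 0) : D.ι c ≠ 0 := by
  rwa [Ne, map_eq_zero]

lemma deg_ev (P : F[X]) (hP : P ≠ 0) : D.ev P ≠ 0 ∧ D.deg (D.ev P) = 2 * P.natDegree := by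
  induction' hd : P.natDegree using Nat.strong_induction_on with d ih generalizing P
  have hlead : D.ev (C P.leadingCoeff * X ^ P.natDegree) ≠ 0 ∧
      D.deg (D.ev (C P.leadingCoeff * X ^ P.natDegree)) = 2 * d := by
    have hc : P.leadingCoeff ≠ 0 := leadingCoeff_ne_zero.mpr hP
    rw [map_mul, map_pow, ev_C, ev_X]
    refine ⟨mul_ne_zero (D.ι_ne hc) (pow_ne_zero _ D.t_ne), ?_⟩
    rw [D.deg_mul _ _ (D.ι_ne hc) (pow_ne_zero _ D.t_ne), D.deg_ι _ hc, D.deg_pow _ D.t_ne,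
      D.deg_t, hd]
    ring
  by_cases he : P.eraseLead = 0
  · have : P = C P.leadingCoeff * X ^ P.natDegree := by
      conv_lhs => rw [← eraseLead_add_C_mul_X_pow P, he, zero_add]
    rw [this]
    exact hlead
  · have hlt : P.eraseLead.natDegree < d := by
      rw [← hd]
      rcases Nat.eq_zero_or_pos P.natDegree with h0 | h0
      · exfalso
        apply he
        rw [eq_C_of_natDegree_eq_zero h0]
        simp
      · exact lt_of_le_of_lt (eraseLead_natDegree_le P) (by omega)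
    obtain ⟨h1, h2⟩ := ih _ hlt P.eraseLead he rfl
    have := D.deg_add _ _ h1 hlead.1 (by rw [h2, hlead.2]; exact_mod_cast (by omega))
    rw [← map_add, eraseLead_add_C_mul_X_pow] at this
    rw [this.2, hlead.2]
    exact ⟨this.1, rfl⟩

lemma ev_inj {P : F[X]} (h0 : D.ev P = 0) : P = 0 := by
  by_contra hP
  exact (D.deg_ev P hP).1 h0

/-- Parity: `α + β u = 0` with `deg u` odd implies `α = β = 0`. -/
lemma parity {u : L} (hu : u ≠ 0) (hodd : Odd (D.deg u)) {α β : F[X]}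
    (h0 : D.ev α + D.ev β * u = 0) : α = 0 ∧ β = 0 := by
  have key : β = 0 := by
    by_contra hβ
    obtain ⟨h1, h2⟩ := D.deg_ev β hβ
    have hα : α ≠ 0 := by
      rintro rfl
      rw [map_zero, zero_add] at h0
      exact mul_ne_zero h1 hu h0
    obtain ⟨h3, h4⟩ := D.deg_ev α hα
    have h5 : D.deg (D.ev β * u) = 2 * β.natDegree + D.deg u := by
      rw [D.deg_mul _ _ h1 hu, h2]
    rcases lt_trichotomy (D.deg (D.ev α)) (D.deg (D.ev β * u)) with hlt | heq | hgt
    · exact (D.deg_add _ _ h3 (mul_ne_zero h1 hu) hlt).1 h0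
    · rw [h4, h5] at heq
      obtain ⟨w, hw⟩ := hodd
      omega
    · rw [add_comm] at h0
      exact (D.deg_add _ _ (mul_ne_zero h1 hu) h3 hgt).1 h0
  subst key
  rw [map_zero, zero_mul, add_zero] at h0
  exact ⟨D.ev_inj h0, rfl⟩

/-- The degree of `α + β u` when `deg u` is odd. -/
lemma deg_lin {u : L} (hu : u ≠ 0) (hodd : Odd (D.deg u)) (hpos : 0 ≤ D.deg u) {α β : F[X]}
    (hne : D.ev α + D.ev β * u ≠ 0) :
    0 ≤ D.deg (D.ev α + D.ev β * u) ∧
    (D.deg (D.ev α + D.ev β * u) = 0 → ∃ c : F, c ≠ 0 ∧ D.ev α + D.ev β * u = D.ι c) := by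
  by_cases hβ : β = 0
  · subst hβ
    rw [map_zero, zero_mul, add_zero] at hne ⊢
    have hα : α ≠ 0 := by rintro rfl; simp at hne
    obtain ⟨h3, h4⟩ := D.deg_ev α hα
    rw [h4]
    refine ⟨by positivity, fun h0 => ?_⟩
    have h0' : α.natDegree = 0 := by omega
    obtain ⟨c, hc⟩ := natDegree_eq_zero.mp h0'
    refine ⟨c, ?_, ?_⟩
    · rintro rfl; simp at hc; exact hα hc.symm
    · rw [← hc, ev_C]
  · obtain ⟨h1, h2⟩ := D.deg_ev β hβ
    have h5 : D.deg (D.ev β * u) = 2 * β.natDegree + D.deg u := by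
      rw [D.deg_mul _ _ h1 hu, h2]
    have hpos' : 0 < D.deg u := by
      obtain ⟨w, hw⟩ := hodd
      omega
    by_cases hα : α = 0
    · subst hα
      rw [map_zero, zero_add, h5]
      exact ⟨by positivity, fun h0 => by omega⟩
    · obtain ⟨h3, h4⟩ := D.deg_ev α hα
      rcases lt_trichotomy (D.deg (D.ev α)) (D.deg (D.ev β * u)) with hlt | heq | hgt
      · have := (D.deg_add _ _ h3 (mul_ne_zero h1 hu) hlt).2
        rw [this, h5]
        exact ⟨by positivity, fun h0 => by omega⟩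
      · rw [h4, h5] at heq
        obtain ⟨w, hw⟩ := hodd
        omega
      · have := (D.deg_add _ _ (mul_ne_zero h1 hu) h3 hgt).2
        rw [add_comm, this]
        exact ⟨by rw [h4]; positivity, fun h0 => by omega⟩

end Pl

end Pool.Agent.H4
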