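import Mathlib
import Pool.Agent.H4.Place

/-!
Twists of places and the link between `u` and the continuants.
-/

namespace Pool.Agent.H4

open Polynomial

/-- A twist: an endomorphism `S` of `L` compatible with `σ` on constants. -/
structure Tw {F L : Type*} [Field F] [Field L] {φ : F →+* F} {N : ℕ} {h : F[X]}
    (D : Pl F L φ N h) (σ : F →+* F) where
  S : L →+* L
  Sι : ∀ c, S (D.ι c) = D.ι (σ c)
  St : S D.t = D.t
  ST : S D.T = D.T
  Sn : ∀ x, S^[N + 2] x = x
  deg_S : ∀ x, D.deg (S x) = D.deg x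

namespace Tw

variable {F L : Type*} [Field F] [Field L] {φ : F →+* F} {N : ℕ} {h : F[X]}
  {D : Pl F L φ N h} {σ : F →+* F} (W : Tw D σ)

/-- The norm `∏_{i < N + 2} S^i u`. -/
def nm (u : L) : L := ∏ i ∈ Finset.range (N + 2), W.S^[i] u

lemma S_ev (P : F[X]) : W.S (D.ev P) = D.ev (P.map σ) := by
  change W.S (eval₂ D.ι D.t P) = eval₂ D.ι D.t (P.map σ)
  rw [hom_eval₂, eval₂_map, W.St]
  congr 1
  ext c
  exact W.Sι c

lemma S_iter_mul (i : ℕ) (x y : L) : W.S^[i] (x * y) = W.S^[i] x * W.S^[i] y := by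
  rw [← RingHom.coe_pow, map_mul]

lemma S_iter_ne (i : ℕ) {x : L} (hx : x ≠ 0) : W.S^[i] x ≠ 0 := by
  rw [← RingHom.coe_pow]
  rwa [Ne, map_eq_zero]

lemma deg_iter (i : ℕ) (x : L) : D.deg (W.S^[i] x) = D.deg x := by
  induction i with
  | zero => rfl
  | succ i ih => rw [Function.iterate_succ_apply', W.deg_S, ih]

lemma nm_mul (x y : L) : W.nm (x * y) = W.nm x * W.nm y := by
  unfold nm
  rw [← Finset.prod_mul_distrib]
  exact Finset.prod_congr rfl fun i _ => W.S_iter_mul i x y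

lemma nm_ne {x : L} (hx : x ≠ 0) : W.nm x ≠ 0 :=
  Finset.prod_ne_zero_iff.mpr fun i _ => W.S_iter_ne i hx

lemma nm_S (x : L) : W.nm (W.S x) = W.nm x := by
  unfold nm
  have h1 : ∏ i ∈ Finset.range (N + 2 + 1), W.S^[i] x
      = (∏ i ∈ Finset.range (N + 2), W.S^[i] (W.S x)) * x := by
    rw [Finset.prod_range_succ']
    rfl
  have h2 : ∏ i ∈ Finset.range (N + 2 + 1), W.S^[i] x
      = (∏ i ∈ Finset.range (N + 2), W.S^[i] x) * x := by
    rw [Finset.prod_range_succ, W.Sn]
  by_cases hx : x = 0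
  · subst hx
    simp
  · exact mul_right_cancel₀ hx (h1.symm.trans h2)

lemma nm_zero : W.nm 0 = 0 := by
  unfold nm
  rw [Finset.prod_eq_zero (i := 0) (by simp)]
  rfl

/-- Data of a solution `u` for the parameter `a`. -/
def Sol (a : F) (u : L) : Prop := u * W.S u = D.t + D.ι a * u ∧ W.nm u = D.T

lemma ne_of_nm {u : L} (hu : W.nm u = D.T) : u ≠ 0 := by
  rintro rfl
  rw [W.nm_zero] at hu
  exact D.T_ne hu.symm

lemma deg_of_nm {u : L} (hu : W.nm u = D.T) : D.deg u = 1 := by
  have hu0 := W.ne_of_nm hu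
  have key : ∀ j : ℕ, D.deg (∏ i ∈ Finset.range j, W.S^[i] u) = j * D.deg u := by
    intro j
    induction j with
    | zero => simp [D.deg_one]
    | succ j ih =>
      rw [Finset.prod_range_succ, D.deg_mul _ _ (Finset.prod_ne_zero_iff.mpr
        fun i _ => W.S_iter_ne i hu0) (W.S_iter_ne _ hu0), ih, W.deg_iter]
      push_cast; ring
  have h1 := key (N + 2)
  change D.deg (W.nm u) = _ at h1
  rw [hu, D.deg_T] at h1
  push_cast at h1
  have h2 : ((N : ℤ) + 2) * (D.deg u - 1) = 0 := by linarith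
  rcases mul_eq_zero.mp h2 with h3 | h3
  · omega
  · omega

lemma two_L [CharP F 2] (D : Pl F L φ N h) : (2 : L) = 0 := by
  have h2 : (2 : F) = 0 := CharTwo.two_eq_zero
  have := congrArg D.ι h2
  rwa [map_ofNat, map_zero] at this

lemma prod_formula {a : F} {u : L} (hu : u * W.S u = D.t + D.ι a * u) (j : ℕ) :
    ∏ i ∈ Finset.range (j + 2), W.S^[i] u
      = D.t * D.ev (K σ (σ a) j) + D.ev (K σ a (j + 1)) * u := by
  induction j with
  | zero =>
    rw [Finset.prod_range_succ, Finset.prod_range_succ]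
    simp only [Finset.range_zero, Finset.prod_empty, one_mul, Function.iterate_zero, id_eq,
      Function.iterate_one, zero_add]
    rw [hu, K_zero, K_one, map_one, mul_one, D.ev_C]
  | succ j ih =>
    have h1 : ∏ i ∈ Finset.range (j + 1 + 2), W.S^[i] u
        = W.S (∏ i ∈ Finset.range (j + 2), W.S^[i] u) * u := by
      rw [show j + 1 + 2 = (j + 2) + 1 from rfl, Finset.prod_range_succ', map_prod]
      congr 1
      exact Finset.prod_congr rfl fun i _ => Function.iterate_succ_apply' _ _ _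
    rw [h1, ih, map_add, map_mul, map_mul, W.St, W.S_ev, W.S_ev, K_map, K_map,
      K_left σ a j, map_add, map_mul, map_mul, D.ev_C, D.ev_X]
    linear_combination (D.ev (K σ (σ a) (j + 1))) * hu

/-- From a solution to the trace polynomial. -/
lemma link [CharP F 2] {a : F} {u : L} (hs : W.Sol a u) :
    D.T = D.t * D.ev (K σ (σ a) N) + D.ev (K σ a (N + 1)) * u ∧
    D.T * u = D.t * D.ev (K σ (σ a) (N + 1)) + D.ev (K σ a (N + 2)) * u ∧
    h = H σ N a := by
  obtain ⟨hu, hn⟩ := hs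
  have e1 : D.T = D.t * D.ev (K σ (σ a) N) + D.ev (K σ a (N + 1)) * u := by
    rw [← W.prod_formula hu N]
    exact hn.symm
  have e2 : D.T * u = D.t * D.ev (K σ (σ a) (N + 1)) + D.ev (K σ a (N + 2)) * u := by
    rw [← W.prod_formula hu (N + 1), show N + 1 + 2 = (N + 2) + 1 from rfl,
      Finset.prod_range_succ, W.Sn]
    change _ = W.nm u * u
    rw [hn]
  refine ⟨e1, e2, ?_⟩
  have h2 := two_L D
  have heu : D.ev (K σ a (N + 2)) * D.ev (K σ (σ a) N)
      + D.ev (K σ a (N + 1)) * D.ev (K σ (σ a) (N + 1)) = D.t ^ (N + 1) := by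
    rw [← map_mul, ← map_mul, ← map_add, K_euler, map_pow, D.ev_X]
  have e3 : D.ev (h + H σ N a) * D.T = 0 := by
    unfold H
    rw [map_add, map_add, map_mul, D.ev_X]
    have heq := D.eqn'
    have hmul : D.T * D.T = D.t * D.ev (K σ (σ a) N) * D.T
        + D.ev (K σ a (N + 1)) * (D.T * u) := by
      linear_combination D.T * e1
    rw [e2] at hmul
    have hp : D.t ^ (N + 2) = D.t * D.t ^ (N + 1) := by ring
    rw [hp, ← heu] at heq
    linear_combination heq - hmul - (D.ev (K σ a (N + 2))) * e1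
      + ((D.t * D.ev (K σ (σ a) N) + D.ev (K σ a (N + 2))) * D.T) * h2
      - (D.t * D.ev (K σ a (N + 2)) * D.ev (K σ (σ a) N)
        + D.t * D.ev (K σ a (N + 1)) * D.ev (K σ (σ a) (N + 1))) * h2
      - (D.ev (K σ a (N + 2)) * D.ev (K σ a (N + 1)) * u
        + D.t * D.ev (K σ (σ a) N) * D.T) * h2
  have e4 : h + H σ N a = 0 :=
    D.ev_inj ((mul_eq_zero.mp e3).resolve_right D.T_ne)
  have h3 : (2 : F[X]) = 0 := CharTwo.two_eq_zero
  linear_combination e4 - (H σ N a) * h3

end Tw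

end Pool.Agent.H4
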