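import Mathlib
import Pool.Agent.H4.Link

/-!
Lattices over `F[t]` inside `L`.
-/

namespace Pool.Agent.H4

open Polynomial

namespace Tw

variable {F L : Type*} [Field F] [Field L] {φ : F →+* F} {N : ℕ} {h : F[X]}
  {D : Pl F L φ N h} {σ : F →+* F} (W : Tw D σ)

/-- Existence of `u` for a parameter with the right trace polynomial. -/
lemma exists_sol [CharP F 2] {a : F} (ha : a ≠ 0) (hh : h = H σ N a) :
    ∃ u, W.Sol a u := by
  have h2 := two_L D
  have hR : K σ a (N + 1) ≠ 0 := by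
    intro h0
    have := K_coeff_zero σ a (N + 1)
    rw [h0, coeff_zero] at this
    refine (Finset.prod_ne_zero_iff.mpr fun i _ => ?_) this.symm
    rw [← RingHom.coe_pow]
    rwa [Ne, map_eq_zero]
  have hR' : K σ (σ a) (N + 1) ≠ 0 := by
    rw [← K_map]
    exact (Polynomial.map_ne_zero_iff σ.injective).mpr hR
  have r0 := (D.deg_ev _ hR).1
  have r1 := (D.deg_ev _ hR').1
  have heu : D.ev (K σ a (N + 2)) * D.ev (K σ (σ a) N)
      + D.ev (K σ a (N + 1)) * D.ev (K σ (σ a) (N + 1)) = D.t ^ (N + 1) := by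
    rw [← map_mul, ← map_mul, ← map_add, K_euler, map_pow, D.ev_X]
  have hl : D.ev (K σ a (N + 2)) = D.ι a * D.ev (K σ (σ a) (N + 1))
      + D.t * D.ev (K σ (σ (σ a)) N) := by
    rw [K_left, map_add, map_mul, map_mul, D.ev_C, D.ev_X]
  have hh' : D.ev h = D.ev (K σ a (N + 2)) + D.t * D.ev (K σ (σ a) N) := by
    refine (congrArg D.ev hh).trans ?_
    unfold H; rw [map_add, map_mul, D.ev_X]
  have heq := D.eqn'
  have hp : D.t ^ (N + 2) = D.t * D.t ^ (N + 1) := by ring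
  rw [hp, ← heu, hh'] at heq
  set P := D.ev (K σ (σ a) N) with hP
  set R := D.ev (K σ a (N + 1)) with hRd
  set Q := D.ev (K σ (σ a) (N + 1)) with hQ
  set Z := D.ev (K σ a (N + 2)) with hZ
  set P' := D.ev (K σ (σ (σ a)) N) with hP'
  have hSR : W.S R = Q := by rw [hRd, W.S_ev, K_map]
  have hSP : W.S P = P' := by rw [hP, W.S_ev, K_map]
  have hsol : ((D.T + D.t * P) / R) * W.S ((D.T + D.t * P) / R)
      = D.t + D.ι a * ((D.T + D.t * P) / R) := by
    rw [map_div₀, map_add, map_mul, W.ST, W.St, hSR, hSP]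
    field_simp
    linear_combination heq + (D.T + D.t * P) * hl - (D.t * R * Q + D.T * Z
      + D.t * P * D.T + D.t * P * Z) * h2
      + (D.T * D.t * P + D.T * D.t * P' + D.t ^ 2 * P * P') * h2
  refine ⟨(D.T + D.t * P) / R, hsol, ?_⟩
  have := W.prod_formula hsol N
  unfold nm
  rw [this, ← hP, ← hRd]
  field_simp
  linear_combination (D.t * P) * h2

end Tw

namespace Pl

variable {F L : Type*} [Field F] [Field L] {φ : F →+* F} {N : ℕ} {h : F[X]}
  (D : Pl F L φ N h)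

/-- Stability under `F[t]`. -/
def AS (M : Submodule ℤ L) : Prop := ∀ (P : F[X]) (z : L), z ∈ M → D.ev P * z ∈ M

/-- The `F[t]`-module generated by two elements. -/
def Lt (x y : L) : Submodule ℤ L where
  carrier := {z | ∃ α β : F[X], z = D.ev α * x + D.ev β * y}
  add_mem' := by
    rintro a b ⟨α, β, rfl⟩ ⟨α', β', rfl⟩
    exact ⟨α + α', β + β', by rw [map_add, map_add]; ring⟩
  zero_mem' := ⟨0, 0, by simp⟩
  smul_mem' := by
    rintro c x ⟨α, β, rfl⟩
    refine ⟨c • α, c • β, ?_⟩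
    rw [map_zsmul, map_zsmul]
    simp only [zsmul_eq_mul]
    ring

lemma mem_Lt {x y z : L} : z ∈ D.Lt x y ↔ ∃ α β : F[X], z = D.ev α * x + D.ev β * y := Iff.rfl

lemma Lt_AS (x y : L) : D.AS (D.Lt x y) := by
  rintro P z ⟨α, β, rfl⟩
  exact ⟨P * α, P * β, by rw [map_mul, map_mul]; ring⟩

lemma left_mem (x y : L) : x ∈ D.Lt x y := ⟨1, 0, by simp⟩

lemma right_mem (x y : L) : y ∈ D.Lt x y := ⟨0, 1, by simp⟩

lemma Lt_le {M : Submodule ℤ L} (hM : D.AS M) {x y : L} (hx : x ∈ M) (hy : y ∈ M) :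
    D.Lt x y ≤ M := by
  rintro z ⟨α, β, rfl⟩
  exact M.add_mem (hM _ _ hx) (hM _ _ hy)

lemma Lt_mul_le {M : Submodule ℤ L} (hM : D.AS M) {x y x' y' : L} (h1 : x * x' ∈ M)
    (h2 : x * y' ∈ M) (h3 : y * x' ∈ M) (h4 : y * y' ∈ M) : D.Lt x y * D.Lt x' y' ≤ M := by
  rw [Submodule.mul_le]
  rintro z ⟨α, β, rfl⟩ w ⟨γ, δ, rfl⟩
  have e : (D.ev α * x + D.ev β * y) * (D.ev γ * x' + D.ev δ * y')
      = D.ev (α * γ) * (x * x') + D.ev (α * δ) * (x * y') + D.ev (β * γ) * (y * x')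
        + D.ev (β * δ) * (y * y') := by
    rw [map_mul, map_mul, map_mul, map_mul]; ring
  rw [e]
  exact M.add_mem (M.add_mem (M.add_mem (hM _ _ h1) (hM _ _ h2)) (hM _ _ h3)) (hM _ _ h4)

lemma mul_AS {M M' : Submodule ℤ L} (hM : D.AS M) : D.AS (M * M') := by
  intro P z hz
  induction hz using Submodule.mul_induction_on' with
  | mem_mul_mem m hm n hn =>
    rw [← mul_assoc]
    exact Submodule.mul_mem_mul (hM _ _ hm) hn
  | add x _ y _ hx hy =>
    rw [mul_add]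
    exact Submodule.add_mem _ hx hy

lemma pow_AS {M : Submodule ℤ L} (hM : D.AS M) (j : ℕ) : D.AS (M ^ (j + 1)) := by
  rw [pow_succ']
  exact D.mul_AS hM

lemma mem_span_mul {w z : L} {M : Submodule ℤ L} :
    z ∈ Submodule.span ℤ {w} * M ↔ ∃ m ∈ M, w * m = z :=
  Submodule.mem_span_singleton_mul

lemma span_mul_AS {w : L} {M : Submodule ℤ L} (hM : D.AS M) :
    D.AS (Submodule.span ℤ {w} * M) := by
  intro P z hz
  obtain ⟨m, hm, rfl⟩ := mem_span_mul.mp hz
  exact mem_span_mul.mpr ⟨D.ev P * m, hM _ _ hm, by ring⟩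

lemma span_mul_Lt (w x y : L) :
    Submodule.span ℤ {w} * D.Lt x y = D.Lt (w * x) (w * y) := by
  apply le_antisymm
  · intro z hz
    obtain ⟨m, ⟨α, β, rfl⟩, rfl⟩ := mem_span_mul.mp hz
    exact ⟨α, β, by ring⟩
  · rintro z ⟨α, β, rfl⟩
    exact mem_span_mul.mpr ⟨D.ev α * x + D.ev β * y, ⟨α, β, rfl⟩, by ring⟩

lemma span_mul_span (x y : L) (M : Submodule ℤ L) :
    Submodule.span ℤ {x} * (Submodule.span ℤ {y} * M) = Submodule.span ℤ {x * y} * M := by
  rw [← mul_assoc, Submodule.span_mul_span, Set.singleton_mul_singleton]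

lemma span_one_mul (M : Submodule ℤ L) : Submodule.span ℤ {(1 : L)} * M = M := by
  rw [← Submodule.one_eq_span, one_mul]

end Pl

namespace Tw

variable {F L : Type*} [Field F] [Field L] {φ : F →+* F} {N : ℕ} {h : F[X]}
  {D : Pl F L φ N h} {σ : F →+* F} (W : Tw D σ)

/-- The image of a module under `S`. -/
def mp (M : Submodule ℤ L) : Submodule ℤ L := M.map W.S.toIntAlgHom.toLinearMap

lemma mem_mp {z : L} {M : Submodule ℤ L} : z ∈ W.mp M ↔ ∃ m ∈ M, W.S m = z := Iff.rfl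

lemma mp_mul (M M' : Submodule ℤ L) : W.mp (M * M') = W.mp M * W.mp M' :=
  Submodule.map_mul M M' W.S.toIntAlgHom

lemma mp_pow (M : Submodule ℤ L) (j : ℕ) : W.mp (M ^ j) = W.mp M ^ j :=
  Submodule.map_pow M W.S.toIntAlgHom j

lemma mp_span (x : L) : W.mp (Submodule.span ℤ {x}) = Submodule.span ℤ {W.S x} := by
  unfold mp
  rw [Submodule.map_span, Set.image_singleton]
  rfl

lemma mp_Lt (hσ : Function.Surjective σ) (x y : L) :
    W.mp (D.Lt x y) = D.Lt (W.S x) (W.S y) := by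
  apply le_antisymm
  · intro z hz
    obtain ⟨m, ⟨α, β, rfl⟩, rfl⟩ := W.mem_mp.mp hz
    exact ⟨α.map σ, β.map σ, by rw [map_add, map_mul, map_mul, W.S_ev, W.S_ev]⟩
  · rintro z ⟨α, β, rfl⟩
    obtain ⟨α', rfl⟩ := Polynomial.map_surjective σ hσ α
    obtain ⟨β', rfl⟩ := Polynomial.map_surjective σ hσ β
    exact W.mem_mp.mpr ⟨_, ⟨α', β', rfl⟩, by rw [map_add, map_mul, map_mul, W.S_ev, W.S_ev]⟩

/-- The prime `(t, T)`. -/
def pr (D : Pl F L φ N h) : Submodule ℤ L := Submodule.span ℤ {D.t} ⊔ Submodule.span ℤ {D.T}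

lemma mp_pr : W.mp (pr D) = pr D := by
  have h1 := W.mp_span D.t
  have h2 := W.mp_span D.T
  rw [W.St] at h1
  rw [W.ST] at h2
  unfold pr
  rw [← h1, ← h2]
  unfold mp
  rw [Submodule.map_sup]
  have h1' := h1
  have h2' := h2
  unfold mp at h1' h2'
  rw [h1', h2', h1', h2']

lemma pr_mul (M : Submodule ℤ L) :
    pr D * M = Submodule.span ℤ {D.t} * M ⊔ Submodule.span ℤ {D.T} * M := by
  unfold pr
  rw [Submodule.sup_mul]

/-- The basic relation `u S(M) = p M`. -/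
lemma sol_rel [CharP F 2] (hσ : Function.Surjective σ) {a : F} {u : L} (ha : a ≠ 0)
    (hs : W.Sol a u) :
    Submodule.span ℤ {u} * W.mp (D.Lt 1 u) = pr D * D.Lt 1 u := by
  obtain ⟨e1, e2, _⟩ := W.link hs
  have h2 := two_L D
  rw [W.mp_Lt hσ, D.span_mul_Lt, pr_mul, D.span_mul_Lt, D.span_mul_Lt, map_one, mul_one, mul_one,
    mul_one, hs.1]
  apply le_antisymm
  · have hAS : D.AS (D.Lt D.t (D.t * u) ⊔ D.Lt D.T (D.T * u)) := by
      intro P z hz
      obtain ⟨x, hx, y, hy, rfl⟩ := Submodule.mem_sup.mp hz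
      rw [mul_add]
      exact Submodule.add_mem_sup (D.Lt_AS _ _ _ _ hx) (D.Lt_AS _ _ _ _ hy)
    have ht : D.t ∈ D.Lt D.t (D.t * u) ⊔ D.Lt D.T (D.T * u) :=
      Submodule.mem_sup_left (D.left_mem _ _)
    have htu : D.t * u ∈ D.Lt D.t (D.t * u) ⊔ D.Lt D.T (D.T * u) :=
      Submodule.mem_sup_left (D.right_mem _ _)
    have hT : D.T ∈ D.Lt D.t (D.t * u) ⊔ D.Lt D.T (D.T * u) :=
      Submodule.mem_sup_right (D.left_mem _ _)
    have hRu : D.ev (K σ a (N + 1)) * u ∈ D.Lt D.t (D.t * u) ⊔ D.Lt D.T (D.T * u) := by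
      have : D.ev (K σ a (N + 1)) * u = D.T - D.ev (K σ (σ a) N) * D.t := by
        linear_combination -e1
      rw [this]
      exact Submodule.sub_mem _ hT (hAS _ _ ht)
    have hcop : IsCoprime (K σ a (N + 1)) (X : F[X]) := by
      refine (Irreducible.coprime_iff_not_dvd irreducible_X).mpr ?_ |>.symm
      rw [X_dvd_iff, K_coeff_zero]
      refine Finset.prod_ne_zero_iff.mpr fun i _ => ?_
      rw [← RingHom.coe_pow]
      rwa [Ne, map_eq_zero]
    obtain ⟨x, y, hxy⟩ := hcop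
    have hu : u ∈ D.Lt D.t (D.t * u) ⊔ D.Lt D.T (D.T * u) := by
      have e3 : D.ev x * (D.ev (K σ a (N + 1)) * u) + D.ev y * (D.t * u) = u := by
        have := congrArg D.ev hxy
        rw [map_add, map_mul, map_mul, D.ev_X, map_one] at this
        linear_combination u * this
      have key := Submodule.add_mem _ (hAS x _ hRu) (hAS y _ htu)
      rwa [e3] at key
    refine D.Lt_le hAS hu (Submodule.add_mem _ ht ?_)
    rw [← D.ev_C]
    exact hAS _ _ hu
  · have hu : u ∈ D.Lt u (D.t + D.ι a * u) := D.left_mem _ _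
    have ht : D.t ∈ D.Lt u (D.t + D.ι a * u) := by
      have e3 : (D.t + D.ι a * u) - D.ev (C a) * u = D.t := by rw [D.ev_C]; ring
      have key := Submodule.sub_mem _ (D.right_mem u (D.t + D.ι a * u))
        (D.Lt_AS u (D.t + D.ι a * u) (C a) _ hu)
      rwa [e3] at key
    refine sup_le (D.Lt_le (D.Lt_AS _ _) ht ?_) (D.Lt_le (D.Lt_AS _ _) ?_ ?_)
    · have key := D.Lt_AS u (D.t + D.ι a * u) X _ hu
      rwa [D.ev_X] at key
    · rw [e1, mul_comm D.t]
      exact Submodule.add_mem _ (D.Lt_AS _ _ _ _ ht) (D.Lt_AS _ _ _ _ hu)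
    · rw [e2, mul_comm D.t]
      exact Submodule.add_mem _ (D.Lt_AS _ _ _ _ ht) (D.Lt_AS _ _ _ _ hu)

end Tw

end Pool.Agent.H4
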