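import Mathlib
import Pool.Agent.H4.Lat

/-!
Invertibility of the lattices `F[t] + F[t] u`, uniqueness of parameters, bounds.
-/

namespace Pool.Agent.H4

open Polynomial

namespace Tw

variable {F L : Type*} [Field F] [Field L] {φ : F →+* F} {N : ℕ} {h : F[X]}
  {D : Pl F L φ N h} {σ : F →+* F} (W : Tw D σ)

lemma K_ne (σ : F →+* F) {a : F} (ha : a ≠ 0) (j : ℕ) : K σ a j ≠ 0 := by
  intro h0
  have := K_coeff_zero σ a j
  rw [h0, coeff_zero] at this
  refine (Finset.prod_ne_zero_iff.mpr fun i _ => ?_) this.symm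
  rw [← RingHom.coe_pow]
  rwa [Ne, map_eq_zero]

/-- Every lattice `F[t] + F[t] u` is invertible over its multiplier ring. -/
lemma exists_inv [CharP F 2] {a : F} {u : L} (ha : a ≠ 0) (hs : W.Sol a u) :
    ∃ V : Submodule ℤ L, D.Lt 1 u * V * D.Lt 1 u = D.Lt 1 u := by
  classical
  obtain ⟨e1, e2, e3⟩ := W.link hs
  have h2 := two_L D
  have hR0 : K σ a (N + 1) ≠ 0 := K_ne σ ha _
  set R := K σ a (N + 1) with hR
  set Q := X * K σ (σ a) (N + 1) with hQ
  set g := EuclideanDomain.gcd R h with hg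
  set f := EuclideanDomain.gcd g Q with hf
  have hfg : f ∣ g := EuclideanDomain.gcd_dvd_left _ _
  have hfQ : f ∣ Q := EuclideanDomain.gcd_dvd_right _ _
  have hfR : f ∣ R := hfg.trans (EuclideanDomain.gcd_dvd_left _ _)
  have hfh : f ∣ h := hfg.trans (EuclideanDomain.gcd_dvd_right _ _)
  obtain ⟨R', hR'⟩ := hfR
  obtain ⟨h', hh'⟩ := hfh
  obtain ⟨Q', hQ'⟩ := hfQ
  have hf0 : f ≠ 0 := by
    rintro h0
    rw [h0, zero_mul] at hR'
    exact hR0 hR'
  have hb1 := EuclideanDomain.gcd_eq_gcd_ab R h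
  have hb2 := EuclideanDomain.gcd_eq_gcd_ab g Q
  rw [← hg] at hb1
  rw [← hf] at hb2
  obtain ⟨x1, y1, x2, y2, hbez⟩ : ∃ x1 y1 x2 y2 : F[X],
      (R' * x1 + h' * y1) * x2 + Q' * y2 = 1 := by
    refine ⟨EuclideanDomain.gcdA R h, EuclideanDomain.gcdB R h, EuclideanDomain.gcdA g Q,
      EuclideanDomain.gcdB g Q, ?_⟩
    apply mul_left_cancel₀ hf0
    have : f * ((R' * EuclideanDomain.gcdA R h + h' * EuclideanDomain.gcdB R h)
        * EuclideanDomain.gcdA g Q + Q' * EuclideanDomain.gcdB g Q)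
        = ((f * R') * EuclideanDomain.gcdA R h + (f * h') * EuclideanDomain.gcdB R h)
        * EuclideanDomain.gcdA g Q + (f * Q') * EuclideanDomain.gcdB g Q := by ring
    rw [this, ← hR', ← hh', ← hQ', ← hb1, ← hb2, mul_one]
  have hquad : D.ev R' * u ^ 2 + D.ev h' * u = D.ev Q' := by
    have k1 : D.ev R * u ^ 2 = D.ev Q + D.ev h * u := by
      have k2 : D.ev h = D.ev (K σ a (N + 2)) + D.t * D.ev (K σ (σ a) N) := by
        refine (congrArg D.ev e3).trans ?_
        unfold H; rw [map_add, map_mul, D.ev_X]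
      have k3 : D.ev Q = D.t * D.ev (K σ (σ a) (N + 1)) := by rw [hQ, map_mul, D.ev_X]
      rw [k2, k3]
      linear_combination e2 - u * e1 - (D.t * D.ev (K σ (σ a) N) * u) * h2
    have k4 : D.ev f * (D.ev R' * u ^ 2 + D.ev h' * u - D.ev Q') = 0 := by
      have j1 : D.ev R = D.ev f * D.ev R' := by rw [← map_mul]; exact congrArg D.ev hR'
      have j2 : D.ev h = D.ev f * D.ev h' := by rw [← map_mul]; exact congrArg D.ev hh'
      have j3 : D.ev Q = D.ev f * D.ev Q' := by rw [← map_mul]; exact congrArg D.ev hQ'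
      rw [j1, j2, j3] at k1
      linear_combination k1 + (D.ev f * D.ev h' * u) * h2
    have := (mul_eq_zero.mp k4).resolve_left (D.deg_ev f hf0).1
    linear_combination this
  have hbezL : D.ev x2 * (D.ev x1 * D.ev R' + D.ev y1 * D.ev h') + D.ev y2 * D.ev Q' = 1 := by
    have := congrArg D.ev hbez
    simp only [map_add, map_mul, map_one] at this
    linear_combination this
  set V := D.Lt (D.ev R') (D.ev R' * u + D.ev h') with hV
  set E := D.Lt 1 (D.ev R' * u) with hE
  have hEAS : D.AS E := D.Lt_AS _ _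
  have one_mem : (1 : L) ∈ E := D.left_mem _ _
  have om_mem : D.ev R' * u ∈ E := D.right_mem _ _
  have hev : ∀ P : F[X], D.ev P ∈ E := fun P => by
    have := hEAS P _ one_mem
    rwa [mul_one] at this
  have hMV : D.Lt 1 u * V = E := by
    apply le_antisymm
    · refine D.Lt_mul_le hEAS ?_ ?_ ?_ ?_
      · rw [one_mul]; exact hev _
      · rw [one_mul]; exact E.add_mem om_mem (hev _)
      · rw [mul_comm]; exact om_mem
      · have : u * (D.ev R' * u + D.ev h') = D.ev Q' := by linear_combination hquad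
        rw [this]; exact hev _
    · have hMAS : D.AS (D.Lt 1 u * V) := D.mul_AS (D.Lt_AS _ _)
      have m1 : D.ev R' ∈ D.Lt 1 u * V := by
        have := Submodule.mul_mem_mul (D.left_mem 1 u) (D.left_mem (D.ev R')
          (D.ev R' * u + D.ev h'))
        rwa [one_mul] at this
      have m2 : D.ev R' * u + D.ev h' ∈ D.Lt 1 u * V := by
        have := Submodule.mul_mem_mul (D.left_mem 1 u) (D.right_mem (D.ev R')
          (D.ev R' * u + D.ev h'))
        rwa [one_mul] at this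
      have m3 : D.ev R' * u ∈ D.Lt 1 u * V := by
        have := Submodule.mul_mem_mul (D.right_mem 1 u) (D.left_mem (D.ev R')
          (D.ev R' * u + D.ev h'))
        rwa [mul_comm u] at this
      have m4 : D.ev Q' ∈ D.Lt 1 u * V := by
        have := Submodule.mul_mem_mul (D.right_mem 1 u) (D.right_mem (D.ev R')
          (D.ev R' * u + D.ev h'))
        have e4 : u * (D.ev R' * u + D.ev h') = D.ev Q' := by linear_combination hquad
        rwa [e4] at this
      have m5 : D.ev h' ∈ D.Lt 1 u * V := by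
        have := Submodule.sub_mem _ m2 m3
        rwa [add_sub_cancel_left] at this
      refine D.Lt_le hMAS ?_ m3
      have key := Submodule.add_mem _ (hMAS x2 _ (Submodule.add_mem _ (hMAS x1 _ m1)
        (hMAS y1 _ m5))) (hMAS y2 _ m4)
      rwa [hbezL] at key
  refine ⟨V, ?_⟩
  rw [hMV]
  apply le_antisymm
  · have hAS := D.Lt_AS 1 u
    have l1 : (1 : L) ∈ D.Lt 1 u := D.left_mem _ _
    have l2 : u ∈ D.Lt 1 u := D.right_mem _ _
    refine D.Lt_mul_le hAS ?_ ?_ ?_ ?_
    · rw [one_mul]; exact l1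
    · rw [one_mul]; exact l2
    · rw [mul_one]; exact hAS _ _ l2
    · have : D.ev R' * u * u = D.ev Q' * 1 - D.ev h' * u := by linear_combination hquad
      rw [this]
      exact Submodule.sub_mem _ (hAS _ _ l1) (hAS _ _ l2)
  · intro z hz
    have := Submodule.mul_mem_mul one_mem hz
    rwa [one_mul] at this

/-- The parameter is determined by the homothety class of the lattice. -/
lemma sol_unique [CharP F 2] (hσ : Function.Surjective σ) (hd : ∀ d : F, d * σ d = 1 → d = 1)
    {a a' : F} {u u' w : L} (ha : a ≠ 0) (ha' : a' ≠ 0)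
    (hs : W.Sol a u) (hs' : W.Sol a' u') (hw : w ≠ 0)
    (hM : D.Lt 1 u = Submodule.span ℤ {w} * D.Lt 1 u') : a = a' := by
  have du := W.deg_of_nm hs.2
  have du' := W.deg_of_nm hs'.2
  have hu := W.ne_of_nm hs.2
  have hu' := W.ne_of_nm hs'.2
  have odd1 : Odd (D.deg u) := by rw [du]; exact odd_one
  have odd1' : Odd (D.deg u') := by rw [du']; exact odd_one
  have h2 := two_L D
  -- `w` is a constant
  obtain ⟨c, hc, hwc⟩ : ∃ c : F, c ≠ 0 ∧ w = D.ι c := by
    have m1 : w ∈ D.Lt 1 u := by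
      rw [hM]
      exact Pl.mem_span_mul.mpr ⟨1, D.left_mem _ _, mul_one _⟩
    obtain ⟨α, β, hαβ⟩ := m1
    rw [mul_one] at hαβ
    have hne : D.ev α + D.ev β * u ≠ 0 := hαβ ▸ hw
    have k1 := D.deg_lin hu odd1 (by rw [du]; norm_num) hne
    have m2 : (1 : L) ∈ Submodule.span ℤ {w} * D.Lt 1 u' := by
      rw [← hM]; exact D.left_mem _ _
    obtain ⟨m, ⟨γ, δ, hm⟩, hwm⟩ := Pl.mem_span_mul.mp m2
    rw [mul_one] at hm
    have hm0 : m ≠ 0 := by rintro rfl; simp at hwm
    have hne' : D.ev γ + D.ev δ * u' ≠ 0 := hm ▸ hm0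
    have k2 := D.deg_lin hu' odd1' (by rw [du']; norm_num) hne'
    rw [← hαβ] at k1
    rw [← hm] at k2
    have k3 : D.deg w + D.deg m = 0 := by
      rw [← D.deg_mul _ _ hw hm0, hwm, D.deg_one]
    exact k1.2 (by have := k1.1; have := k2.1; omega)
  have hM' : D.Lt 1 u = D.Lt 1 u' := by
    rw [hM, D.span_mul_Lt, hwc, mul_one]
    have hcc : D.ι c⁻¹ * D.ι c = 1 := by rw [← map_mul, inv_mul_cancel₀ hc, map_one]
    apply le_antisymm
    · refine D.Lt_le (D.Lt_AS _ _) ?_ ?_
      · have := D.Lt_AS 1 u' (C c) _ (D.left_mem _ _)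
        rwa [D.ev_C, mul_one] at this
      · have := D.Lt_AS 1 u' (C c) _ (D.right_mem _ _)
        rwa [D.ev_C] at this
    · refine D.Lt_le (D.Lt_AS _ _) ?_ ?_
      · have := D.Lt_AS (D.ι c) (D.ι c * u') (C c⁻¹) _ (D.left_mem _ _)
        rwa [D.ev_C, hcc] at this
      · have := D.Lt_AS (D.ι c) (D.ι c * u') (C c⁻¹) _ (D.right_mem _ _)
        rwa [D.ev_C, ← mul_assoc, hcc, one_mul] at this
  -- compare `u` and `u'`
  obtain ⟨d, hd0, hud⟩ : ∃ d : F, d ≠ 0 ∧ u = D.ι d * u' := by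
    have r1 := W.sol_rel hσ ha hs
    have r2 := W.sol_rel hσ ha' hs'
    rw [hM', ← r2] at r1
    have m1 : u ∈ Submodule.span ℤ {u} * W.mp (D.Lt 1 u') :=
      Pl.mem_span_mul.mpr ⟨1, W.mem_mp.mpr ⟨1, D.left_mem _ _, map_one _⟩, mul_one _⟩
    rw [r1] at m1
    obtain ⟨m, hm, hum⟩ := Pl.mem_span_mul.mp m1
    obtain ⟨z, ⟨γ, δ, hz⟩, rfl⟩ := W.mem_mp.mp hm
    rw [mul_one] at hz
    have hSz : W.S z ≠ 0 := by
      intro h0; rw [h0, mul_zero] at hum; exact hu hum.symm
    have hz0 : z ≠ 0 := by rintro rfl; exact hSz (map_zero _)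
    have k3 : D.deg z = 0 := by
      have := D.deg_mul _ _ hu' hSz
      rw [hum, W.deg_S, du, du'] at this
      omega
    have hne' : D.ev γ + D.ev δ * u' ≠ 0 := hz ▸ hz0
    have k2 := D.deg_lin hu' odd1' (by rw [du']; norm_num) hne'
    rw [← hz] at k2
    obtain ⟨c', hc', hzc⟩ := k2.2 k3
    refine ⟨σ c', by rwa [Ne, map_eq_zero], ?_⟩
    rw [← hum, hzc, W.Sι, mul_comm]
  have key : D.ev (C (d * σ d - 1) * X) + D.ev (C (d * σ d * a' - a * d)) * u' = 0 := by
    have k1 := hs.1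
    have k2 := hs'.1
    rw [hud, map_mul, W.Sι] at k1
    rw [map_mul, D.ev_C, D.ev_C, D.ev_X, map_sub, map_sub, map_mul, map_mul, map_mul, map_mul,
      map_one]
    linear_combination k1 - (D.ι d * D.ι (σ d)) * k2
  obtain ⟨k1, k2⟩ := D.parity hu' odd1' key
  have k3 : d * σ d = 1 := by
    have : d * σ d - 1 = 0 := by
      rcases mul_eq_zero.mp k1 with h0 | h0
      · rwa [C_eq_zero] at h0
      · exact absurd h0 X_ne_zero
    linear_combination this
  have k4 := hd d k3
  rw [C_eq_zero] at k2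
  rw [k4, map_one] at k2
  linear_combination -k2

end Tw

end Pool.Agent.H4
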