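import Mathlib
import Pool.Agent.H4.Inv

/-!
Classification: every lattice `M` with `u S(M) = p M` and `nm u = T` is homothetic to some
`F[t] + F[t] v` with `v S v = t + b v`.
-/

namespace Pool.Agent.H4

open Polynomial

namespace Tw

variable {F L : Type*} [Field F] [Field L] {φ : F →+* F} {N : ℕ} {h : F[X]}
  {D : Pl F L φ N h} {σ : F →+* F} (W : Tw D σ)

lemma classify [CharP F 2] (hh0 : h ≠ 0)
    (hfix : ∀ x : L, W.S (W.S x) = x → W.S x = x)
    (hsurj : ∀ d : F, d ≠ 0 → ∃ c : F, c ≠ 0 ∧ c * d = σ (σ c))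
    (M : Submodule ℤ L) (hA : D.AS M) (hT : ∀ z ∈ M, D.T * z ∈ M)
    (hne : ∃ z ∈ M, z ≠ 0) (B : ℤ) (hB : ∀ z ∈ M, z ≠ 0 → B ≤ D.deg z)
    (u : L) (hnm : W.nm u = D.T)
    (huM : Submodule.span ℤ {u} * W.mp M = pr D * M) :
    ∃ b : F, b ≠ 0 ∧ ∃ v : L, W.Sol b v ∧ ∃ w : L, w ≠ 0 ∧
      M = Submodule.span ℤ {w} * D.Lt 1 v := by
  have h2 := two_L D
  have hu := W.ne_of_nm hnm
  have du := W.deg_of_nm hnm
  -- an element of minimal degree
  obtain ⟨v, hv, hv0, hmin⟩ : ∃ v ∈ M, v ≠ 0 ∧ ∀ z ∈ M, z ≠ 0 → D.deg v ≤ D.deg z := by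
    obtain ⟨m, ⟨v, hv, hv0, hvm⟩, hm⟩ := Int.exists_least_of_bdd
      (P := fun m => ∃ v ∈ M, v ≠ 0 ∧ D.deg v = m)
      ⟨B, by rintro m ⟨v, hv, hv0, rfl⟩; exact hB v hv hv0⟩
      (by obtain ⟨z, hz, hz0⟩ := hne; exact ⟨_, z, hz, hz0, rfl⟩)
    exact ⟨v, hv, hv0, fun z hz hz0 => hvm ▸ hm _ ⟨z, hz, hz0, rfl⟩⟩
  have hprM : ∀ z ∈ pr D * M, z ∈ M := by
    intro z hz
    rw [pr_mul] at hz
    obtain ⟨x, hx, y, hy, rfl⟩ := Submodule.mem_sup.mp hz
    obtain ⟨m, hm, rfl⟩ := Pl.mem_span_mul.mp hx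
    obtain ⟨m', hm', rfl⟩ := Pl.mem_span_mul.mp hy
    refine M.add_mem ?_ (hT _ hm')
    have := hA X _ hm
    rwa [D.ev_X] at this
  have hPhi : ∀ z ∈ M, u * W.S z ∈ M := by
    intro z hz
    apply hprM
    rw [← huM]
    exact Pl.mem_span_mul.mpr ⟨W.S z, W.mem_mp.mpr ⟨z, hz, rfl⟩, rfl⟩
  obtain ⟨v1, hv1⟩ : ∃ v1, v1 = u * W.S v := ⟨_, rfl⟩
  have hSv : W.S v ≠ 0 := by rwa [Ne, map_eq_zero]
  have hv1M : v1 ∈ M := hv1 ▸ hPhi v hv
  have hv10 : v1 ≠ 0 := hv1 ▸ mul_ne_zero hu hSv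
  have dv1 : D.deg v1 = D.deg v + 1 := by
    rw [hv1, D.deg_mul _ _ hu hSv, du, W.deg_S]; ring
  -- `M` is generated by `v` and `v1`
  have hMeq : M = D.Lt v v1 := by
    apply le_antisymm
    · intro z hz
      by_cases hz0 : z = 0
      · rw [hz0]; exact Submodule.zero_mem _
      induction' hd : (D.deg z - D.deg v).toNat using Nat.strong_induction_on with d ih
        generalizing z
      have hge := hmin z hz hz0
      obtain ⟨y, hyM, hyL, hy0, hyd⟩ : ∃ y ∈ M, y ∈ D.Lt v v1 ∧ y ≠ 0 ∧ D.deg y = D.deg z := by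
        obtain ⟨e, he⟩ : ∃ e : ℕ, D.deg z = D.deg v + e := ⟨(D.deg z - D.deg v).toNat, by omega⟩
        rcases Nat.even_or_odd' e with ⟨l, hl | hl⟩
        · refine ⟨D.ev (X ^ l) * v, hA _ _ hv, D.Lt_AS _ _ _ _ (D.left_mem _ _), ?_, ?_⟩
          · rw [map_pow, D.ev_X]; exact mul_ne_zero (pow_ne_zero _ D.t_ne) hv0
          · rw [map_pow, D.ev_X, D.deg_mul _ _ (pow_ne_zero _ D.t_ne) hv0, D.deg_pow _ D.t_ne,
              D.deg_t, he, hl]
            push_cast; ring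
        · refine ⟨D.ev (X ^ l) * v1, hA _ _ hv1M, D.Lt_AS _ _ _ _ (D.right_mem _ _), ?_, ?_⟩
          · rw [map_pow, D.ev_X]; exact mul_ne_zero (pow_ne_zero _ D.t_ne) hv10
          · rw [map_pow, D.ev_X, D.deg_mul _ _ (pow_ne_zero _ D.t_ne) hv10, D.deg_pow _ D.t_ne,
              D.deg_t, he, hl, dv1]
            push_cast; ring
      obtain ⟨c, hc, hred⟩ := D.deg_red z y hz0 hy0 hyd.symm
      have hcy : D.ι c * y ∈ D.Lt v v1 := by
        have := D.Lt_AS v v1 (C c) _ hyL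
        rwa [D.ev_C] at this
      have hcyM : D.ι c * y ∈ M := by
        have := hA (C c) _ hyM
        rwa [D.ev_C] at this
      rcases hred with hred | ⟨hne', hlt⟩
      · rw [hred]; exact hcy
      · have hmem : z - D.ι c * y ∈ M := M.sub_mem hz hcyM
        have hge' := hmin _ hmem hne'
        have := ih (D.deg (z - D.ι c * y) - D.deg v).toNat (by omega) hmem hne' rfl
        have h3 := Submodule.add_mem _ this hcy
        rwa [sub_add_cancel] at h3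
    · exact D.Lt_le hA hv hv1M
  -- `t v` in terms of `v1` and `v2`
  obtain ⟨c1, c0, hc1, htv⟩ : ∃ c1 c0 : F, c1 ≠ 0 ∧
      D.t * v = D.ι (σ c1) * (u * W.S v1) + D.ι (σ c0) * v1 := by
    have h3 : D.t * v ∈ Submodule.span ℤ {u} * W.mp M := by
      rw [huM, pr_mul]
      exact Submodule.mem_sup_left (Pl.mem_span_mul.mpr ⟨v, hv, rfl⟩)
    obtain ⟨m, hm, hum⟩ := Pl.mem_span_mul.mp h3
    obtain ⟨z, hz, rfl⟩ := W.mem_mp.mp hm
    have htv0 : D.t * v ≠ 0 := mul_ne_zero D.t_ne hv0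
    have hSz : W.S z ≠ 0 := by rintro h0; rw [h0, mul_zero] at hum; exact htv0 hum.symm
    have hz0 : z ≠ 0 := by rintro rfl; exact hSz (map_zero _)
    have dz : D.deg z = D.deg v + 1 := by
      have h4 := D.deg_mul _ _ hu hSz
      rw [hum, D.deg_mul _ _ D.t_ne hv0, D.deg_t, du, W.deg_S] at h4
      omega
    obtain ⟨c1, hc1, hred⟩ := D.deg_red z v1 hz0 hv10 (by rw [dz, dv1])
    rcases hred with hred | ⟨hne', hlt⟩
    · refine ⟨c1, 0, hc1, ?_⟩
      rw [← hum, hred, map_mul, W.Sι, map_zero, map_zero]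
      ring
    · have hcyM : D.ι c1 * v1 ∈ M := by
        have := hA (C c1) _ hv1M
        rwa [D.ev_C] at this
      have hmem := M.sub_mem hz hcyM
      have hge := hmin _ hmem hne'
      obtain ⟨c0, hc0, hred2⟩ := D.deg_red _ v hne' hv0 (by omega)
      rcases hred2 with hred2 | ⟨hne2, hlt2⟩
      · refine ⟨c1, c0, hc1, ?_⟩
        have hz' : z = D.ι c1 * v1 + D.ι c0 * v := by linear_combination hred2
        rw [← hum, hz', map_add, map_mul, map_mul, W.Sι, W.Sι, hv1]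
        ring
      · exfalso
        have hcyM' : D.ι c0 * v ∈ M := by
          have := hA (C c0) _ hv
          rwa [D.ev_C] at this
        have := hmin _ (M.sub_mem hmem hcyM') hne2
        omega
  -- normalisation
  obtain ⟨c, hc, hcc⟩ := hsurj (σ c1) (by rwa [Ne, map_eq_zero])
  have hσc : σ c ≠ 0 := by rwa [Ne, map_eq_zero]
  have hιc : D.ι c ≠ 0 := D.ι_ne hc
  have hισc : D.ι (σ c) ≠ 0 := D.ι_ne hσc
  obtain ⟨b, hb⟩ : ∃ b : F, b = c * σ c0 / σ c := ⟨_, rfl⟩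
  obtain ⟨v', hv'⟩ : ∃ v' : L, v' = D.ι c * v := ⟨_, rfl⟩
  have hv'0 : v' ≠ 0 := hv' ▸ mul_ne_zero hιc hv0
  have hSv'0 : W.S v' ≠ 0 := by rwa [Ne, map_eq_zero]
  have hSv' : W.S v' = D.ι (σ c) * W.S v := by rw [hv', map_mul, W.Sι]
  have hx1 : u * W.S v' = D.ι (σ c) * v1 := by rw [hSv', hv1]; ring
  have hmain : u * W.S (u * W.S v') = D.t * v' + D.ι b * (u * W.S v') := by
    have e1 : u * W.S (u * W.S v') = D.ι (σ (σ c)) * (u * W.S v1) := by
      rw [hx1, map_mul, W.Sι]; ring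
    have e2 : D.ι b * (u * W.S v') = D.ι c * D.ι (σ c0) * v1 := by
      rw [hx1, hb, map_div₀, map_mul]
      field_simp
    have e3 : D.ι (σ (σ c)) = D.ι c * D.ι (σ c1) := by rw [← hcc, map_mul]
    rw [e1, e2, e3, hv']
    linear_combination (-(D.ι c)) * htv - (D.ι c * D.ι (σ c0) * v1) * h2
  obtain ⟨x, hx⟩ : ∃ x : L, x = u * W.S v' / v' := ⟨_, rfl⟩
  have hsol : x * W.S x = D.t + D.ι b * x := by
    have e1 : x * W.S x = (u * W.S (u * W.S v')) / v' := by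
      rw [hx, map_div₀]
      field_simp
    rw [e1, hmain, hx]
    field_simp
  have hnx : W.nm x = D.T := by
    have e1 : x * v' = u * W.S v' := by rw [hx]; field_simp
    have e2 := congrArg W.nm e1
    rw [W.nm_mul, W.nm_mul, W.nm_S, hnm] at e2
    exact mul_right_cancel₀ (W.nm_ne hv'0) e2
  have hb0 : b ≠ 0 := by
    rintro h0
    rw [h0, map_zero, zero_mul, add_zero] at hsol
    have hx0 := W.ne_of_nm hnx
    have hSx0 : W.S x ≠ 0 := by rwa [Ne, map_eq_zero]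
    have e1 : W.S (W.S x) = x := by
      have e2 := congrArg W.S hsol
      rw [map_mul, W.St, ← hsol] at e2
      have e3 : W.S x * W.S (W.S x) = W.S x * x := by rw [e2]; ring
      exact mul_left_cancel₀ hSx0 e3
    have e4 := hfix x e1
    rw [e4] at hsol
    have e5 : ∀ i : ℕ, W.S^[i] x = x := by
      intro i
      induction i with
      | zero => rfl
      | succ i ih => rw [Function.iterate_succ_apply', ih, e4]
    have e6 : x ^ (N + 2) = D.T := by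
      rw [← hnx]
      unfold nm
      rw [Finset.prod_congr rfl fun i _ => e5 i, Finset.prod_const, Finset.card_range]
    have e7 : D.ev h * D.T = 0 := by
      have e8 := D.eqn'
      have e9 : D.T ^ 2 = D.t ^ (N + 2) := by
        rw [← e6, ← hsol]; ring
      linear_combination e8 - e9 - D.t ^ (N + 2) * h2
    exact mul_ne_zero (D.deg_ev h hh0).1 D.T_ne e7
  refine ⟨b, hb0, x, ⟨hsol, hnx⟩, v', hv'0, ?_⟩
  have e1 : v' * x = u * W.S v' := by rw [hx]; field_simp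
  rw [D.span_mul_Lt, mul_one, e1, hx1, hMeq, hv']
  have hcc' : D.ι c⁻¹ * D.ι c = 1 := by rw [← map_mul, inv_mul_cancel₀ hc, map_one]
  have hcs' : D.ι (σ c)⁻¹ * D.ι (σ c) = 1 := by rw [← map_mul, inv_mul_cancel₀ hσc, map_one]
  apply le_antisymm
  · refine D.Lt_le (D.Lt_AS _ _) ?_ ?_
    · have := D.Lt_AS (D.ι c * v) (D.ι (σ c) * v1) (C c⁻¹) _ (D.left_mem _ _)
      rwa [D.ev_C, ← mul_assoc, hcc', one_mul] at this
    · have := D.Lt_AS (D.ι c * v) (D.ι (σ c) * v1) (C (σ c)⁻¹) _ (D.right_mem _ _)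
      rwa [D.ev_C, ← mul_assoc, hcs', one_mul] at this
  · refine D.Lt_le (D.Lt_AS _ _) ?_ ?_
    · have := D.Lt_AS v v1 (C c) _ (D.left_mem _ _)
      rwa [D.ev_C] at this
    · have := D.Lt_AS v v1 (C (σ c)) _ (D.right_mem _ _)
      rwa [D.ev_C] at this

end Tw

end Pool.Agent.H4
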