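import Mathlib
import Pool.Agent.H4.Classify

/-!
The injection from parameters for `φ` to parameters for `φ^k`.
-/

namespace Pool.Agent.H4

open Polynomial

namespace Pl

variable {F L : Type*} [Field F] [Field L] {φ : F →+* F} {N : ℕ} {h : F[X]}
  (D : Pl F L φ N h)

/-- The twist by the `k`-th power of the coefficientwise Frobenius. -/
def tw (k : ℕ) : Tw D (φ ^ k) where
  S := D.Φ ^ k
  Sι := by
    induction k with
    | zero => intro c; rfl
    | succ k ih =>
      intro c
      rw [pow_succ', pow_succ', RingHom.mul_def, RingHom.mul_def, RingHom.comp_apply,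
        RingHom.comp_apply, ih, D.Φι]
  St := by
    induction k with
    | zero => rfl
    | succ k ih => rw [pow_succ', RingHom.mul_def, RingHom.comp_apply, ih, D.Φt]
  ST := by
    induction k with
    | zero => rfl
    | succ k ih => rw [pow_succ', RingHom.mul_def, RingHom.comp_apply, ih, D.ΦT]
  Sn := by
    intro x
    rw [RingHom.coe_pow, ← Function.iterate_mul]
    have : Function.IsPeriodicPt D.Φ (N + 2) x := D.Φn x
    exact this.const_mul k
  deg_S := by
    intro x
    induction k with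
    | zero => rfl
    | succ k ih => rw [pow_succ', RingHom.mul_def, RingHom.comp_apply, D.deg_Φ, ih]

lemma tw_S (k : ℕ) (x : L) : (D.tw k).S x = D.Φ^[k] x := by
  change (D.Φ ^ k) x = _
  rw [RingHom.coe_pow]

lemma tw_iter (k i : ℕ) (x : L) : (D.tw k).S^[i] x = D.Φ^[k * i] x := by
  have : ((D.tw k).S : L → L) = D.Φ^[k] := funext fun y => D.tw_S k y
  rw [this, ← Function.iterate_mul]

lemma nm_tw (k : ℕ) (hk : Nat.Coprime k (N + 2)) (u : L) : (D.tw k).nm u = (D.tw 1).nm u := by
  unfold Tw.nm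
  have hper : Function.IsPeriodicPt D.Φ (N + 2) u := D.Φn u
  have hmod : ∀ m, D.Φ^[m] u = D.Φ^[m % (N + 2)] u := fun m => (hper.iterate_mod_apply m).symm
  have hinj : Set.InjOn (fun i => k * i % (N + 2)) (Finset.range (N + 2) : Finset ℕ) := by
    intro x hx y hy hxy
    simp only [Finset.coe_range, Set.mem_Iio] at hx hy
    have h1 : k * x ≡ k * y [MOD (N + 2)] := hxy
    have h2 := Nat.ModEq.cancel_left_of_coprime hk.symm h1
    exact Nat.ModEq.eq_of_lt_of_lt h2 hx hy
  refine Finset.prod_nbij (fun i => k * i % (N + 2)) ?_ hinj ?_ ?_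
  · intro i _
    rw [Finset.mem_range]
    exact Nat.mod_lt _ (by omega)
  · apply Finset.surjOn_of_injOn_of_card_le _ _ hinj le_rfl
    intro i _
    simp only [Finset.coe_range, Set.mem_Iio]
    exact Nat.mod_lt _ (by omega)
  · intro i _
    rw [D.tw_iter, D.tw_iter, one_mul, ← hmod]

end Pl

namespace Tw

variable {F L : Type*} [Field F] [Field L] {φ : F →+* F} {N : ℕ} {h : F[X]}
  {D : Pl F L φ N h}

/-- The truncated norm `∏_{l < i} Φ^l u`. -/
def pn (D : Pl F L φ N h) (i : ℕ) (u : L) : L := ∏ l ∈ Finset.range i, D.Φ^[l] u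

lemma pn_succ (i : ℕ) (u : L) : pn D (i + 1) u = D.Φ (pn D i u) * u := by
  unfold pn
  rw [Finset.prod_range_succ', map_prod]
  congr 1
  exact Finset.prod_congr rfl fun l _ => Function.iterate_succ_apply' _ _ _

lemma mp_tw_succ (i : ℕ) (M : Submodule ℤ L) :
    (D.tw (i + 1)).mp M = (D.tw 1).mp ((D.tw i).mp M) := by
  ext z
  simp only [mem_mp, D.tw_S]
  constructor
  · rintro ⟨m, hm, rfl⟩
    exact ⟨_, ⟨m, hm, rfl⟩, by rw [← Function.iterate_add_apply, add_comm]⟩
  · rintro ⟨_, ⟨m, hm, rfl⟩, rfl⟩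
    exact ⟨m, hm, by rw [← Function.iterate_add_apply, add_comm]⟩

lemma mp_tw_zero (M : Submodule ℤ L) : (D.tw 0).mp M = M := by
  ext z
  simp only [mem_mp, D.tw_S]
  constructor
  · rintro ⟨m, hm, rfl⟩; exact hm
  · intro hz; exact ⟨z, hz, rfl⟩

lemma mp_tw_full (M : Submodule ℤ L) : (D.tw (N + 2)).mp M = M := by
  ext z
  simp only [mem_mp, D.tw_S]
  constructor
  · rintro ⟨m, hm, rfl⟩; rwa [D.Φn]
  · intro hz; exact ⟨z, hz, D.Φn z⟩

lemma iter_rel {u : L} {M : Submodule ℤ L}
    (hM : Submodule.span ℤ {u} * (D.tw 1).mp M = pr D * M) (i : ℕ) :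
    Submodule.span ℤ {pn D i u} * (D.tw i).mp M = pr D ^ i * M := by
  induction i with
  | zero =>
    rw [mp_tw_zero, pow_zero, one_mul]
    unfold pn
    rw [Finset.prod_range_zero, Pl.span_one_mul]
  | succ i ih =>
    have h1 : Submodule.span ℤ {u} * (D.tw 1).mp (Submodule.span ℤ {pn D i u} * (D.tw i).mp M)
        = pr D ^ (i + 1) * M := by
      rw [ih, mp_mul, mp_pow, mp_pr, ← mul_assoc, mul_comm (Submodule.span ℤ {u}), mul_assoc, hM,
        ← mul_assoc, ← pow_succ]
    rw [← h1, mp_mul, mp_span, ← mp_tw_succ, Pl.span_mul_span, pn_succ, D.tw_S, mul_comm u]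
    rfl

lemma full_rel {u : L} {M : Submodule ℤ L} (hu : (D.tw 1).nm u = D.T)
    (hM : Submodule.span ℤ {u} * (D.tw 1).mp M = pr D * M) :
    Submodule.span ℤ {D.T} * M = pr D ^ (N + 2) * M := by
  have h1 := iter_rel hM (N + 2)
  rw [mp_tw_full] at h1
  rw [← h1]
  congr 2
  have : pn D (N + 2) u = (D.tw 1).nm u := by
    unfold pn nm
    exact Finset.prod_congr rfl fun i _ => by rw [D.tw_iter, one_mul]
  rw [this, hu]

lemma full_rel_pow {M : Submodule ℤ L}
    (hM : Submodule.span ℤ {D.T} * M = pr D ^ (N + 2) * M) (i : ℕ) :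
    Submodule.span ℤ {D.T ^ i} * M = pr D ^ ((N + 2) * i) * M := by
  induction i with
  | zero => rw [pow_zero, mul_zero, pow_zero, one_mul, Pl.span_one_mul]
  | succ i ih =>
    have : pr D ^ ((N + 2) * (i + 1)) * M = pr D ^ ((N + 2) * i) * (pr D ^ (N + 2) * M) := by
      rw [← mul_assoc, ← pow_add]; congr 2
    rw [this, ← hM, mul_left_comm, ← ih, Pl.span_mul_span, pow_succ']

lemma nm_pn {u : L} (hu : (D.tw 1).nm u = D.T) (i : ℕ) : (D.tw 1).nm (pn D i u) = D.T ^ i := by
  induction i with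
  | zero =>
    unfold pn nm
    rw [Finset.prod_range_zero, pow_zero]
    exact Finset.prod_eq_one fun i _ => by rw [← RingHom.coe_pow, map_one]
  | succ i ih =>
    rw [pn_succ, nm_mul, hu, pow_succ D.T i]
    congr 1
    have : D.Φ (pn D i u) = (D.tw 1).S (pn D i u) := by rw [D.tw_S]; rfl
    rw [this, nm_S, ih]

variable {σ : F →+* F} (W : Tw D σ)

lemma nm_pow (x : L) (j : ℕ) : W.nm (x ^ j) = W.nm x ^ j := by
  induction j with
  | zero =>
    unfold nm
    simp only [pow_zero]
    exact Finset.prod_eq_one fun i _ => by rw [← RingHom.coe_pow, map_one]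
  | succ j ih => rw [pow_succ, pow_succ, nm_mul, ih]

lemma nm_T : W.nm D.T = D.T ^ (N + 2) := by
  unfold nm
  have : ∀ i : ℕ, W.S^[i] D.T = D.T := by
    intro i
    induction i with
    | zero => rfl
    | succ i ih => rw [Function.iterate_succ_apply', ih, W.ST]
  rw [Finset.prod_congr rfl fun i _ => this i, Finset.prod_const, Finset.card_range]

/-- The twisted relation for the product `M * M₁^j`. -/
lemma prod_rel {k i j : ℕ} (hk : Nat.Coprime k (N + 2)) (hkj : k * (1 + j) = 1 + (N + 2) * i)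
    {u u1 : L} {M M1 : Submodule ℤ L} (hu : (D.tw 1).nm u = D.T) (hu1 : (D.tw 1).nm u1 = D.T)
    (hM : Submodule.span ℤ {u} * (D.tw 1).mp M = pr D * M)
    (hM1 : Submodule.span ℤ {u1} * (D.tw 1).mp M1 = pr D * M1) :
    ∃ x : L, (D.tw k).nm x = D.T ∧
      Submodule.span ℤ {x} * (D.tw k).mp (M * M1 ^ j) = pr D * (M * M1 ^ j) := by
  have hT := D.T_ne
  refine ⟨(D.T ^ i)⁻¹ * (pn D k u * pn D k u1 ^ j), ?_, ?_⟩
  · rw [D.nm_tw k hk]
    have h1 : (D.tw 1).nm ((D.T ^ i)⁻¹ * (pn D k u * pn D k u1 ^ j)) * (D.tw 1).nm (D.T ^ i)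
        = (D.tw 1).nm (pn D k u * pn D k u1 ^ j) := by
      rw [← nm_mul]
      congr 1
      field_simp
    have h0 : (D.tw 1).nm (pn D k u * pn D k u1 ^ j) = D.T * D.T ^ ((N + 2) * i) := by
      rw [nm_mul, nm_pow, nm_pn hu, nm_pn hu1, ← pow_mul, ← pow_add,
        show k + k * j = 1 + (N + 2) * i by rw [← hkj]; ring, pow_add, pow_one]
    have h3 : (D.tw 1).nm (D.T ^ i) = D.T ^ ((N + 2) * i) := by
      rw [nm_pow, nm_T, ← pow_mul]
    rw [h0, h3] at h1
    exact mul_right_cancel₀ (pow_ne_zero _ hT) h1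
  · have r1 := iter_rel hM k
    have r2 := iter_rel hM1 k
    have r3 : Submodule.span ℤ {pn D k u * pn D k u1 ^ j} * (D.tw k).mp (M * M1 ^ j)
        = pr D ^ (k + k * j) * (M * M1 ^ j) := by
      have e1 : Submodule.span ℤ {pn D k u * pn D k u1 ^ j}
          = Submodule.span ℤ {pn D k u} * Submodule.span ℤ {pn D k u1} ^ j := by
        rw [Submodule.span_pow, Submodule.span_mul_span, Set.singleton_pow,
          Set.singleton_mul_singleton]
      rw [mp_mul, mp_pow, e1]
      calc _ = (Submodule.span ℤ {pn D k u} * (D.tw k).mp M)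
            * (Submodule.span ℤ {pn D k u1} * (D.tw k).mp M1) ^ j := by
              rw [mul_pow]; exact mul_mul_mul_comm _ _ _ _
        _ = _ := by
              rw [r1, r2, mul_pow, ← pow_mul, pow_add]; exact mul_mul_mul_comm _ _ _ _
    have r4 : Submodule.span ℤ {D.T} * (M * M1 ^ j) = pr D ^ (N + 2) * (M * M1 ^ j) := by
      rw [← mul_assoc, full_rel hu hM, mul_assoc]
    have r5 := full_rel_pow r4 i
    rw [show k + k * j = (N + 2) * i + 1 by rw [← add_comm 1, ← hkj]; ring, pow_add, pow_one,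
      mul_comm (pr D ^ ((N + 2) * i)), mul_assoc, ← r5] at r3
    rw [← Pl.span_mul_span, r3, mul_left_comm, Pl.span_mul_span, inv_mul_cancel₀
      (pow_ne_zero _ hT), Pl.span_one_mul]

end Tw

end Pool.Agent.H4
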