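import Mathlib
import Pool.Agent.H4.Inj

/-!
The injection between parameter sets with the same trace polynomial.
-/

namespace Pool.Agent.H4

open Polynomial

namespace Tw

variable {F L : Type*} [Field F] [Field L] {φ : F →+* F} {N : ℕ} {h : F[X]}
  {D : Pl F L φ N h}

/-- The lattice congruence `(T + 1) M ⊆ (t + 1) M`. -/
def Pc (D : Pl F L φ N h) (M : Submodule ℤ L) : Prop :=
  Submodule.span ℤ {D.T + 1} * M ≤ Submodule.span ℤ {D.t + 1} * M

lemma Pc_mul {M X : Submodule ℤ L} (hM : Pc D M) : Pc D (M * X) := by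
  unfold Pc
  rw [← mul_assoc, ← mul_assoc]
  exact mul_le_mul' hM le_rfl

lemma Pc_span {w : L} (hw : w ≠ 0) {M : Submodule ℤ L} :
    Pc D (Submodule.span ℤ {w} * M) ↔ Pc D M := by
  constructor
  · intro h1
    have h2 : Pc D ((Submodule.span ℤ {w} * M) * Submodule.span ℤ {w⁻¹}) := Pc_mul h1
    rwa [mul_comm, Pl.span_mul_span, inv_mul_cancel₀ hw, Pl.span_one_mul] at h2
  · intro h1
    rw [mul_comm]
    exact Pc_mul h1

/-- `Pc` for the standard lattice in terms of continuants at `1`. -/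
lemma Pc_iff [CharP F 2] {σ : F →+* F} (W : Tw D σ) {a : F} {u : L} (hs : W.Sol a u) :
    Pc D (D.Lt 1 u) ↔ (K σ a (N + 1)).eval 1 = 0 ∧ (K σ a (N + 2)).eval 1 = 1 := by
  obtain ⟨e1, e2, e3⟩ := W.link hs
  have h2 := two_L D
  have h2F : (2 : F[X]) = 0 := CharTwo.two_eq_zero
  have du := W.deg_of_nm hs.2
  have hu := W.ne_of_nm hs.2
  have odd1 : Odd (D.deg u) := by rw [du]; exact odd_one
  have hX1 : (X + 1 : F[X]) = X - C 1 := by rw [map_one]; linear_combination h2F
  have hevX : D.ev (X + 1) = D.t + 1 := by rw [map_add, D.ev_X, map_one]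
  constructor
  · intro hP
    have m1 : D.T + 1 ∈ Submodule.span ℤ {D.T + 1} * D.Lt 1 u :=
      Pl.mem_span_mul.mpr ⟨1, D.left_mem _ _, mul_one _⟩
    have m2 : (D.T + 1) * u ∈ Submodule.span ℤ {D.T + 1} * D.Lt 1 u :=
      Pl.mem_span_mul.mpr ⟨u, D.right_mem _ _, rfl⟩
    obtain ⟨x, ⟨α, β, hx⟩, hx2⟩ := Pl.mem_span_mul.mp (hP m1)
    obtain ⟨y, ⟨γ, δ, hy⟩, hy2⟩ := Pl.mem_span_mul.mp (hP m2)
    have k1 : D.ev (X * K σ (σ a) N + 1 - (X + 1) * α)
        + D.ev (K σ a (N + 1) - (X + 1) * β) * u = 0 := by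
      rw [map_sub, map_sub, map_add, map_mul, map_mul, map_mul, D.ev_X, map_one, hevX]
      rw [hx] at hx2
      linear_combination -e1 - hx2
    have k2 : D.ev (X * K σ (σ a) (N + 1) - (X + 1) * γ)
        + D.ev (K σ a (N + 2) + 1 - (X + 1) * δ) * u = 0 := by
      rw [map_sub, map_sub, map_add, map_mul, map_mul, map_mul, D.ev_X, map_one, hevX]
      rw [hy] at hy2
      linear_combination -e2 - hy2
    obtain ⟨_, l1⟩ := D.parity hu odd1 k1
    obtain ⟨_, l2⟩ := D.parity hu odd1 k2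
    constructor
    · have := congrArg (eval 1) l1
      simp only [eval_sub, eval_mul, eval_add, eval_X, eval_one, eval_zero] at this
      have h2' : (1 : F) + 1 = 0 := CharTwo.add_self_eq_zero 1
      rw [h2', zero_mul, sub_zero] at this
      exact this
    · have := congrArg (eval 1) l2
      simp only [eval_sub, eval_mul, eval_add, eval_X, eval_one, eval_zero] at this
      have h2' : (1 : F) + 1 = 0 := CharTwo.add_self_eq_zero 1
      rw [h2', zero_mul, sub_zero] at this
      linear_combination this - h2'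
  · rintro ⟨hr, hs1⟩
    have h2' : (1 : F) + 1 = 0 := CharTwo.add_self_eq_zero 1
    -- values at one
    have hq : (K σ (σ a) (N + 1)).eval 1 = 0 := by
      rw [← K_map, ← map_one σ, eval_map, eval₂_at_apply, hr, map_zero]
    have hp : (K σ (σ a) N).eval 1 = 1 := by
      have := congrArg (eval 1) (K_euler σ a N)
      simp only [eval_add, eval_mul, eval_pow, eval_X, one_pow, hr, hs1, zero_mul, one_mul,
        add_zero] at this
      exact this
    have dvd1 : ∀ P : F[X], P.eval 1 = 0 → ∃ Q, P = (X + 1) * Q := by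
      intro P hP
      rw [hX1]
      exact dvd_iff_isRoot.mpr hP
    obtain ⟨α, hα⟩ := dvd1 (X * K σ (σ a) N + 1) (by simp [hp, h2'])
    obtain ⟨β, hβ⟩ := dvd1 (K σ a (N + 1)) hr
    obtain ⟨γ, hγ⟩ := dvd1 (X * K σ (σ a) (N + 1)) (by simp [hq])
    obtain ⟨δ, hδ⟩ := dvd1 (K σ a (N + 2) + 1) (by simp [hs1, h2'])
    have f1 := congrArg D.ev hα
    have f2 := congrArg D.ev hβ
    have f3 := congrArg D.ev hγ
    have f4 := congrArg D.ev hδ
    simp only [map_add, map_mul, map_one, D.ev_X] at f1 f2 f3 f4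
    intro z hz
    obtain ⟨m, ⟨A, B, rfl⟩, rfl⟩ := Pl.mem_span_mul.mp hz
    refine Pl.mem_span_mul.mpr ⟨D.ev (A * α + B * γ) * 1 + D.ev (A * β + B * δ) * u,
      ⟨_, _, rfl⟩, ?_⟩
    simp only [map_add, map_mul, mul_one]
    linear_combination (-(D.ev A)) * f1 - (D.ev A * u) * f2 - (D.ev B) * f3
      - (D.ev B * u) * f4 - D.ev A * e1 - D.ev B * e2

end Tw

/-- Parameters with a given trace polynomial. -/
def Par {F : Type*} [Field F] (φ : F →+* F) (N k : ℕ) (h : F[X]) : Type _ :=
  {a : F // a ≠ 0 ∧ H (φ ^ k) N a = h}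

/-- The identity-monodromy condition at `t = 1`. -/
def IdM {F : Type*} [Field F] (φ : F →+* F) (N k : ℕ) (a : F) : Prop :=
  (K (φ ^ k) a (N + 1)).eval 1 = 0 ∧ (K (φ ^ k) a (N + 2)).eval 1 = 1

section
variable {F L : Type*} [Field F] [Field L] [CharP F 2] {φ : F →+* F} {N : ℕ} {h : F[X]}

/-- A solution `u` determines and is determined by the parameter. -/
lemma sol_eq {D : Pl F L φ N h} {σ : F →+* F} (W : Tw D σ) {a : F} (ha : a ≠ 0) {u v : L}
    (hu : W.Sol a u) (hv : W.Sol a v) : u = v := by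
  obtain ⟨e1, _, _⟩ := W.link hu
  obtain ⟨f1, _, _⟩ := W.link hv
  have hR := (D.deg_ev _ (Tw.K_ne σ ha (N + 1))).1
  have : D.ev (K σ a (N + 1)) * u = D.ev (K σ a (N + 1)) * v := by
    linear_combination f1 - e1
  exact mul_left_cancel₀ hR this

/-- Commutative-monoid lemma on regular elements. -/
lemma idem_of_inv {R : Type*} [CommMonoid R] {M V : R} (h1 : M * V * M = M) (j : ℕ) :
    (M * V) ^ j * M = M := by
  induction j with
  | zero => simp
  | succ j ih => rw [pow_succ, mul_assoc, h1, ih]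

lemma idem_idem {R : Type*} [CommMonoid R] {M V : R} (h1 : M * V * M = M) (j : ℕ) :
    (M * V) * (M * V) ^ j = M * V := by
  rw [mul_comm, ← mul_assoc, idem_of_inv h1]

theorem inj_h (D : Pl F L φ N h) (hN : Odd N) (hh0 : h ≠ 0) (k : ℕ)
    (hk : Nat.Coprime k (N + 2))
    (hsurjφ : Function.Surjective φ)
    (hd : ∀ d : F, d * φ d = 1 → d = 1)
    (hfix : ∀ x : L, D.Φ^[2 * k] x = x → D.Φ x = x)
    (hsurj : ∀ d : F, d ≠ 0 → ∃ c : F, c ≠ 0 ∧ c * d = φ^[2 * k] c) :
    ∃ g : Par φ N 1 h → Par φ N k h, Function.Injective g ∧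
      ∀ a, IdM φ N 1 a.1 ↔ IdM φ N k (g a).1 := by
  classical
  have hsurj1 : Function.Surjective (φ ^ 1 : F →+* F) := by rwa [pow_one]
  have hd1 : ∀ d : F, d * (φ ^ 1 : F →+* F) d = 1 → d = 1 := by
    intro d h1; rw [pow_one] at h1; exact hd d h1
  -- solutions and inverses
  have hu : ∀ a : Par φ N 1 h, ∃ u, (D.tw 1).Sol a.1 u := fun a =>
    (D.tw 1).exists_sol a.2.1 a.2.2.symm
  choose u hu using hu
  have hV : ∀ a : Par φ N 1 h, ∃ V : Submodule ℤ L,
      D.Lt 1 (u a) * V * D.Lt 1 (u a) = D.Lt 1 (u a) := fun a =>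
    (D.tw 1).exists_inv a.2.1 (hu a)
  choose V hV using hV
  set M : Par φ N 1 h → Submodule ℤ L := fun a => D.Lt 1 (u a) with hMdef
  set E : Par φ N 1 h → Submodule ℤ L := fun a => M a * V a with hEdef
  have hVM : ∀ a, M a * V a * M a = M a := hV
  -- representatives
  set rep : Par φ N 1 h → Par φ N 1 h := fun a =>
    Classical.choose (show ∃ b, E b = E a from ⟨a, rfl⟩) with hrep
  have rep_spec : ∀ a, E (rep a) = E a := fun a =>
    Classical.choose_spec (show ∃ b, E b = E a from ⟨a, rfl⟩)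
  have rep_eq : ∀ a b, E a = E b → rep a = rep b := by
    intro a b hab
    have : (fun x => E x = E a) = (fun x => E x = E b) := by rw [hab]
    simp only [hrep]
    congr 1
  -- exponent
  obtain ⟨i, j, hij⟩ : ∃ i j : ℕ, k * (1 + j) = 1 + (N + 2) * i := by
    obtain ⟨m, hm⟩ := Nat.exists_mul_mod_eq_one_of_coprime hk (by omega)
    have hm0 : 0 < m := by
      rcases Nat.eq_zero_or_pos m with h0 | h0
      · rw [h0] at hm; simp at hm
      · exact h0
    refine ⟨k * m / (N + 2), m - 1, ?_⟩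
    rw [show 1 + (m - 1) = m by omega]
    have := Nat.mod_add_div (k * m) (N + 2)
    omega
  -- the classification applied to the product
  have key : ∀ a : Par φ N 1 h, ∃ b : F, b ≠ 0 ∧ ∃ v : L, (D.tw k).Sol b v ∧ ∃ w : L, w ≠ 0 ∧
      M a * M (rep a) ^ j = Submodule.span ℤ {w} * D.Lt 1 v := by
    intro a
    have r1 := (D.tw 1).sol_rel hsurj1 a.2.1 (hu a)
    have r2 := (D.tw 1).sol_rel hsurj1 (rep a).2.1 (hu (rep a))
    obtain ⟨x, hx1, hx2⟩ := Tw.prod_rel (D := D) hk hij (hu a).2 (hu (rep a)).2 r1 r2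
    have hone : ∀ a, (1 : L) ∈ M a := fun a => D.left_mem _ _
    have honej : ∀ a, ∀ l : ℕ, (1 : L) ∈ M a ^ l := by
      intro a l
      have := Submodule.pow_mem_pow (M a) (hone a) l
      rwa [one_pow] at this
    have hone' : (1 : L) ∈ M a * M (rep a) ^ j := by
      have := Submodule.mul_mem_mul (hone a) (honej (rep a) j)
      rwa [one_mul] at this
    have hTM : ∀ a, ∀ z ∈ M a, D.T * z ∈ M a := by
      intro a z hz
      obtain ⟨α, β, rfl⟩ := hz
      obtain ⟨e1, e2, _⟩ := (D.tw 1).link (hu a)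
      refine ⟨α * (X * K (φ ^ 1) ((φ ^ 1 : F →+* F) a.1) N)
        + β * (X * K (φ ^ 1) ((φ ^ 1 : F →+* F) a.1) (N + 1)),
        α * K (φ ^ 1) a.1 (N + 1) + β * K (φ ^ 1) a.1 (N + 2), ?_⟩
      simp only [map_add, map_mul, D.ev_X, mul_one]
      linear_combination D.ev α * e1 + D.ev β * e2
    -- boundedness
    have hRT : D.Lt 1 D.T * D.Lt 1 D.T ≤ D.Lt 1 D.T := by
      refine D.Lt_mul_le (D.Lt_AS _ _) ?_ ?_ ?_ ?_
      · rw [one_mul]; exact D.left_mem _ _
      · rw [one_mul]; exact D.right_mem _ _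
      · rw [mul_one]; exact D.right_mem _ _
      · refine ⟨-X ^ (N + 2), -h, ?_⟩
        rw [map_neg, map_neg, map_pow, D.ev_X]
        linear_combination D.eqn'
    have hRa : ∀ a, Submodule.span ℤ {D.ev (K (φ ^ 1) a.1 (N + 1))} * M a ≤ D.Lt 1 D.T := by
      intro a
      obtain ⟨e1, e2, _⟩ := (D.tw 1).link (hu a)
      rw [hMdef]
      simp only
      rw [D.span_mul_Lt, mul_one]
      refine D.Lt_le (D.Lt_AS _ _) ?_ ?_
      · have := D.Lt_AS 1 D.T (K (φ ^ 1) a.1 (N + 1)) _ (D.left_mem _ _)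
        rwa [mul_one] at this
      · refine ⟨-(X * K (φ ^ 1) ((φ ^ 1 : F →+* F) a.1) N), 1, ?_⟩
        rw [map_neg, map_mul, D.ev_X, map_one]
        linear_combination -e1
    have hRj : ∀ a, ∀ l : ℕ, Submodule.span ℤ {D.ev (K (φ ^ 1) a.1 (N + 1)) ^ l} * M a ^ l
        ≤ D.Lt 1 D.T := by
      intro a l
      induction l with
      | zero =>
        rw [pow_zero, pow_zero, mul_one, Submodule.span_le, Set.singleton_subset_iff]
        exact D.left_mem _ _
      | succ l ih =>
        have : Submodule.span ℤ {D.ev (K (φ ^ 1) a.1 (N + 1)) ^ (l + 1)} * M a ^ (l + 1)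
            = (Submodule.span ℤ {D.ev (K (φ ^ 1) a.1 (N + 1)) ^ l} * M a ^ l)
              * (Submodule.span ℤ {D.ev (K (φ ^ 1) a.1 (N + 1))} * M a) := by
          rw [pow_succ (D.ev _) l, pow_succ (M a) l, ← Set.singleton_mul_singleton,
            ← Submodule.span_mul_span]
          exact mul_mul_mul_comm _ _ _ _
        rw [this]
        exact (mul_le_mul' ih (hRa a)).trans hRT
    set r := D.ev (K (φ ^ 1) a.1 (N + 1)) * D.ev (K (φ ^ 1) (rep a).1 (N + 1)) ^ j with hr
    have hr0 : r ≠ 0 := mul_ne_zero (D.deg_ev _ (Tw.K_ne _ a.2.1 _)).1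
      (pow_ne_zero _ (D.deg_ev _ (Tw.K_ne _ (rep a).2.1 _)).1)
    have hRM : Submodule.span ℤ {r} * (M a * M (rep a) ^ j) ≤ D.Lt 1 D.T := by
      have : Submodule.span ℤ {r} * (M a * M (rep a) ^ j)
          = (Submodule.span ℤ {D.ev (K (φ ^ 1) a.1 (N + 1))} * M a)
            * (Submodule.span ℤ {D.ev (K (φ ^ 1) (rep a).1 (N + 1)) ^ j} * M (rep a) ^ j) := by
        rw [hr, ← Set.singleton_mul_singleton, ← Submodule.span_mul_span]
        exact mul_mul_mul_comm _ _ _ _
      rw [this]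
      exact (mul_le_mul' (hRa a) (hRj (rep a) j)).trans hRT
    refine (D.tw k).classify hh0 ?_ ?_ (M a * M (rep a) ^ j) (D.mul_AS (D.Lt_AS _ _)) ?_
      ⟨1, hone', one_ne_zero⟩ (-(D.deg r)) ?_ x hx1 hx2
    · intro y hy
      rw [D.tw_S, D.tw_S, ← Function.iterate_add_apply] at hy
      have hy' := hfix y (by rw [two_mul]; exact hy)
      rw [D.tw_S]
      have : ∀ l : ℕ, D.Φ^[l] y = y := by
        intro l
        induction l with
        | zero => rfl
        | succ l ih => rw [Function.iterate_succ_apply', ih, hy']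
      exact this k
    · intro d hd0
      obtain ⟨c, hc, hcd⟩ := hsurj d hd0
      refine ⟨c, hc, ?_⟩
      rw [hcd, RingHom.coe_pow, ← Function.iterate_add_apply, two_mul]
    · intro z hz
      have : D.T * z ∈ Submodule.span ℤ {D.T} * (M a * M (rep a) ^ j) :=
        Pl.mem_span_mul.mpr ⟨z, hz, rfl⟩
      rw [← mul_assoc] at this
      have hle : Submodule.span ℤ {D.T} * M a ≤ M a := by
        intro y hy
        obtain ⟨m, hm, rfl⟩ := Pl.mem_span_mul.mp hy
        exact hTM a m hm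
      have hle2 : Submodule.span ℤ {D.T} * M a * M (rep a) ^ j ≤ M a * M (rep a) ^ j :=
        mul_le_mul' hle le_rfl
      exact hle2 this
    · intro z hz hz0
      have h1 : r * z ∈ D.Lt 1 D.T := hRM (Pl.mem_span_mul.mpr ⟨z, hz, rfl⟩)
      obtain ⟨α, β, hαβ⟩ := h1
      rw [mul_one] at hαβ
      have hne : D.ev α + D.ev β * D.T ≠ 0 := by
        rw [← hαβ]; exact mul_ne_zero hr0 hz0
      have hoddT : Odd (D.deg D.T) := by
        rw [D.deg_T]
        obtain ⟨s, hs⟩ := hN
        exact ⟨s + 1, by rw [hs]; push_cast; ring⟩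
      have := (D.deg_lin D.T_ne hoddT (by rw [D.deg_T]; positivity) hne).1
      rw [← hαβ, D.deg_mul _ _ hr0 hz0] at this
      linarith
  choose b hb v hv w hw hM using key
  have hbh : ∀ a, H (φ ^ k) N (b a) = h := fun a => ((D.tw k).link (hv a)).2.2.symm
  refine ⟨fun a => ⟨b a, hb a, hbh a⟩, ?_, ?_⟩
  · intro a a' haa
    have hbb : b a = b a' := congrArg Subtype.val haa
    have hvv : v a = v a' := by
      refine sol_eq (D.tw k) (hb a) (hv a) ?_
      rw [hbb]; exact hv a'
    -- the idempotents agree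
    set P := M a * M (rep a) ^ j with hP
    set P' := M a' * M (rep a') ^ j with hP'
    have hPP : P' = Submodule.span ℤ {w a' * (w a)⁻¹} * P := by
      have f1 : P' = Submodule.span ℤ {w a'} * D.Lt 1 (v a') := hM a'
      have f2 : P = Submodule.span ℤ {w a} * D.Lt 1 (v a) := hM a
      rw [f1, f2, hvv, Pl.span_mul_span, mul_assoc, inv_mul_cancel₀ (hw a), mul_one]
    have hPN : P * (V a * V (rep a) ^ j) = E a := by
      have : P * (V a * V (rep a) ^ j) = (M a * V a) * (M (rep a) * V (rep a)) ^ j := by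
        rw [hP, mul_pow]; exact mul_mul_mul_comm _ _ _ _
      rw [this]
      change E a * E (rep a) ^ j = E a
      rw [rep_spec]
      exact idem_idem (hVM a) j
    have hPN' : P' * (V a' * V (rep a') ^ j) = E a' := by
      have : P' * (V a' * V (rep a') ^ j) = (M a' * V a') * (M (rep a') * V (rep a')) ^ j := by
        rw [hP', mul_pow]; exact mul_mul_mul_comm _ _ _ _
      rw [this]
      change E a' * E (rep a') ^ j = E a'
      rw [rep_spec]
      exact idem_idem (hVM a') j
    have hEP : E a * P = P := by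
      rw [hP, ← mul_assoc]
      change M a * V a * M a * _ = _
      rw [hVM]
    have hEP' : E a' * P' = P' := by
      rw [hP', ← mul_assoc]
      change M a' * V a' * M a' * _ = _
      rw [hVM]
    have hs : w a' * (w a)⁻¹ ≠ 0 := mul_ne_zero (hw a') (inv_ne_zero (hw a))
    have hPP2 : P = Submodule.span ℤ {(w a' * (w a)⁻¹)⁻¹} * P' := by
      rw [hPP, Pl.span_mul_span, inv_mul_cancel₀ hs, Pl.span_one_mul]
    have hEE : E a = E a' := by
      have f1 : E a' * E a = E a := by
        rw [← hPN, ← mul_assoc]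
        congr 1
        rw [hPP2, mul_left_comm, hEP']
      have f2 : E a * E a' = E a' := by
        rw [← hPN', ← mul_assoc]
        congr 1
        rw [hPP, mul_left_comm, hEP]
      rw [← f1, mul_comm, f2]
    have hrr := rep_eq a a' hEE
    have hMM : M a = Submodule.span ℤ {(w a' * (w a)⁻¹)⁻¹} * M a' := by
      have f1 : P * V (rep a) ^ j = M a := by
        have : P * V (rep a) ^ j = M a * (M (rep a) * V (rep a)) ^ j := by
          rw [hP, mul_assoc, mul_pow]
        rw [this]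
        change M a * E (rep a) ^ j = M a
        rw [rep_spec, mul_comm]
        exact idem_of_inv (hVM a) j
      have f2 : P' * V (rep a) ^ j = M a' := by
        have : P' * V (rep a) ^ j = M a' * (M (rep a') * V (rep a')) ^ j := by
          rw [hP', hrr, mul_assoc, mul_pow]
        rw [this]
        change M a' * E (rep a') ^ j = M a'
        rw [rep_spec, mul_comm]
        exact idem_of_inv (hVM a') j
      rw [← f1, hPP2, mul_assoc, f2]
    have := (D.tw 1).sol_unique hsurj1 hd1 a.2.1 a'.2.1 (hu a) (hu a') (inv_ne_zero hs) hMM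
    exact Subtype.ext this
  · intro a
    have h1 := Tw.Pc_iff (D.tw 1) (hu a)
    have h2 := Tw.Pc_iff (D.tw k) (hv a)
    unfold IdM
    rw [← h1]
    change _ ↔ (K (φ ^ k) (b a) (N + 1)).eval 1 = 0 ∧ (K (φ ^ k) (b a) (N + 2)).eval 1 = 1
    rw [← h2, ← Tw.Pc_span (hw a) (M := D.Lt 1 (v a)), ← hM a]
    constructor
    · intro h3
      exact Tw.Pc_mul h3
    · intro h3
      have h4 := Tw.Pc_mul (X := V (rep a) ^ j) h3
      have f1 : M a * M (rep a) ^ j * V (rep a) ^ j = M a := by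
        rw [mul_assoc, ← mul_pow]
        change M a * E (rep a) ^ j = M a
        rw [rep_spec, mul_comm]
        exact idem_of_inv (hVM a) j
      rwa [f1] at h4

end

end Pool.Agent.H4
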