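import Mathlib
import Pool.Agent.H4.Main

/-!
The concrete place: Laurent series over a finite field of characteristic two.
-/

namespace Pool.Agent.H4

open Polynomial

/-- Hensel: a power series root. -/
lemma exists_root (m : ℕ) (h0 : (ZMod 2)[X]) : ∃ z : PowerSeries (ZMod 2),
    PowerSeries.constantCoeff z = 1 ∧
    z ^ (m + 1) + z ^ m + ∑ i ∈ Finset.range (m + 1),
      PowerSeries.C (h0.coeff i) * PowerSeries.X ^ (2 * m + 1 - 2 * i) * z ^ i = 0 := by
  set R := PowerSeries (ZMod 2) with hR
  set I : Ideal R := Ideal.span {(PowerSeries.X : R)} with hI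
  have htwo : (2 : R) = 0 := by
    have : (2 : ZMod 2) = 0 := rfl
    have h1 := congrArg (PowerSeries.C (R := ZMod 2)) this
    rwa [map_ofNat, map_zero] at h1
  set c : ℕ → R := fun i => PowerSeries.C (h0.coeff i) * PowerSeries.X ^ (2 * m + 1 - 2 * i)
    with hc
  have hcI : ∀ i ∈ Finset.range (m + 1), c i ∈ I := by
    intro i hi
    rw [Finset.mem_range] at hi
    obtain ⟨e, he⟩ : ∃ e, 2 * m + 1 - 2 * i = e + 1 := ⟨2 * m - 2 * i, by omega⟩
    simp only [hc, he, pow_succ, ← mul_assoc]
    exact Ideal.mul_mem_left _ _ (Ideal.mem_span_singleton_self _)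
  set p : R[X] := X ^ m + ∑ i ∈ Finset.range (m + 1), C (c i) * X ^ i with hp
  have hpdeg : p.degree < (m + 1 : ℕ) := by
    refine lt_of_le_of_lt (degree_add_le _ _) (max_lt ?_ ?_)
    · exact lt_of_le_of_lt (degree_X_pow_le m) (by exact_mod_cast Nat.lt_succ_self m)
    · refine lt_of_le_of_lt (degree_sum_le _ _) ?_
      rw [Finset.sup_lt_iff (by exact_mod_cast WithBot.bot_lt_coe (m + 1))]
      intro i hi
      rw [Finset.mem_range] at hi
      exact lt_of_le_of_lt (degree_C_mul_X_pow_le i _) (by exact_mod_cast hi)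
  have hmonic : (X ^ (m + 1) + p).Monic := monic_X_pow_add hpdeg
  have hens : HenselianRing R I := inferInstance
  have heval : (X ^ (m + 1) + p).eval 1 ∈ I := by
    rw [hp]
    simp only [eval_add, eval_pow, eval_X, one_pow, eval_finsetSum, eval_mul, eval_C, mul_one]
    have : (1 : R) + (1 + ∑ i ∈ Finset.range (m + 1), c i)
        = ∑ i ∈ Finset.range (m + 1), c i := by linear_combination htwo
    rw [this]
    exact Ideal.sum_mem _ hcI
  have hder : IsUnit (Ideal.Quotient.mk I ((X ^ (m + 1) + p).derivative.eval 1)) := by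
    have h1 : (X ^ (m + 1) + p).derivative.eval 1 - 1 ∈ I := by
      rw [hp]
      simp only [derivative_add, derivative_X_pow, derivative_sum, derivative_C_mul_X_pow,
        eval_add, eval_mul, eval_C, eval_pow, eval_X, one_pow, mul_one, eval_finsetSum]
      have : ((m + 1 : ℕ) : R) + ((m : R) + ∑ i ∈ Finset.range (m + 1), c i * (i : R)) - 1
          = ∑ i ∈ Finset.range (m + 1), c i * (i : R) := by
        push_cast
        linear_combination (m : R) * htwo
      rw [this]
      exact Ideal.sum_mem _ fun i hi => Ideal.mul_mem_right _ _ (hcI i hi)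
    have h2 : Ideal.Quotient.mk I ((X ^ (m + 1) + p).derivative.eval 1) = 1 := by
      rw [← map_one (Ideal.Quotient.mk I)]
      exact Ideal.Quotient.eq.mpr h1
    rw [h2]
    exact isUnit_one
  obtain ⟨z, hz, hz1⟩ := hens.is_henselian _ hmonic 1 heval hder
  refine ⟨z, ?_, ?_⟩
  · rw [hI, Ideal.mem_span_singleton] at hz1
    obtain ⟨w, hw⟩ := hz1
    have := congrArg (PowerSeries.constantCoeff (R := ZMod 2)) hw
    rw [map_sub, map_mul, PowerSeries.constantCoeff_X, zero_mul, map_one, sub_eq_zero] at this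
    exact this
  · have : (X ^ (m + 1) + p).eval z = 0 := hz
    rw [hp] at this
    simp only [eval_add, eval_pow, eval_X, eval_finsetSum, eval_mul, eval_C] at this
    rw [add_assoc]
    exact this

section
variable (F : Type*) [Field F] [CharP F 2]

/-- The coefficientwise Frobenius. -/
noncomputable def PhiL : LaurentSeries F →+* LaurentSeries F where
  toFun x := x.map (frobenius F 2)
  map_zero' := by ext; simp
  map_one' := by
    ext g
    simp only [HahnSeries.map_coeff, HahnSeries.coeff_one]
    split_ifs <;> simp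
  map_add' x y := by ext g; simp [frobenius_def, CharTwo.add_sq]
  map_mul' x y := HahnSeries.map_mul (frobenius F 2 : F →ₙ+* F)

lemma PhiL_coeff (x : LaurentSeries F) (g : ℤ) : (PhiL F x).coeff g = (x.coeff g) ^ 2 := by
  change frobenius F 2 (x.coeff g) = _
  rw [frobenius_def]

lemma PhiL_iter (j : ℕ) (x : LaurentSeries F) (g : ℤ) :
    ((PhiL F)^[j] x).coeff g = (x.coeff g) ^ (2 ^ j) := by
  induction j with
  | zero => simp
  | succ j ih => rw [Function.iterate_succ_apply', PhiL_coeff, ih, ← pow_mul, ← pow_succ]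

lemma order_PhiL (x : LaurentSeries F) : (PhiL F x).order = x.order := by
  by_cases hx : x = 0
  · subst hx; simp
  have h1 : PhiL F x ≠ 0 := by rwa [Ne, map_eq_zero]
  apply le_antisymm
  · apply HahnSeries.order_le_of_coeff_ne_zero
    rw [PhiL_coeff]
    exact pow_ne_zero _ (by rwa [Ne, HahnSeries.coeff_order_eq_zero])
  · apply HahnSeries.order_le_of_coeff_ne_zero
    intro h2
    have h3 : (PhiL F x).coeff (PhiL F x).order = 0 := by rw [PhiL_coeff, h2]; simp
    rw [HahnSeries.coeff_order_eq_zero] at h3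
    exact h1 h3

/-- The embedding of power series over `ZMod 2`. -/
noncomputable def rho : PowerSeries (ZMod 2) →+* LaurentSeries F :=
  (HahnSeries.ofPowerSeries ℤ F).comp (PowerSeries.map (ZMod.castHom (dvd_refl 2) F))

lemma PhiL_rho (z : PowerSeries (ZMod 2)) : PhiL F (rho F z) = rho F z := by
  ext g
  rw [PhiL_coeff]
  rcases lt_or_ge g 0 with hg | hg
  · have : (rho F z).coeff g = 0 := by
      unfold rho
      rw [RingHom.comp_apply, HahnSeries.ofPowerSeries_apply]
      apply HahnSeries.embDomain_of_notMem_range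
      rintro ⟨j, hj⟩
      simp at hj
      omega
    rw [this]; simp
  · obtain ⟨j, rfl⟩ := Int.eq_ofNat_of_zero_le hg
    have : (rho F z).coeff (j : ℤ) = ZMod.castHom (dvd_refl 2) F (PowerSeries.coeff j z) := by
      unfold rho
      rw [RingHom.comp_apply]
      have h1 := HahnSeries.ofPowerSeries_apply_coeff (Γ := ℤ)
        (PowerSeries.map (ZMod.castHom (dvd_refl 2) F) z) j
      rw [PowerSeries.coeff_map] at h1
      exact h1
    rw [this, ← map_pow]
    congr 1
    generalize PowerSeries.coeff j z = q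
    fin_cases q <;> rfl

lemma PhiL_C (c : F) : PhiL F (HahnSeries.C c) = HahnSeries.C (frobenius F 2 c) := by
  ext g
  rw [PhiL_coeff, HahnSeries.C_apply, HahnSeries.C_apply, HahnSeries.coeff_single,
    HahnSeries.coeff_single, frobenius_def]
  split_ifs <;> simp

lemma PhiL_single (g : ℤ) : PhiL F (HahnSeries.single g 1) = HahnSeries.single g 1 := by
  ext g'
  rw [PhiL_coeff, HahnSeries.coeff_single]
  split_ifs <;> simp

lemma deg_add_aux (x y : LaurentSeries F) (hx : x ≠ 0) (hy : y ≠ 0)
    (hlt : -x.order < -y.order) : x + y ≠ 0 ∧ -(x + y).order = -y.order := by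
  have hlt' : y.order < x.order := by linarith
  have h1 : (x + y).coeff y.order ≠ 0 := by
    rw [HahnSeries.coeff_add, HahnSeries.coeff_eq_zero_of_lt_order hlt', zero_add]
    rwa [Ne, HahnSeries.coeff_order_eq_zero]
  have h2 : x + y ≠ 0 := by
    intro h0
    rw [h0] at h1
    simp at h1
  refine ⟨h2, ?_⟩
  have h3 := HahnSeries.order_le_of_coeff_ne_zero h1
  have h4 := HahnSeries.min_order_le_order_add h2
  rw [min_eq_right hlt'.le] at h4
  linarith

lemma deg_red_aux (x y : LaurentSeries F) (hx : x ≠ 0) (hy : y ≠ 0)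
    (heq : -x.order = -y.order) : ∃ c : F, c ≠ 0 ∧ (x = HahnSeries.C c * y ∨
      (x - HahnSeries.C c * y ≠ 0 ∧ -(x - HahnSeries.C c * y).order < -x.order)) := by
  have heq' : x.order = y.order := by linarith
  have hx' : x.coeff x.order ≠ 0 := by rwa [Ne, HahnSeries.coeff_order_eq_zero]
  have hy' : y.coeff y.order ≠ 0 := by rwa [Ne, HahnSeries.coeff_order_eq_zero]
  refine ⟨x.coeff x.order / y.coeff y.order, div_ne_zero hx' hy', ?_⟩
  set c := x.coeff x.order / y.coeff y.order with hc
  by_cases h0 : x - HahnSeries.C c * y = 0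
  · left; exact sub_eq_zero.mp h0
  · right
    refine ⟨h0, ?_⟩
    have h1 : ∀ g, g ≤ x.order → (x - HahnSeries.C c * y).coeff g = 0 := by
      intro g hg
      rw [HahnSeries.coeff_sub, HahnSeries.C_mul_eq_smul, HahnSeries.coeff_smul]
      rcases lt_or_eq_of_le hg with h2 | h2
      · rw [HahnSeries.coeff_eq_zero_of_lt_order h2,
          HahnSeries.coeff_eq_zero_of_lt_order (heq' ▸ h2)]
        simp
      · rw [h2, smul_eq_mul, hc]
        conv_lhs => rw [heq'] 
        field_simp
        simp
    have h2 : x.order < (x - HahnSeries.C c * y).order := by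
      by_contra h3
      have := h1 _ (not_lt.mp h3)
      rw [HahnSeries.coeff_order_eq_zero] at this
      exact h0 this
    linarith

theorem exists_place (m N : ℕ) (hN : N + 2 = 2 * m + 1) (h0 : (ZMod 2)[X])
    (hdeg : h0.natDegree ≤ m) (hcard : ∀ c : F, c ^ (2 ^ (N + 2)) = c) :
    Nonempty (Pl F (LaurentSeries F) (frobenius F 2) N
      (h0.map (ZMod.castHom (dvd_refl 2) F))) := by
  obtain ⟨z, hz1, hz⟩ := exists_root m h0
  have htwo : (2 : LaurentSeries F) = 0 := by
    have : (2 : F) = 0 := CharTwo.two_eq_zero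
    have h1 := congrArg (HahnSeries.C (Γ := ℤ)) this
    rwa [map_ofNat, map_zero] at h1
  set s : LaurentSeries F := HahnSeries.single (-1 : ℤ) 1 with hs
  set τ : LaurentSeries F := rho F z with hτ
  have hs0 : s ≠ 0 := by rw [hs, Ne, HahnSeries.single_eq_zero_iff]; exact one_ne_zero
  have hτc : τ.coeff 0 = 1 := by
    rw [hτ]
    unfold rho
    rw [RingHom.comp_apply]
    have h1 := HahnSeries.ofPowerSeries_apply_coeff (Γ := ℤ)
        (PowerSeries.map (ZMod.castHom (dvd_refl 2) F) z) 0
    rw [PowerSeries.coeff_map, PowerSeries.coeff_zero_eq_constantCoeff_apply, hz1, map_one] at h1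
    exact_mod_cast h1
  have hτneg : ∀ g < (0 : ℤ), τ.coeff g = 0 := by
    intro g hg
    rw [hτ]
    unfold rho
    rw [RingHom.comp_apply, HahnSeries.ofPowerSeries_apply]
    apply HahnSeries.embDomain_of_notMem_range
    rintro ⟨j, hj⟩
    simp at hj
    omega
  have hτ0 : τ ≠ 0 := by rintro h1; rw [h1] at hτc; simp at hτc
  have hτord : τ.order = 0 := by
    apply le_antisymm
    · apply HahnSeries.order_le_of_coeff_ne_zero
      rw [hτc]; exact one_ne_zero
    · by_contra h1
      have := hτneg _ (not_le.mp h1)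
      rw [HahnSeries.coeff_order_eq_zero] at this
      exact hτ0 this
  have hsord : s.order = -1 := HahnSeries.order_single one_ne_zero
  set t : LaurentSeries F := s ^ 2 * τ with ht
  have ht0 : t ≠ 0 := mul_ne_zero (pow_ne_zero _ hs0) hτ0
  have htord : t.order = -2 := by
    rw [ht, HahnSeries.order_mul (pow_ne_zero _ hs0) hτ0, HahnSeries.order_pow, hτord, hsord]
    norm_num
  have hst0 : s * t ^ m ≠ 0 := mul_ne_zero hs0 (pow_ne_zero _ ht0)
  have hTord : (s * t ^ m).order = -(N + 2 : ℤ) := by
    rw [HahnSeries.order_mul hs0 (pow_ne_zero _ ht0), HahnSeries.order_pow, htord, hsord]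
    have : (N : ℤ) + 2 = 2 * m + 1 := by exact_mod_cast hN
    rw [this, nsmul_eq_mul]
    ring
  have hΦs : PhiL F s = s := PhiL_single F _
  have hΦt : PhiL F t = t := by rw [ht, map_mul, map_pow, hΦs, PhiL_rho]
  refine ⟨{
    ι := HahnSeries.C
    Φ := PhiL F
    deg := fun x => -x.order
    t := t
    T := s * t ^ m
    Φι := PhiL_C F
    Φt := hΦt
    ΦT := by rw [map_mul, map_pow, hΦs, hΦt]
    Φn := ?_
    deg_mul := ?_
    deg_add := deg_add_aux F
    deg_red := deg_red_aux F
    deg_ι := ?_
    deg_Φ := ?_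
    t_ne := ht0
    T_ne := hst0
    deg_t := by rw [htord]; norm_num
    deg_T := by rw [hTord]; ring
    eqn := ?_ }⟩
  · intro x
    ext g
    rw [PhiL_iter, hcard]
  · intro x y hx hy
    rw [HahnSeries.order_mul hx hy]; ring
  · intro c hc
    rw [HahnSeries.order_C]; norm_num
  · intro x
    rw [order_PhiL]
  · -- the equation
    have h1 := congrArg (rho F) hz
    rw [map_zero, map_add, map_add, map_pow, map_pow, map_sum, ← hτ] at h1
    have hpi : ∀ e : ℕ, rho F (PowerSeries.X ^ e) = HahnSeries.single (e : ℤ) 1 := by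
      intro e
      unfold rho
      rw [RingHom.comp_apply, map_pow, PowerSeries.map_X, HahnSeries.ofPowerSeries_X_pow]
    have hrC : ∀ c : ZMod 2, rho F (PowerSeries.C c)
        = HahnSeries.C (ZMod.castHom (dvd_refl 2) F c) := by
      intro c
      unfold rho
      rw [RingHom.comp_apply, PowerSeries.map_C, HahnSeries.ofPowerSeries_C]
    have hspow : ∀ e : ℕ, s ^ e = HahnSeries.single (-(e : ℤ)) 1 := by
      intro e
      rw [hs, HahnSeries.single_pow, one_pow]
      congr 1
      rw [nsmul_eq_mul]; ring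
    have hev : (h0.map (ZMod.castHom (dvd_refl 2) F)).eval₂ HahnSeries.C t
        = ∑ i ∈ Finset.range (m + 1),
          HahnSeries.C (ZMod.castHom (dvd_refl 2) F (h0.coeff i)) * t ^ i := by
      rw [eval₂_map, eval₂_eq_sum_range' _ (Nat.lt_succ_of_le hdeg)]
      rfl
    have hterm : ∀ i ∈ Finset.range (m + 1), s ^ (2 * m + 2) * rho F (PowerSeries.C (h0.coeff i)
        * PowerSeries.X ^ (2 * m + 1 - 2 * i) * z ^ i)
        = s * (HahnSeries.C (ZMod.castHom (dvd_refl 2) F (h0.coeff i)) * t ^ i) := by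
      intro i hi
      rw [Finset.mem_range] at hi
      rw [map_mul, map_mul, hpi, hrC, map_pow, ← hτ, ht]
      have hsx : s ^ (2 * m + 2) * HahnSeries.single ((2 * m + 1 - 2 * i : ℕ) : ℤ) 1
          = s ^ (2 * i + 1) := by
        rw [hspow, hspow, HahnSeries.single_mul_single, mul_one]
        congr 1
        push_cast [Nat.cast_sub (show 2 * i ≤ 2 * m + 1 by omega)]
        ring
      have : s ^ (2 * m + 2) * (HahnSeries.C (ZMod.castHom (dvd_refl 2) F (h0.coeff i))
          * HahnSeries.single ((2 * m + 1 - 2 * i : ℕ) : ℤ) 1 * τ ^ i)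
          = HahnSeries.C (ZMod.castHom (dvd_refl 2) F (h0.coeff i)) * (s ^ (2 * m + 2)
          * HahnSeries.single ((2 * m + 1 - 2 * i : ℕ) : ℤ) 1) * τ ^ i := by ring
      rw [this, hsx]
      ring
    have h2 : s ^ (2 * m + 2) * (τ ^ (m + 1) + τ ^ m + ∑ i ∈ Finset.range (m + 1),
        rho F (PowerSeries.C (h0.coeff i) * PowerSeries.X ^ (2 * m + 1 - 2 * i) * z ^ i)) = 0 := by
      rw [h1, mul_zero]
    rw [mul_add, mul_add, Finset.mul_sum, Finset.sum_congr rfl hterm, ← Finset.mul_sum,
      ← hev] at h2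
    have e1 : s ^ (2 * m + 2) * τ ^ (m + 1) = t ^ (m + 1) := by rw [ht]; ring
    have e2 : s ^ (2 * m + 2) * τ ^ m = s ^ 2 * t ^ m := by rw [ht]; ring
    rw [e1, e2] at h2
    rw [hN]
    generalize (h0.map (ZMod.castHom (dvd_refl 2) F)).eval₂ HahnSeries.C t = q at h2 ⊢
    linear_combination (t ^ m) * h2

end

end Pool.Agent.H4
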