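import Mathlib
import Pool.Agent.H4.Conc

/-!
The permutation of the nonzero elements of a finite field of order `2^n`, `n` odd, transporting
the trace polynomial for the Frobenius to the one for its `k`-th power.
-/

namespace Pool.Agent.H4

open Polynomial

/-- Product over a complete residue system. -/
lemma prod_perm {M : Type*} [CommMonoid M] {n k : ℕ} (hn : 0 < n) (hk : Nat.Coprime k n)
    (f : ℕ → M) (hf : ∀ m, f (m % n) = f m) :
    ∏ i ∈ Finset.range n, f (k * i) = ∏ i ∈ Finset.range n, f i := by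
  have hinj : Set.InjOn (fun i => k * i % n) (Finset.range n : Finset ℕ) := by
    intro x hx y hy hxy
    simp only [Finset.coe_range, Set.mem_Iio] at hx hy
    have h1 : k * x ≡ k * y [MOD n] := hxy
    have h2 := Nat.ModEq.cancel_left_of_coprime hk.symm h1
    exact Nat.ModEq.eq_of_lt_of_lt h2 hx hy
  refine Finset.prod_nbij (fun i => k * i % n) ?_ hinj ?_ ?_
  · intro i _
    rw [Finset.mem_range]
    exact Nat.mod_lt _ hn
  · apply Finset.surjOn_of_injOn_of_card_le _ _ hinj le_rfl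
    intro i _
    simp only [Finset.coe_range, Set.mem_Iio]
    exact Nat.mod_lt _ hn
  · intro i _
    rw [hf]

/-- Sum over a complete residue system. -/
lemma sum_perm {M : Type*} [AddCommMonoid M] {n k : ℕ} (hn : 0 < n) (hk : Nat.Coprime k n)
    (f : ℕ → M) (hf : ∀ m, f (m % n) = f m) :
    ∑ i ∈ Finset.range n, f (k * i) = ∑ i ∈ Finset.range n, f i := by
  have := prod_perm (M := Multiplicative M) hn hk (fun i => Multiplicative.ofAdd (f i))
    (fun m => by rw [hf])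
  rw [← ofAdd_sum, ← ofAdd_sum] at this
  exact Multiplicative.ofAdd.injective this

section
variable (F : Type*) [Field F] [Fintype F] [CharP F 2]

lemma frob_pow_apply (k : ℕ) (x : F) : (frobenius F 2 ^ k : F →+* F) x = x ^ (2 ^ k) := by
  rw [RingHom.coe_pow]
  exact iterate_frobenius 2 k x

variable {F}

lemma pow_two_mod {n : ℕ} (hcard : ∀ c : F, c ^ (2 ^ n) = c) (c : F) (m : ℕ) :
    c ^ (2 ^ (m % n)) = c ^ (2 ^ m) := by
  have hper : Function.IsPeriodicPt (frobenius F 2) n c := by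
    change (frobenius F 2)^[n] c = c
    rw [iterate_frobenius, hcard]
  have := hper.iterate_mod_apply m
  rw [iterate_frobenius, iterate_frobenius] at this
  exact this

lemma cube_eq_one {n : ℕ} (hn : Odd n) (hcard : ∀ c : F, c ^ (2 ^ n) = c) (d : F)
    (hd : d * d ^ 2 = 1) : d = 1 := by
  have h3 : d ^ 3 = 1 := by rw [← hd]; ring
  have hd0 : d ≠ 0 := by rintro rfl; simp at hd
  have h1 : d ^ (2 ^ n) = d := hcard d
  have h2 : 2 ^ n % 3 = 2 := by
    obtain ⟨m, rfl⟩ := hn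
    rw [pow_succ, pow_mul, Nat.mul_mod, Nat.pow_mod]
    norm_num
  obtain ⟨q, hq⟩ : ∃ q, 2 ^ n = 3 * q + 2 := ⟨2 ^ n / 3, by omega⟩
  rw [hq, pow_add, pow_mul, h3, one_pow, one_mul] at h1
  have : d * (d - 1) = 0 := by linear_combination h1
  rcases mul_eq_zero.mp this with h | h
  · exact absurd h hd0
  · linear_combination h

lemma exists_root_pow {n k : ℕ} (hn0 : 0 < n) (hk : Nat.Coprime (2 * k) n)
    (hF : Fintype.card F = 2 ^ n) (d : F) (hd : d ≠ 0) :
    ∃ c : F, c ≠ 0 ∧ c * d = c ^ (2 ^ (2 * k)) := by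
  classical
  have hcop : (Nat.card Fˣ).Coprime (2 ^ (2 * k) - 1) := by
    rw [Nat.card_eq_fintype_card, Fintype.card_units, hF]
    change Nat.gcd _ _ = 1
    rw [Nat.pow_sub_one_gcd_pow_sub_one, Nat.gcd_comm, hk]
    norm_num
  obtain ⟨c, hc⟩ := (powCoprime hcop).surjective (Units.mk0 d hd)
  refine ⟨(c : F), c.ne_zero, ?_⟩
  have h1 : (c : F) ^ (2 ^ (2 * k) - 1) = d := by
    have := congrArg Units.val hc
    simpa using this
  rw [← h1, ← pow_succ']
  congr 1
  have : 0 < 2 ^ (2 * k) := by positivity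
  omega

/-- The absolute trace as a power sum. -/
def tr (n : ℕ) (x : F) : F := ∑ i ∈ Finset.range n, x ^ (2 ^ i)

lemma sum_conj {n k : ℕ} (hn : 0 < n) (hk : Nat.Coprime k n)
    (hcard : ∀ c : F, c ^ (2 ^ n) = c) (x : F) :
    ∑ i ∈ Finset.range n, ((frobenius F 2 ^ k : F →+* F))^[i] x = tr n x := by
  have h1 : ∀ i, ((frobenius F 2 ^ k : F →+* F))^[i] x = x ^ (2 ^ (k * i)) := by
    intro i
    rw [RingHom.coe_pow, ← Function.iterate_mul, iterate_frobenius]
  rw [Finset.sum_congr rfl fun i _ => h1 i]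
  exact sum_perm hn hk (fun i => x ^ (2 ^ i)) (fun m => pow_two_mod hcard x m)

lemma prod_conj {n k : ℕ} (hn : 0 < n) (hk : Nat.Coprime k n)
    (hcard : ∀ c : F, c ^ (2 ^ n) = c) (x : F) (hx : x ≠ 0) :
    ∏ i ∈ Finset.range n, ((frobenius F 2 ^ k : F →+* F))^[i] x = 1 := by
  have h1 : ∀ i, ((frobenius F 2 ^ k : F →+* F))^[i] x = x ^ (2 ^ (k * i)) := by
    intro i
    rw [RingHom.coe_pow, ← Function.iterate_mul, iterate_frobenius]
  rw [Finset.prod_congr rfl fun i _ => h1 i]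
  rw [prod_perm hn hk (fun i => x ^ (2 ^ i)) (fun m => pow_two_mod hcard x m)]
  rw [Finset.prod_pow_eq_pow_sum]
  have h2 : x * x ^ (∑ i ∈ Finset.range n, 2 ^ i) = x := by
    rw [← pow_succ', Nat.geomSum_eq le_rfl]
    have : 0 < 2 ^ n := by positivity
    rw [show (2 ^ n - 1) / (2 - 1) + 1 = 2 ^ n by omega, hcard]
  have h3 : x * x ^ (∑ i ∈ Finset.range n, 2 ^ i) = x * 1 := by rw [h2, mul_one]
  exact mul_left_cancel₀ hx h3

/-- Coefficients of the trace polynomial. -/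
lemma H_coeff_zero {N k : ℕ} (hk : Nat.Coprime k (N + 2))
    (hcard : ∀ c : F, c ^ (2 ^ (N + 2)) = c) {a : F} (ha : a ≠ 0) :
    (H (frobenius F 2 ^ k) N a).coeff 0 = 1 := by
  unfold H
  rw [coeff_add, coeff_X_mul_zero, add_zero, K_coeff_zero, prod_conj (by omega) hk hcard a ha]

lemma conj_ne (σ : F →+* F) {a : F} (ha : a ≠ 0) (i : ℕ) : σ^[i] a ≠ 0 := by
  rw [← RingHom.coe_pow]
  rwa [Ne, map_eq_zero]

lemma H_coeff_one {N k : ℕ} (hN : 0 < N) (hk : Nat.Coprime k (N + 2))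
    (hcard : ∀ c : F, c ^ (2 ^ (N + 2)) = c) {a : F} (ha : a ≠ 0) :
    (H (frobenius F 2 ^ k) N a).coeff 1 = tr (N + 2) ((a * a ^ (2 ^ k))⁻¹) := by
  set σ : F →+* F := frobenius F 2 ^ k with hσ
  have hper : σ^[N + 2] a = a := by
    rw [hσ, RingHom.coe_pow, ← Function.iterate_mul, iterate_frobenius]
    have := pow_two_mod hcard a (k * (N + 2))
    rw [Nat.mul_mod_left, pow_zero, pow_one] at this
    exact this.symm
  unfold H
  rw [coeff_add, coeff_X_mul]
  have h1 : (K σ a (N + 2)).coeff 1 = (∏ i ∈ Finset.range (N + 2), σ^[i] a)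
      * ∑ i ∈ Finset.range (N + 1), (σ^[i] a * σ^[i + 1] a)⁻¹ :=
    Kc_coeff_one (cj σ a) (fun i => conj_ne σ ha i) (N + 1)
  have h2 : (K σ (σ a) N).coeff 0 = (σ^[N + 1] a * σ^[N + 2] a)⁻¹ := by
    rw [K_coeff_zero]
    have h3 : ∏ i ∈ Finset.range (N + 2), σ^[i] a
        = (∏ i ∈ Finset.range N, σ^[i] (σ a)) * a * σ^[N + 1] a := by
      rw [Finset.prod_range_succ, Finset.prod_range_succ']
      rfl
    rw [prod_conj (by omega) hk hcard a ha] at h3
    rw [hper]
    apply eq_inv_of_mul_eq_one_left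
    rw [h3]; ring
  rw [h1, h2, prod_conj (by omega) hk hcard a ha, one_mul, ← Finset.sum_range_succ
    (fun i => (σ^[i] a * σ^[i + 1] a)⁻¹) (N + 1), ← sum_conj (by omega) hk hcard]
  refine Finset.sum_congr rfl fun i _ => ?_
  have h6 : σ a = a ^ (2 ^ k) := frob_pow_apply F k a
  rw [Function.iterate_succ_apply, h6, ← RingHom.coe_pow, map_inv₀, map_mul]

lemma H_coeff_top {m N k : ℕ} (hm : N + 2 = 2 * m + 1) (hN : 0 < N)
    (hk : Nat.Coprime k (N + 2)) (hcard : ∀ c : F, c ^ (2 ^ (N + 2)) = c) (a : F) :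
    (H (frobenius F 2 ^ k) N a).coeff m = tr (N + 2) a ∧
    ∀ l, m < l → (H (frobenius F 2 ^ k) N a).coeff l = 0 := by
  set σ : F →+* F := frobenius F 2 ^ k with hσ
  obtain ⟨m', rfl⟩ : ∃ m', m = m' + 1 := ⟨m - 1, by omega⟩
  have hN' : N = 2 * m' + 1 := by omega
  obtain ⟨_, _, h3, h4⟩ := Kc_deg (cj σ a) (m' + 1)
  obtain ⟨_, _, k3, k4⟩ := Kc_deg (cj σ (σ a)) m'
  unfold H
  constructor
  · rw [coeff_add, coeff_X_mul]
    have e1 : (K σ a (N + 2)).coeff (m' + 1)
        = ∑ l ∈ Finset.range (m' + 1 + 1), cj σ a (2 * l) := by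
      rw [hm]; exact h4
    have e2 : (K σ (σ a) N).coeff m' = ∑ l ∈ Finset.range (m' + 1), cj σ (σ a) (2 * l) := by
      rw [hN']; exact k4
    rw [e1, e2, ← sum_conj (by omega) hk hcard, hm]
    have h5 : ∀ q : ℕ, ∑ i ∈ Finset.range (2 * q + 1), σ^[i] a
        = (∑ l ∈ Finset.range (q + 1), cj σ a (2 * l)) + ∑ l ∈ Finset.range q,
          cj σ (σ a) (2 * l) := by
      intro q
      induction q with
      | zero => simp [cj]
      | succ q ih =>
        rw [show 2 * (q + 1) + 1 = 2 * q + 1 + 1 + 1 by ring, Finset.sum_range_succ,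
          Finset.sum_range_succ, ih, Finset.sum_range_succ _ (q + 1),
          Finset.sum_range_succ (fun l => cj σ (σ a) (2 * l)) q, ← cj_succ]
        simp only [cj]
        rw [show 2 * (q + 1) = 2 * q + 1 + 1 by ring]
        ring
    rw [h5]
  · intro l hl
    obtain ⟨l', rfl⟩ : ∃ l', l = l' + 1 := ⟨l - 1, by omega⟩
    rw [coeff_add, coeff_X_mul]
    have e1 : (K σ a (N + 2)).coeff (l' + 1) = 0 := by
      rw [hm]; exact h3 _ hl
    have e2 : (K σ (σ a) N).coeff l' = 0 := by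
      rw [hN']; exact k3 _ (by omega)
    rw [e1, e2, add_zero]

end

end Pool.Agent.H4
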