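import Mathlib
import Pool.Agent.H4.Perm

/-!
The permutation theorem and the first identity.
-/

namespace Pool.Agent.H4

open Polynomial

section
variable {F : Type*} [Field F] [Fintype F] [CharP F 2]

lemma lift_H {N : ℕ} (hcard : ∀ c : F, c ^ (2 ^ (N + 2)) = c) (a : F) :
    ∃ h0 : (ZMod 2)[X], h0.map (ZMod.castHom (dvd_refl 2) F) = H (frobenius F 2 ^ 1) N a := by
  have hinv := H_map (frobenius F 2 ^ 1) a N (by
    rw [RingHom.coe_pow, ← Function.iterate_mul, iterate_frobenius, one_mul, hcard])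
  have : H (frobenius F 2 ^ 1) N a ∈ lifts (ZMod.castHom (dvd_refl 2) F) := by
    rw [lifts_iff_coeff_lifts]
    intro l
    have h1 := congrArg (fun p => coeff p l) hinv
    simp only [coeff_map] at h1
    rw [frob_pow_apply] at h1
    obtain ⟨c, hc⟩ : ∃ c, c = (H (frobenius F 2 ^ 1) N a).coeff l := ⟨_, rfl⟩
    rw [← hc] at h1 ⊢
    have h2 : c * (c - 1) = 0 := by linear_combination h1
    rcases mul_eq_zero.mp h2 with h3 | h3
    · exact ⟨0, by rw [h3, map_zero]⟩
    · exact ⟨1, by rw [map_one]; linear_combination -h3⟩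
  exact (mem_lifts _).mp this

theorem perm {N m k : ℕ} (hm : N + 2 = 2 * m + 1) (hN : 0 < N) (hk : Nat.Coprime k (N + 2))
    (hF : Fintype.card F = 2 ^ (N + 2)) :
    ∃ g : {a : F // a ≠ 0} → {a : F // a ≠ 0}, Function.Bijective g ∧
      ∀ a, H (frobenius F 2 ^ k) N (g a).1 = H (frobenius F 2 ^ 1) N a.1 ∧
        (IdM (frobenius F 2) N 1 a.1 ↔ IdM (frobenius F 2) N k (g a).1) := by
  classical
  have hcard : ∀ c : F, c ^ (2 ^ (N + 2)) = c := by
    intro c
    rw [← hF]
    exact FiniteField.pow_card c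
  have hNodd : Odd N := ⟨m - 1, by omega⟩
  have hnodd : Odd (N + 2) := ⟨m, hm⟩
  have hsurjφ : Function.Surjective (frobenius F 2) :=
    Finite.injective_iff_surjective.mp (frobenius F 2).injective
  have h2k : Nat.Coprime (2 * k) (N + 2) := by
    refine Nat.Coprime.mul_left ?_ hk
    rw [Nat.coprime_two_left]
    exact hnodd
  have key : ∀ h : F[X], ∃ g : Par (frobenius F 2) N 1 h → Par (frobenius F 2) N k h,
      Function.Injective g ∧ ∀ a, IdM (frobenius F 2) N 1 a.1 ↔ IdM (frobenius F 2) N k (g a).1 := by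
    intro h
    by_cases hne : Nonempty (Par (frobenius F 2) N 1 h)
    · obtain ⟨⟨a, ha, rfl⟩⟩ := hne
      obtain ⟨h0, hh0⟩ := lift_H hcard a
      have hc1 : Nat.Coprime 1 (N + 2) := Nat.coprime_one_left _
      have hdeg : h0.natDegree ≤ m := by
        rw [← natDegree_map (ZMod.castHom (dvd_refl 2) F) (p := h0), hh0]
        rw [natDegree_le_iff_coeff_eq_zero]
        intro l hl
        exact (H_coeff_top hm hN hc1 hcard a).2 l hl
      have hne0 : H (frobenius F 2 ^ 1) N a ≠ 0 := by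
        intro h1
        have := H_coeff_zero hc1 hcard ha
        rw [h1] at this
        simp at this
      obtain ⟨D⟩ := exists_place F m N hm h0 hdeg hcard
      rw [hh0] at D
      refine inj_h D hNodd hne0 k hk hsurjφ ?_ ?_ ?_
      · intro d hd
        rw [frobenius_def] at hd
        exact cube_eq_one hnodd hcard d hd
      · intro x hx
        have p1 : Function.IsPeriodicPt D.Φ (2 * k) x := hx
        have p2 : Function.IsPeriodicPt D.Φ (N + 2) x := D.Φn x
        have p3 := p1.gcd p2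
        rw [h2k] at p3
        exact p3
      · intro d hd
        obtain ⟨c, hc, hcd⟩ := exists_root_pow (n := N + 2) (by omega) h2k hF d hd
        refine ⟨c, hc, ?_⟩
        rw [iterate_frobenius, hcd]
    · have : IsEmpty (Par (frobenius F 2) N 1 h) := not_nonempty_iff.mp hne
      exact ⟨fun a => (this.false a).elim, fun a => (this.false a).elim,
        fun a => (this.false a).elim⟩
  choose g hg1 hg2 using key
  refine ⟨fun a => ⟨(g (H (frobenius F 2 ^ 1) N a.1) ⟨a.1, a.2, rfl⟩).1,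
    (g (H (frobenius F 2 ^ 1) N a.1) ⟨a.1, a.2, rfl⟩).2.1⟩, ?_, ?_⟩
  · apply Finite.injective_iff_bijective.mp
    intro a b hab
    have h1 := congrArg Subtype.val hab
    simp only at h1
    have h2 : H (frobenius F 2 ^ 1) N a.1 = H (frobenius F 2 ^ 1) N b.1 := by
      rw [← (g (H (frobenius F 2 ^ 1) N a.1) ⟨a.1, a.2, rfl⟩).2.2,
        ← (g (H (frobenius F 2 ^ 1) N b.1) ⟨b.1, b.2, rfl⟩).2.2, h1]
    obtain ⟨a, ha⟩ := a
    obtain ⟨b, hb⟩ := b
    simp only at h1 h2
    have h3 : ∀ h : F[X], ∀ (e1 : H (frobenius F 2 ^ 1) N a = h)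
        (e2 : H (frobenius F 2 ^ 1) N b = h),
        (g h ⟨a, ha, e1⟩).1 = (g h ⟨b, hb, e2⟩).1 → a = b := by
      intro h e1 e2 he
      have := hg1 h (Subtype.ext he)
      exact congrArg Subtype.val this
    have h4 : (g (H (frobenius F 2 ^ 1) N b) ⟨b, hb, rfl⟩).1
        = (g (H (frobenius F 2 ^ 1) N a) ⟨b, hb, h2.symm⟩).1 := by
      have : ∀ h h' : F[X], ∀ (e1 : H (frobenius F 2 ^ 1) N b = h)
          (e2 : H (frobenius F 2 ^ 1) N b = h'), (g h ⟨b, hb, e1⟩).1 = (g h' ⟨b, hb, e2⟩).1 := by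
        intro h h' e1 e2
        subst e1
        subst e2
        rfl
      exact this _ _ rfl h2.symm
    exact Subtype.ext (h3 _ rfl h2.symm (h1.trans h4))
  · intro a
    exact ⟨(g (H (frobenius F 2 ^ 1) N a.1) ⟨a.1, a.2, rfl⟩).2.2,
      hg2 (H (frobenius F 2 ^ 1) N a.1) ⟨a.1, a.2, rfl⟩⟩

end

end Pool.Agent.H4
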