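import Mathlib
import Pool.Agent.H4.Perm2

/-!
Proof of the first identity.
-/

namespace Pool.Agent.H4

open Polynomial

section
variable {F : Type*} [Field F] [Fintype F] [CharP F 2]

omit [Fintype F] in
lemma tr_add (n : ℕ) (x y : F) : tr n (x + y) = tr n x + tr n y := by
  unfold tr
  rw [← Finset.sum_add_distrib]
  exact Finset.sum_congr rfl fun i _ => add_pow_char_pow x y 2 i

theorem q1_core [DecidableEq F] {N m k : ℕ} (hm : N + 2 = 2 * m + 1) (hN : 0 < N)
    (hk : Nat.Coprime k (N + 2)) (hF : Fintype.card F = 2 ^ (N + 2)) :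
    (∑ a : {a : F // a ≠ 0},
      if tr (N + 2) (a.1⁻¹ ^ (2 ^ k + 1) + a.1) = 0 then (1 : ℤ) else -1)
    = ∑ a : {a : F // a ≠ 0},
      if tr (N + 2) (a.1⁻¹ ^ (2 ^ 1 + 1) + a.1) = 0 then (1 : ℤ) else -1 := by
  have hcard : ∀ c : F, c ^ (2 ^ (N + 2)) = c := by
    intro c
    rw [← hF]
    exact FiniteField.pow_card c
  have key : ∀ k' : ℕ, Nat.Coprime k' (N + 2) → ∀ a : {a : F // a ≠ 0},
      (if tr (N + 2) (a.1⁻¹ ^ (2 ^ k' + 1) + a.1) = 0 then (1 : ℤ) else -1)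
      = if (H (frobenius F 2 ^ k') N a.1).coeff 1 + (H (frobenius F 2 ^ k') N a.1).coeff m = 0
        then (1 : ℤ) else -1 := by
    intro k' hk' a
    rw [H_coeff_one hN hk' hcard a.2, (H_coeff_top hm hN hk' hcard a.1).1, ← tr_add]
    congr 3
    rw [pow_succ', mul_inv, inv_pow]
  rw [Finset.sum_congr rfl fun a _ => key k hk a,
    Finset.sum_congr rfl fun a _ => key 1 (Nat.coprime_one_left _) a]
  obtain ⟨g, hg, hg2⟩ := perm hm hN hk hF
  rw [← hg.sum_comp]
  exact Finset.sum_congr rfl fun a _ => by rw [(hg2 a).1]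

end

end Pool.Agent.H4
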