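import Mathlib
import Pool.Agent.H4.QOne

/-!
Preparations for the second identity: solutions of `σ²x + a σx + x = 0` and continuants at `1`.
-/

namespace Pool.Agent.H4

open Polynomial

section
variable {F : Type*} [Field F] [Fintype F] [CharP F 2]

omit [Fintype F] in
lemma iter_sig (k i : ℕ) (x : F) : ((frobenius F 2 ^ k : F →+* F))^[i] x = x ^ (2 ^ (k * i)) := by
  rw [RingHom.coe_pow, ← Function.iterate_mul, iterate_frobenius]

lemma sig_per {n : ℕ} (hcard : ∀ c : F, c ^ (2 ^ n) = c) (k : ℕ) (x : F) :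
    ((frobenius F 2 ^ k : F →+* F))^[n] x = x := by
  rw [iter_sig]
  have := pow_two_mod hcard x (k * n)
  rw [Nat.mul_mod_left, pow_zero, pow_one] at this
  exact this.symm

omit [Fintype F] in
lemma sig_fix {n k : ℕ} (hk : Nat.Coprime k n) (hcard : ∀ c : F, c ^ (2 ^ n) = c) (x : F)
    (hx : x ^ (2 ^ k) = x) : x = 0 ∨ x = 1 := by
  have p1 : Function.IsPeriodicPt (frobenius F 2) k x := by
    change (frobenius F 2)^[k] x = x
    rw [iterate_frobenius, hx]
  have p2 : Function.IsPeriodicPt (frobenius F 2) n x := by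
    change (frobenius F 2)^[n] x = x
    rw [iterate_frobenius, hcard]
  have p3 := p1.gcd p2
  rw [hk] at p3
  have p4 : x ^ 2 = x := p3
  have : x * (x - 1) = 0 := by linear_combination p4
  rcases mul_eq_zero.mp this with h | h
  · exact Or.inl h
  · exact Or.inr (by linear_combination h)

omit [Fintype F] in
lemma tr_sq {n : ℕ} (hcard : ∀ c : F, c ^ (2 ^ n) = c) (x : F) : tr n x ^ 2 = tr n x := by
  have h1 : tr n x ^ 2 = ∑ i ∈ Finset.range n, x ^ (2 ^ (i + 1)) := by
    rw [← frobenius_def 2, tr, map_sum]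
    refine Finset.sum_congr rfl fun i _ => ?_
    rw [frobenius_def, ← pow_mul, pow_succ]
  have h2 := Finset.sum_range_succ (fun i => x ^ (2 ^ i)) n
  have h3 := Finset.sum_range_succ' (fun i => x ^ (2 ^ i)) n
  rw [h1]
  have h4 : x ^ 2 ^ n = x := hcard x
  have h5 : x ^ 2 ^ 0 = x := by rw [pow_zero, pow_one]
  unfold tr
  have : (∑ i ∈ Finset.range n, x ^ 2 ^ (i + 1)) + x ^ 2 ^ 0
      = (∑ i ∈ Finset.range n, x ^ 2 ^ i) + x ^ 2 ^ n := by rw [← h3, h2]
  rw [h4, h5] at this
  exact add_right_cancel this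

omit [Fintype F] in
lemma tr_zero_or {n : ℕ} (hcard : ∀ c : F, c ^ (2 ^ n) = c) (x : F) :
    tr n x = 0 ∨ tr n x = 1 := by
  have h := tr_sq hcard x
  have : tr n x * (tr n x - 1) = 0 := by linear_combination h
  rcases mul_eq_zero.mp this with h | h
  · exact Or.inl h
  · exact Or.inr (by linear_combination h)

omit [Fintype F] in
lemma tr_one {n : ℕ} (hn : Odd n) : tr n (1 : F) = 1 := by
  unfold tr
  simp only [one_pow, Finset.sum_const, Finset.card_range, nsmul_eq_mul, mul_one]
  obtain ⟨m, rfl⟩ := hn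
  have h2 : (2 : F) = 0 := CharTwo.two_eq_zero
  push_cast
  linear_combination (m : F) * h2

lemma tr_sig {n : ℕ} (hcard : ∀ c : F, c ^ (2 ^ n) = c) (k : ℕ) (x : F) :
    tr n (x ^ (2 ^ k)) = tr n x := by
  have h1 : tr n (x ^ (2 ^ k)) = (frobenius F 2 ^ k : F →+* F) (tr n x) := by
    unfold tr
    rw [map_sum]
    refine Finset.sum_congr rfl fun i _ => ?_
    rw [map_pow, frob_pow_apply]
  rw [h1]
  rcases tr_zero_or hcard x with h | h
  · rw [h, map_zero]
  · rw [h, map_one]

/-- Additive Hilbert 90, explicit in odd degree. -/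
lemma solve_add {n k : ℕ} (hn : Odd n) (hk : Nat.Coprime k n)
    (hcard : ∀ c : F, c ^ (2 ^ n) = c) (b : F) (hb : tr n b = 0) :
    ∃ θ : F, θ + θ ^ (2 ^ k) = b := by
  have h2 : (2 : F) = 0 := CharTwo.two_eq_zero
  obtain ⟨m, hm⟩ := hn
  set σ : F →+* F := frobenius F 2 ^ k with hσ
  set B : ℕ → F := fun i => ∑ j ∈ Finset.range (i + 1), σ^[j] b with hB
  have hσB : ∀ i, σ (B i) = B (i + 1) + b := by
    intro i
    have h1 : B (i + 1) = (∑ j ∈ Finset.range (i + 1), σ^[j + 1] b) + b := by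
      rw [hB]
      simp only
      rw [Finset.sum_range_succ' (fun j => σ^[j] b) (i + 1)]
      rfl
    rw [h1, hB]
    simp only
    rw [map_sum]
    have : ∀ j, σ (σ^[j] b) = σ^[j + 1] b := fun j => (Function.iterate_succ_apply' _ _ _).symm
    simp only [this]
    linear_combination (-b) * h2
  refine ⟨∑ i ∈ Finset.range (2 * m), B i, ?_⟩
  have h3 : (∑ i ∈ Finset.range (2 * m), B i) ^ (2 ^ k)
      = ∑ i ∈ Finset.range (2 * m), (B (i + 1) + b) := by
    rw [← frob_pow_apply, ← hσ, map_sum]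
    exact Finset.sum_congr rfl fun i _ => hσB i
  rw [h3, Finset.sum_add_distrib]
  have h4 := Finset.sum_range_succ B (2 * m)
  have h5 := Finset.sum_range_succ' B (2 * m)
  have h6 : B (2 * m) = 0 := by
    rw [hB]
    simp only
    rw [← hm, sum_conj (by omega) hk hcard, hb]
  have h7 : B 0 = b := by rw [hB]; simp
  rw [Finset.sum_const, Finset.card_range, nsmul_eq_mul]
  push_cast
  rw [h4] at h5
  rw [h6, h7] at h5
  linear_combination h5 + (m * b + ∑ i ∈ Finset.range (2 * m), B (i + 1)) * h2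

omit [Fintype F] in
/-- Solutions of the recurrence through continuants. -/
lemma rec_formula (σ : F →+* F) (a : F) (Z : ℕ → F)
    (hZ : ∀ i, Z (i + 2) = σ^[i] a * Z (i + 1) + Z i) (j : ℕ) :
    Z (j + 2) = (K σ a (j + 1)).eval 1 * Z 1 + (K σ (σ a) j).eval 1 * Z 0 := by
  induction j using Nat.twoStepInduction with
  | zero =>
    rw [hZ 0, K_one, K_zero]
    simp
  | one =>
    have e1 : K σ a (1 + 1) = C (σ a) * C a + X * 1 := rfl
    rw [hZ 1, hZ 0, e1, K_one]
    simp
    ring
  | more j h1 h2 =>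
    have e1 := K_right σ a (j + 1)
    have e2 := K_right σ (σ a) j
    have e3 : σ^[j + 1] (σ a) = σ^[j + 2] a := by rw [← Function.iterate_succ_apply]
    rw [hZ (j + 2), h2, h1]
    rw [show j + 1 + 1 + 1 = j + 1 + 2 from rfl] at *
    rw [show j + 2 + 1 = j + 1 + 2 from rfl, e1, e2, e3]
    simp only [eval_add, eval_mul, eval_C, eval_X]
    rw [show j + 1 + 1 = j + 2 from rfl]
    ring

end

end Pool.Agent.H4
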