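import Mathlib
import Pool.Agent.H4.QTwo

/-!
Solutions of `σ²x = a σx + x` and the values of the continuants at `1`.
-/

namespace Pool.Agent.H4

open Polynomial

section
variable {F : Type*} [Field F] [Fintype F] [CharP F 2]

lemma root_bij {n k : ℕ} (hn : Odd n) (hk : Nat.Coprime k n)
    (hcard : ∀ c : F, c ^ (2 ^ n) = c) :
    Function.Bijective (fun x : F => x * x ^ (2 ^ k)) := by
  apply Finite.injective_iff_bijective.mp
  intro x y hxy
  simp only at hxy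
  have hp : (2 ^ k) ≠ 0 := by positivity
  by_cases hy : y = 0
  · rw [hy, zero_mul] at hxy
    rcases mul_eq_zero.mp hxy with h | h
    · rw [h, hy]
    · rw [hy]; exact pow_eq_zero_iff hp |>.mp h
  · have hx : x ≠ 0 := by
      rintro rfl
      rw [zero_mul] at hxy
      rcases mul_eq_zero.mp hxy.symm with h | h
      · exact hy h
      · exact hy (pow_eq_zero_iff hp |>.mp h)
    have h1 : (x / y) * (x / y) ^ (2 ^ k) = 1 := by
      rw [div_pow]
      have : y ^ (2 ^ k) ≠ 0 := pow_ne_zero _ hy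
      field_simp
      exact hxy
    have hc0 : x / y ≠ 0 := div_ne_zero hx hy
    have h2 : (x / y) ^ (2 ^ (2 * k)) = x / y := by
      have h3 : (x / y) ^ (2 ^ k) = (x / y)⁻¹ := eq_inv_of_mul_eq_one_right h1
      rw [two_mul, pow_add, pow_mul, h3, inv_pow, h3, inv_inv]
    have h2k : Nat.Coprime (2 * k) n := by
      refine Nat.Coprime.mul_left ?_ hk
      rw [Nat.coprime_two_left]
      exact hn
    rcases sig_fix h2k hcard _ h2 with h | h
    · exact absurd h hc0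
    · rwa [div_eq_one_iff_eq hy] at h

/-- Periodicity relations for a solution. -/
lemma sol_rel {N k : ℕ} (hcard : ∀ c : F, c ^ (2 ^ (N + 2)) = c) (a x : F)
    (hx : (x ^ 2 ^ k) ^ 2 ^ k = a * x ^ 2 ^ k + x) :
    x = (K (frobenius F 2 ^ k) a (N + 1)).eval 1 * x ^ 2 ^ k
        + (K (frobenius F 2 ^ k) (a ^ 2 ^ k) N).eval 1 * x ∧
    x ^ 2 ^ k = (K (frobenius F 2 ^ k) a (N + 2)).eval 1 * x ^ 2 ^ k
        + (K (frobenius F 2 ^ k) (a ^ 2 ^ k) (N + 1)).eval 1 * x := by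
  set σ : F →+* F := frobenius F 2 ^ k with hσ
  have hs : ∀ y, σ y = y ^ 2 ^ k := fun y => frob_pow_apply F k y
  have hrec : ∀ i, (fun i => σ^[i] x) (i + 2) = σ^[i] a * (fun i => σ^[i] x) (i + 1)
      + (fun i => σ^[i] x) i := by
    intro i
    simp only
    have hx' : σ^[2] x = a * σ x + x := by
      change σ (σ x) = _
      rw [hs, hs]; exact hx
    rw [Function.iterate_add_apply, hx']
    rw [Function.iterate_add_apply, ← RingHom.coe_pow]
    simp only [map_add, map_mul]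
    rfl
  have h1 := rec_formula σ a (fun i => σ^[i] x) hrec N
  have h2 := rec_formula σ a (fun i => σ^[i] x) hrec (N + 1)
  have hp : σ^[N + 2] x = x := sig_per hcard k x
  have hp2 : σ^[N + 3] x = σ x := by
    rw [show N + 3 = N + 2 + 1 from rfl, Function.iterate_succ_apply', hp]
  rw [hp] at h1
  rw [show N + 1 + 2 = N + 3 from rfl, hp2] at h2
  simp only [Function.iterate_one, Function.iterate_zero, id_eq] at h1 h2
  rw [hs, hs] at h1
  rw [hs, hs] at h2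
  exact ⟨h1, h2⟩

omit [Fintype F] in
lemma euler_one (N k : ℕ) (a : F) :
    (K (frobenius F 2 ^ k) a (N + 2)).eval 1 * (K (frobenius F 2 ^ k) (a ^ 2 ^ k) N).eval 1
      + (K (frobenius F 2 ^ k) a (N + 1)).eval 1
        * (K (frobenius F 2 ^ k) (a ^ 2 ^ k) (N + 1)).eval 1 = 1 := by
  have h := K_euler (frobenius F 2 ^ k) a N
  have hs : (frobenius F 2 ^ k : F →+* F) a = a ^ 2 ^ k := by
    rw [RingHom.coe_pow]; exact iterate_frobenius 2 k a
  rw [hs] at h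
  have := congrArg (eval 1) h
  simpa using this

omit [Fintype F] in
lemma H_eval (N k : ℕ) (a : F) :
    (H (frobenius F 2 ^ k) N a).eval 1 = (K (frobenius F 2 ^ k) a (N + 2)).eval 1
      + (K (frobenius F 2 ^ k) (a ^ 2 ^ k) N).eval 1 := by
  have hs : (frobenius F 2 ^ k : F →+* F) a = a ^ 2 ^ k := by
    rw [RingHom.coe_pow]; exact iterate_frobenius 2 k a
  unfold H
  rw [hs]
  simp

lemma H_eval_zero {N k : ℕ} (hcard : ∀ c : F, c ^ (2 ^ (N + 2)) = c) (a x : F)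
    (hx0 : x ≠ 0) (hx : (x ^ 2 ^ k) ^ 2 ^ k = a * x ^ 2 ^ k + x) :
    (H (frobenius F 2 ^ k) N a).eval 1 = 0 := by
  obtain ⟨h1, h2⟩ := sol_rel (N := N) hcard a x hx
  have h3 := euler_one (F := F) N k a
  rw [H_eval]
  obtain ⟨A, hA⟩ : ∃ A, A = (K (frobenius F 2 ^ k) a (N + 2)).eval 1 := ⟨_, rfl⟩
  obtain ⟨B, hB⟩ : ∃ B, B = (K (frobenius F 2 ^ k) (a ^ 2 ^ k) (N + 1)).eval 1 := ⟨_, rfl⟩
  obtain ⟨C', hC⟩ : ∃ C', C' = (K (frobenius F 2 ^ k) a (N + 1)).eval 1 := ⟨_, rfl⟩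
  obtain ⟨D, hD⟩ : ∃ D, D = (K (frobenius F 2 ^ k) (a ^ 2 ^ k) N).eval 1 := ⟨_, rfl⟩
  rw [← hA, ← hD, ← hC, ← hB] at h3
  rw [← hC, ← hD] at h1
  rw [← hA, ← hB] at h2
  rw [← hA, ← hD]
  obtain ⟨y, hy⟩ : ∃ y, y = x ^ 2 ^ k := ⟨_, rfl⟩
  rw [← hy] at h1 h2
  have hy0 : y ≠ 0 := by rw [hy]; exact pow_ne_zero _ hx0
  have e1 : C' * y = (1 - D) * x := by linear_combination -h1
  have e2 : B * x = (1 - A) * y := by linear_combination -h2
  have e3 : (C' * B - (1 - D) * (1 - A)) * (x * y) = 0 := by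
    linear_combination (B * x) * e1 + ((1 - D) * x) * e2
  have e4 : C' * B - (1 - D) * (1 - A) = 0 := by
    rcases mul_eq_zero.mp e3 with h | h
    · exact h
    · exact absurd h (mul_ne_zero hx0 hy0)
  have h2' : (2 : F) = 0 := CharTwo.two_eq_zero
  linear_combination e4 - h3 + (A * D) * h2'

lemma C_formula {N k : ℕ} (hk : Nat.Coprime k (N + 2))
    (hcard : ∀ c : F, c ^ (2 ^ (N + 2)) = c) (a x : F)
    (hx0 : x ≠ 0) (hx : (x ^ 2 ^ k) ^ 2 ^ k = a * x ^ 2 ^ k + x) :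
    (K (frobenius F 2 ^ k) a (N + 1)).eval 1
      = x ^ 2 * tr (N + 2) ((x * x ^ 2 ^ k)⁻¹) := by
  have h2' : (2 : F) = 0 := CharTwo.two_eq_zero
  rw [← sum_conj (k := k) (by omega) hk hcard]
  set σ : F →+* F := frobenius F 2 ^ k with hσ
  have hs : ∀ y, σ y = y ^ 2 ^ k := fun y => frob_pow_apply F k y
  obtain ⟨w, hw⟩ : ∃ w, w = (x * x ^ 2 ^ k)⁻¹ := ⟨_, rfl⟩
  rw [← hw]
  have hwx : w * (x * σ x) = 1 := by
    rw [hw, hs]
    exact inv_mul_cancel₀ (mul_ne_zero hx0 (pow_ne_zero _ hx0))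
  have hwi : ∀ i, σ^[i] w * (σ^[i] x * σ^[i + 1] x) = 1 := by
    intro i
    have := congrArg (σ^[i]) hwx
    rw [← RingHom.coe_pow, map_mul, map_mul, map_one, RingHom.coe_pow] at this
    exact this
  have hxi : ∀ i, σ^[i] x ≠ 0 := fun i => conj_ne σ hx0 i
  have hreci : ∀ i, σ^[i + 2] x = σ^[i] a * σ^[i + 1] x + σ^[i] x := by
    intro i
    have hx' : σ^[2] x = a * σ x + x := by
      change σ (σ x) = _
      rw [hs, hs]; exact hx
    rw [Function.iterate_add_apply, hx']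
    rw [Function.iterate_add_apply, ← RingHom.coe_pow]
    simp only [map_add, map_mul]
    rfl
  have hrec : ∀ i, (fun i => σ^[i] x * ∑ j ∈ Finset.range i, σ^[j] w) (i + 2)
      = σ^[i] a * (fun i => σ^[i] x * ∑ j ∈ Finset.range i, σ^[j] w) (i + 1)
      + (fun i => σ^[i] x * ∑ j ∈ Finset.range i, σ^[j] w) i := by
    intro i
    simp only
    rw [Finset.sum_range_succ _ (i + 1), Finset.sum_range_succ _ i, hreci i]
    have e1 := hwi i
    have e2 := hwi (i + 1)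
    rw [show i + 1 + 1 = i + 2 from rfl, hreci i] at e2
    have e3 : σ^[i] w * σ^[i] x = σ^[i + 1] w * (σ^[i] a * σ^[i + 1] x + σ^[i] x) := by
      apply mul_right_cancel₀ (hxi (i + 1))
      linear_combination e1 - e2
    linear_combination -e3 + (σ^[i] w * σ^[i] x) * h2'
  have h1 := rec_formula σ a (fun i => σ^[i] x * ∑ j ∈ Finset.range i, σ^[j] w) hrec N
  have hp : σ^[N + 2] x = x := sig_per hcard k x
  rw [hp] at h1
  simp only [Finset.range_zero, Finset.sum_empty, mul_zero, add_zero, Finset.sum_range_one,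
    Function.iterate_zero, id_eq, Function.iterate_one] at h1
  linear_combination -x * h1 - (K σ a (N + 1)).eval 1 * hwx

/-- The solution attached to a parameter. -/
lemma sol_exists {N k : ℕ}
    (hcard : ∀ c : F, c ^ (2 ^ (N + 2)) = c) (a : F)
    (hH : (H (frobenius F 2 ^ k) N a).eval 1 = 0)
    (hC : (K (frobenius F 2 ^ k) a (N + 1)).eval 1 ≠ 0) :
    ∃ x : F, x ≠ 0 ∧ (x ^ 2 ^ k) ^ 2 ^ k = a * x ^ 2 ^ k + x := by
  have h2' : (2 : F) = 0 := CharTwo.two_eq_zero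
  have h3 := euler_one (F := F) N k a
  rw [H_eval] at hH
  have hs : ∀ y, (frobenius F 2 ^ k : F →+* F) y = y ^ 2 ^ k := fun y => frob_pow_apply F k y
  have hev : ∀ (b : F) (j : ℕ), ((K (frobenius F 2 ^ k) b j).eval 1) ^ 2 ^ k
      = (K (frobenius F 2 ^ k) (b ^ 2 ^ k) j).eval 1 := by
    intro b j
    rw [← hs, ← hs, ← K_map, eval_one_map]
  have hBC := hev a (N + 1)
  have hDs := hev (a ^ 2 ^ k) N
  have hleft := congrArg (eval 1) (K_left (frobenius F 2 ^ k) a N)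
  rw [hs, hs] at hleft
  simp only [eval_add, eval_mul, eval_C, eval_X, one_mul] at hleft
  obtain ⟨A, hA⟩ : ∃ A, A = (K (frobenius F 2 ^ k) a (N + 2)).eval 1 := ⟨_, rfl⟩
  obtain ⟨B, hB⟩ : ∃ B, B = (K (frobenius F 2 ^ k) (a ^ 2 ^ k) (N + 1)).eval 1 := ⟨_, rfl⟩
  obtain ⟨C', hC'⟩ : ∃ C', C' = (K (frobenius F 2 ^ k) a (N + 1)).eval 1 := ⟨_, rfl⟩
  obtain ⟨D, hD⟩ : ∃ D, D = (K (frobenius F 2 ^ k) (a ^ 2 ^ k) N).eval 1 := ⟨_, rfl⟩
  rw [← hA, ← hD, ← hC', ← hB] at h3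
  rw [← hA, ← hD] at hH
  rw [← hC'] at hC
  rw [← hC', ← hB] at hBC
  rw [← hD] at hDs
  rw [← hA, ← hB, ← hDs] at hleft
  -- square root of `C'`
  have hsq : ∀ c : F, ∃ x : F, x ^ 2 = c := by
    intro c
    refine ⟨c ^ (2 ^ (N + 1)), ?_⟩
    rw [← pow_mul, ← pow_succ, hcard]
  obtain ⟨x, hx⟩ := hsq C'
  have hx0 : x ≠ 0 := by
    rintro rfl
    apply hC
    rw [← hx]; ring
  refine ⟨x, hx0, ?_⟩
  obtain ⟨y, hy⟩ : ∃ y, y = x ^ 2 ^ k := ⟨_, rfl⟩
  have hy2 : y ^ 2 = B := by rw [hy, ← pow_mul, mul_comm, pow_mul, hx, hBC]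
  have hy0 : y ≠ 0 := by rw [hy]; exact pow_ne_zero _ hx0
  -- `x y = 1 + D`
  have hxy : x * y = 1 + D := by
    have : (x * y + (1 + D)) ^ 2 = 0 := by
      linear_combination y ^ 2 * hx + C' * hy2 + h3 - D * hH
        + (D ^ 2 + D + x * y * (1 + D) + 1) * h2'
    have h4 := pow_eq_zero_iff (two_ne_zero) |>.mp this
    linear_combination h4 - (1 + D) * h2'
  have hyz : y * y ^ 2 ^ k = 1 + D ^ 2 ^ k := by
    have := congrArg (frobenius F 2 ^ k : F →+* F) hxy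
    rw [map_mul, map_add, map_one, hs, hs, hs, ← hy] at this
    exact this
  rw [← hy]
  apply mul_left_cancel₀ hy0
  linear_combination hyz + hleft + hH - hxy + a * hy2 + (a * B + D ^ 2 ^ k - D - y ^ 2 * a - A) * h2'

end

end Pool.Agent.H4
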