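import Mathlib
import Pool.Agent.H4.QTwoB

/-!
The second identity: parametrization of the sum over `v` by solutions of `σ²x = a σx + x`.
-/

namespace Pool.Agent.H4

open Polynomial

section
variable {F : Type*} [Field F] [Fintype F] [CharP F 2]

/-- Parameters attached to `a`. -/
def Good (k : ℕ) (a r θ : F) : Prop :=
  r ≠ 0 ∧ r ≠ 1 ∧ (r ^ 2 ^ k) ^ 2 ^ k = a * r ^ 2 ^ k + r ∧ θ + θ ^ 2 ^ k = 1 + (r * r ^ 2 ^ k)⁻¹

/-- The rational expression of the second identity. -/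
def Rk (k : ℕ) (v : F) : F := (v ^ 2 ^ k + 1) * v ^ 2 ^ k / (v ^ 2 ^ k + v) ^ (2 ^ k + 1)

lemma good_pair {n k : ℕ} (hn : Odd n) (hk : Nat.Coprime k n)
    (hcard : ∀ c : F, c ^ (2 ^ n) = c) {a r θ : F} (hg : Good k a r θ) :
    (θ * r) * (θ * r) ^ 2 ^ k + ((1 + θ) * r) * ((1 + θ) * r) ^ 2 ^ k = 1 ∧
    θ ≠ 0 ∧ 1 + θ ≠ 0 := by
  obtain ⟨h1, h2, h3, h4⟩ := hg
  have h2' : (2 : F) = 0 := CharTwo.two_eq_zero
  have hadd : ∀ x y : F, (x + y) ^ 2 ^ k = x ^ 2 ^ k + y ^ 2 ^ k := fun x y =>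
    add_pow_char_pow x y 2 k
  obtain ⟨s, hs⟩ : ∃ s, s = r ^ 2 ^ k := ⟨_, rfl⟩
  have hs0 : s ≠ 0 := by rw [hs]; exact pow_ne_zero _ h1
  obtain ⟨w, hw⟩ : ∃ w, w = (r * r ^ 2 ^ k)⁻¹ := ⟨_, rfl⟩
  have hw1 : w * (r * s) = 1 := by
    rw [hw, ← hs]; exact inv_mul_cancel₀ (mul_ne_zero h1 hs0)
  have hw2 : w ≠ 1 := by
    intro hh
    rw [hh, one_mul, hs] at hw1
    apply h2
    apply (root_bij hn hk hcard).injective
    simp only [one_pow, mul_one]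
    exact hw1
  rw [← hw] at h4
  refine ⟨?_, ?_, ?_⟩
  · rw [mul_pow, mul_pow, hadd, one_pow, ← hs]
    linear_combination (r * s) * h4 + hw1 + (r * s + θ * θ ^ 2 ^ k * (r * s)) * h2'
  · rintro rfl
    apply hw2
    rw [zero_pow (by positivity)] at h4
    linear_combination -h4 - h2'
  · intro hh
    have : θ = 1 := by linear_combination hh - h2'
    rw [this, one_pow] at h4
    apply hw2
    linear_combination -h4

lemma good_ratio {n k : ℕ} (hn : Odd n) (hk : Nat.Coprime k n)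
    (hcard : ∀ c : F, c ^ (2 ^ n) = c) {a r θ : F} (hg : Good k a r θ) :
    Rk k (((1 + θ) * r) * ((1 + θ) * r) ^ 2 ^ k) = (a * a ^ 2 ^ k)⁻¹ := by
  obtain ⟨g1, g2, g3⟩ := good_pair hn hk hcard hg
  obtain ⟨h1, h2, h3, h4⟩ := hg
  have h2' : (2 : F) = 0 := CharTwo.two_eq_zero
  have hadd : ∀ x y : F, (x + y) ^ 2 ^ k = x ^ 2 ^ k + y ^ 2 ^ k := fun x y =>
    add_pow_char_pow x y 2 k
  obtain ⟨Q, hQ⟩ : ∃ Q, Q = (1 + θ) * r := ⟨_, rfl⟩
  obtain ⟨P, hP⟩ : ∃ P, P = θ * r := ⟨_, rfl⟩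
  have hQ0 : Q ≠ 0 := by rw [hQ]; exact mul_ne_zero g3 h1
  have hP0 : P ≠ 0 := by rw [hP]; exact mul_ne_zero g2 h1
  have hr : P + Q = r := by rw [hP, hQ]; linear_combination (θ * r) * h2'
  rw [← hQ, ← hP] at g1
  rw [← hQ]
  obtain ⟨Q1, hQ1⟩ : ∃ Q1, Q1 = Q ^ 2 ^ k := ⟨_, rfl⟩
  obtain ⟨P1, hP1⟩ : ∃ P1, P1 = P ^ 2 ^ k := ⟨_, rfl⟩
  obtain ⟨Q2, hQ2⟩ : ∃ Q2, Q2 = Q1 ^ 2 ^ k := ⟨_, rfl⟩
  obtain ⟨P2, hP2⟩ : ∃ P2, P2 = P1 ^ 2 ^ k := ⟨_, rfl⟩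
  have hr1 : P1 + Q1 = r ^ 2 ^ k := by rw [hP1, hQ1, ← hadd, hr]
  have hr2 : P2 + Q2 = (r ^ 2 ^ k) ^ 2 ^ k := by rw [hP2, hQ2, ← hadd, hr1]
  have hQ10 : Q1 ≠ 0 := by rw [hQ1]; exact pow_ne_zero _ hQ0
  have hP10 : P1 ≠ 0 := by rw [hP1]; exact pow_ne_zero _ hP0
  have hQ20 : Q2 ≠ 0 := by rw [hQ2]; exact pow_ne_zero _ hQ10
  have hP20 : P2 ≠ 0 := by rw [hP2]; exact pow_ne_zero _ hP10
  have g1' : P1 * P2 + Q1 * Q2 = 1 := by
    have := congrArg (fun x => x ^ 2 ^ k) g1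
    simp only [hadd, mul_pow, one_pow] at this
    rw [← hP1, ← hQ1, ← hP2, ← hQ2] at this
    exact this
  rw [← hP1, ← hQ1] at g1
  have hr10 : P1 + Q1 ≠ 0 := by rw [hr1]; exact pow_ne_zero _ h1
  -- the two sums
  have e0 : P + P2 + (Q + Q2) = a * (P1 + Q1) := by
    linear_combination hr + hr2 + h3 - a * hr1 + r * h2'
  have e1 : Q1 * (Q + Q2) = P1 * (P + P2) := by
    linear_combination g1 + g1' + (1 - P1 * (P + P2)) * h2'
  have e2 : Q + Q2 = a * P1 := by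
    apply mul_right_cancel₀ hr10
    linear_combination e1 + P1 * e0
  have e3 : Q * Q1 + Q1 * Q2 = a * P1 * Q1 := by linear_combination Q1 * e2
  have hv : (Q * Q1) ^ 2 ^ k = Q1 * Q2 := by rw [mul_pow, ← hQ1, ← hQ2]
  have hden : ((Q * Q1) ^ 2 ^ k + Q * Q1) = a * P1 * Q1 := by
    rw [hv]; linear_combination e3
  have hnum : (Q * Q1) ^ 2 ^ k + 1 = P1 * P2 := by
    rw [hv]; linear_combination -g1' + (Q1 * Q2) * h2'
  unfold Rk
  rw [← hQ1, hden, hnum, hv, pow_succ, mul_pow, mul_pow, ← hP2, ← hQ2]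
  by_cases ha : a = 0
  · rw [ha]
    simp
  · have ha1 : a ^ 2 ^ k ≠ 0 := pow_ne_zero _ ha
    field_simp

lemma good_inj {n k : ℕ} (hn : Odd n) (hk : Nat.Coprime k n)
    (hcard : ∀ c : F, c ^ (2 ^ n) = c) {a r θ a' r' θ' : F} (hg : Good k a r θ)
    (hg' : Good k a' r' θ')
    (h : ((1 + θ) * r) * ((1 + θ) * r) ^ 2 ^ k = ((1 + θ') * r') * ((1 + θ') * r') ^ 2 ^ k) :
    a = a' ∧ r = r' ∧ θ = θ' := by
  obtain ⟨g1, g2, g3⟩ := good_pair hn hk hcard hg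
  obtain ⟨g1', g2', g3'⟩ := good_pair hn hk hcard hg'
  obtain ⟨h1, h2, h3, h4⟩ := hg
  obtain ⟨h1', h2', h3', h4'⟩ := hg'
  have htwo : (2 : F) = 0 := CharTwo.two_eq_zero
  have hQ : (1 + θ) * r = (1 + θ') * r' := (root_bij hn hk hcard).injective h
  have hP : θ * r = θ' * r' := by
    apply (root_bij hn hk hcard).injective
    simp only
    linear_combination g1 - g1' - h
  have hr : r = r' := by linear_combination hQ - hP
  subst hr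
  refine ⟨?_, rfl, mul_right_cancel₀ h1 hP⟩
  apply mul_right_cancel₀ (pow_ne_zero (2 ^ k) h1)
  linear_combination h3' - h3

lemma good_of {n k : ℕ} (hn : Odd n) (hk : Nat.Coprime k n)
    (hcard : ∀ c : F, c ^ (2 ^ n) = c) {v : F} (hv0 : v ≠ 0) (hv1 : v ≠ 1) :
    ∃ a r θ : F, a ≠ 0 ∧ Good k a r θ ∧ v = ((1 + θ) * r) * ((1 + θ) * r) ^ 2 ^ k := by
  have h2' : (2 : F) = 0 := CharTwo.two_eq_zero
  have hadd : ∀ x y : F, (x + y) ^ 2 ^ k = x ^ 2 ^ k + y ^ 2 ^ k := fun x y =>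
    add_pow_char_pow x y 2 k
  have hq : (2 ^ k : ℕ) ≠ 0 := by positivity
  obtain ⟨Q, hQ⟩ := (root_bij hn hk hcard).surjective v
  obtain ⟨P, hP⟩ := (root_bij hn hk hcard).surjective (v + 1)
  simp only at hQ hP
  have hQ0 : Q ≠ 0 := by
    rintro rfl
    apply hv0; rw [← hQ]; simp
  have hP0 : P ≠ 0 := by
    rintro rfl
    apply hv1
    rw [zero_mul] at hP
    linear_combination -hP - h2'
  have hPQ : P * P ^ 2 ^ k + Q * Q ^ 2 ^ k = 1 := by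
    linear_combination hP + hQ + v * h2'
  have hr0 : P + Q ≠ 0 := by
    intro h
    have : P = Q := by linear_combination h - Q * h2'
    rw [this] at hPQ
    exact one_ne_zero (α := F) (by linear_combination -hPQ + (Q * Q ^ 2 ^ k) * h2')
  have hr1 : P + Q ≠ 1 := by
    intro h
    have hQ' : Q = 1 + P := by linear_combination h - P * h2'
    rw [hQ', hadd, one_pow] at hPQ
    have : P ^ 2 ^ k = P := by
      linear_combination hPQ - (P * P ^ 2 ^ k + P) * h2'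
    rcases sig_fix hk hcard P this with h3 | h3
    · exact hP0 h3
    · apply hQ0
      rw [hQ', h3]; linear_combination h2'
  obtain ⟨r, hr⟩ : ∃ r, r = P + Q := ⟨_, rfl⟩
  rw [← hr] at hr0 hr1
  have hrq : r ^ 2 ^ k ≠ 0 := pow_ne_zero _ hr0
  obtain ⟨θ, hθ⟩ : ∃ θ, θ = P / r := ⟨_, rfl⟩
  have hθr : θ * r = P := by rw [hθ]; field_simp
  have hθr' : (1 + θ) * r = Q := by
    linear_combination hθr + hr + P * h2'
  refine ⟨(r + (r ^ 2 ^ k) ^ 2 ^ k) / r ^ 2 ^ k, r, θ, ?_, ⟨hr0, hr1, ?_, ?_⟩, ?_⟩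
  · rw [Ne, div_eq_zero_iff]
    push Not
    refine ⟨fun h => ?_, hrq⟩
    have h5 : r ^ 2 ^ (2 * k) = r := by
      have : (r ^ 2 ^ k) ^ 2 ^ k = r ^ 2 ^ (2 * k) := by
        rw [two_mul, pow_add, pow_mul]
      rw [this] at h
      linear_combination h - r * h2'
    have h2k : Nat.Coprime (2 * k) n := by
      refine Nat.Coprime.mul_left ?_ hk
      rw [Nat.coprime_two_left]
      exact hn
    rcases sig_fix h2k hcard r h5 with h6 | h6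
    · exact hr0 h6
    · exact hr1 h6
  · rw [div_mul_cancel₀ _ hrq]
    linear_combination -r * h2'
  · apply mul_right_cancel₀ (mul_ne_zero hr0 hrq)
    rw [add_mul 1, inv_mul_cancel₀ (mul_ne_zero hr0 hrq)]
    have e1 : θ ^ 2 ^ k * r ^ 2 ^ k = P ^ 2 ^ k := by rw [← mul_pow, hθr]
    have e2 : (1 + θ) ^ 2 ^ k * r ^ 2 ^ k = Q ^ 2 ^ k := by rw [← mul_pow, hθr']
    rw [hadd, one_pow] at e2
    rw [← e1, ← e2, ← hθr'] at hPQ
    rw [← hθr] at hPQ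
    linear_combination hPQ - (r * r ^ 2 ^ k + θ * θ ^ 2 ^ k * (r * r ^ 2 ^ k)
      + 1 - 1) * h2'
  · rw [hθr', hQ]

end

end Pool.Agent.H4
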