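import Mathlib
import Pool.Agent.H4.QTwoC

/-!
The second identity: the sum over `v` in terms of the trace polynomial.
-/

namespace Pool.Agent.H4

open Polynomial

section
variable {F : Type*} [Field F] [Fintype F] [CharP F 2]

lemma good_C {N k : ℕ} (hn : Odd (N + 2)) (hk : Nat.Coprime k (N + 2))
    (hcard : ∀ c : F, c ^ (2 ^ (N + 2)) = c) {a r θ : F} (hg : Good k a r θ) :
    (H (frobenius F 2 ^ k) N a).eval 1 = 0 ∧
    (K (frobenius F 2 ^ k) a (N + 1)).eval 1 = r ^ 2 := by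
  obtain ⟨h1, h2, h3, h4⟩ := hg
  refine ⟨H_eval_zero hcard a r h1 h3, ?_⟩
  rw [C_formula hk hcard a r h1 h3]
  have h5 : tr (N + 2) ((r * r ^ 2 ^ k)⁻¹) = 1 := by
    have h6 := congrArg (tr (N + 2)) h4
    rw [tr_add, tr_add, tr_sig hcard, tr_one hn] at h6
    have h2' : (2 : F) = 0 := CharTwo.two_eq_zero
    linear_combination -h6 + (tr (N + 2) θ - 1) * h2'
  rw [h5, mul_one]

lemma good_exists {N k : ℕ} (hn : Odd (N + 2)) (hk : Nat.Coprime k (N + 2))
    (hcard : ∀ c : F, c ^ (2 ^ (N + 2)) = c) {a : F} (ha : a ≠ 0)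
    (hH : (H (frobenius F 2 ^ k) N a).eval 1 = 0)
    (hC : (K (frobenius F 2 ^ k) a (N + 1)).eval 1 ≠ 0) :
    ∃ r θ, Good k a r θ := by
  have h2' : (2 : F) = 0 := CharTwo.two_eq_zero
  obtain ⟨r, hr0, hr⟩ := sol_exists hcard a hH hC
  have h1 := C_formula hk hcard a r hr0 hr
  have htr : tr (N + 2) ((r * r ^ 2 ^ k)⁻¹) = 1 := by
    rcases tr_zero_or hcard ((r * r ^ 2 ^ k)⁻¹) with h | h
    · exfalso
      apply hC
      rw [h1, h, mul_zero]
    · exact h
  obtain ⟨θ, hθ⟩ := solve_add hn hk hcard (1 + (r * r ^ 2 ^ k)⁻¹) (by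
    rw [tr_add, tr_one hn, htr]; linear_combination h2')
  refine ⟨r, θ, hr0, ?_, hr, hθ⟩
  rintro rfl
  apply ha
  simp only [one_pow, mul_one] at hr
  linear_combination -hr

omit [Fintype F] in
lemma Rk_one (k : ℕ) : Rk k (1 : F) = 0 := by
  unfold Rk
  simp only [one_pow]
  rw [CharTwo.add_self_eq_zero (1 : F)]
  simp

theorem T_core [DecidableEq F] {N k : ℕ} (hn : Odd (N + 2)) (hk : Nat.Coprime k (N + 2))
    (hcard : ∀ c : F, c ^ (2 ^ (N + 2)) = c) (f : F → ℤ) :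
    ∑ v ∈ Finset.univ.erase (0 : F), f (Rk k v)
      = f 0 + 2 * ∑ a : {a : F // a ≠ 0},
        if (H (frobenius F 2 ^ k) N a.1).eval 1 = 0 ∧
          (K (frobenius F 2 ^ k) a.1 (N + 1)).eval 1 ≠ 0 then f ((a.1 * a.1 ^ 2 ^ k)⁻¹) else 0 := by
  classical
  have h2' : (2 : F) = 0 := CharTwo.two_eq_zero
  have h1mem : (1 : F) ∈ Finset.univ.erase (0 : F) := by simp
  rw [← Finset.add_sum_erase _ _ h1mem, Rk_one]
  congr 1
  rw [← Finset.sum_filter]
  set S : Finset {a : F // a ≠ 0} := Finset.univ.filter (fun a : {a : F // a ≠ 0} =>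
    (H (frobenius F 2 ^ k) N a.1).eval 1 = 0 ∧
      (K (frobenius F 2 ^ k) a.1 (N + 1)).eval 1 ≠ 0) with hS
  have hch : ∀ a : {a : F // a ≠ 0}, ∃ p : F × F, a ∈ S → Good k a.1 p.1 p.2 := by
    intro a
    by_cases ha : a ∈ S
    · have ha' := (Finset.mem_filter.mp ha).2
      obtain ⟨r, θ, h⟩ := good_exists hn hk hcard a.2 ha'.1 ha'.2
      exact ⟨(r, θ), fun _ => h⟩
    · exact ⟨(0, 0), fun h => absurd h ha⟩
  choose p hp using hch
  -- both parameters are good
  have hgood : ∀ (a : {a : F // a ≠ 0}) (b : Bool), a ∈ S →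
      Good k a.1 (p a).1 ((p a).2 + if b then 1 else 0) := by
    intro a b ha
    obtain ⟨q1, q2, q3, q4⟩ := hp a ha
    refine ⟨q1, q2, q3, ?_⟩
    rw [add_pow_char_pow]
    cases b
    · have : (0 : F) ^ 2 ^ k = 0 := zero_pow (by positivity)
      simp only [Bool.false_eq_true, if_false, this, add_zero]
      exact q4
    · simp only [if_true, one_pow]
      linear_combination q4 + h2'
  have key : ∑ x ∈ S ×ˢ (Finset.univ : Finset Bool), f ((x.1.1 * x.1.1 ^ 2 ^ k)⁻¹)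
      = ∑ v ∈ (Finset.univ.erase (0 : F)).erase 1, f (Rk k v) := by
    refine Finset.sum_nbij (fun x => ((1 + ((p x.1).2 + if x.2 then 1 else 0)) * (p x.1).1)
      * ((1 + ((p x.1).2 + if x.2 then 1 else 0)) * (p x.1).1) ^ 2 ^ k) ?_ ?_ ?_ ?_
    · rintro ⟨a, b⟩ hx
      rw [Finset.mem_product] at hx
      have hg := hgood a b hx.1
      obtain ⟨g1, g2, g3⟩ := good_pair hn hk hcard hg
      obtain ⟨q1, -, -, -⟩ := hg
      simp only
      rw [Finset.mem_erase, Finset.mem_erase]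
      refine ⟨fun h => ?_, mul_ne_zero (mul_ne_zero g3 q1) (pow_ne_zero _ (mul_ne_zero g3 q1)),
        Finset.mem_univ _⟩
      rw [h] at g1
      have := mul_ne_zero (mul_ne_zero g2 q1) (pow_ne_zero (2 ^ k) (mul_ne_zero g2 q1))
      apply this
      linear_combination g1
    · rintro ⟨a, b⟩ hx ⟨a', b'⟩ hx' h
      rw [Finset.mem_coe, Finset.mem_product] at hx hx'
      obtain ⟨e1, e2, e3⟩ := good_inj hn hk hcard (hgood a b hx.1) (hgood a' b' hx'.1) h
      have ea : a = a' := Subtype.ext e1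
      subst ea
      have e4 := add_left_cancel e3
      have : b = b' := by
        cases b <;> cases b' <;> simp_all
      rw [this]
    · intro v hv
      rw [Finset.mem_coe, Finset.mem_erase, Finset.mem_erase] at hv
      obtain ⟨a, r, θ, ha, hg, hv'⟩ := good_of hn hk hcard hv.2.1 hv.1
      obtain ⟨hH, hC⟩ := good_C hn hk hcard hg
      have haS : (⟨a, ha⟩ : {a : F // a ≠ 0}) ∈ S := by
        rw [hS, Finset.mem_filter]
        refine ⟨Finset.mem_univ _, hH, ?_⟩
        rw [hC]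
        exact pow_ne_zero _ hg.1
      obtain ⟨_, hC2⟩ := good_C hn hk hcard (hp _ haS)
      have hr : r = (p ⟨a, ha⟩).1 := by
        have e5 : r ^ 2 = (p ⟨a, ha⟩).1 ^ 2 := by rw [← hC, ← hC2]
        have e6 : (r + (p ⟨a, ha⟩).1) ^ 2 = 0 := by
          rw [CharTwo.add_sq, e5, CharTwo.add_self_eq_zero]
        have e7 := pow_eq_zero_iff two_ne_zero |>.mp e6
        linear_combination e7 - (p ⟨a, ha⟩).1 * h2'
      have h4 := hg.2.2.2
      have h5 := (hp _ haS).2.2.2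
      rw [← hr] at h5
      have h6 : (θ + (p ⟨a, ha⟩).2) ^ 2 ^ k = θ + (p ⟨a, ha⟩).2 := by
        rw [add_pow_char_pow]
        linear_combination h4 - h5 - (θ - (p ⟨a, ha⟩).2 ^ 2 ^ k) * h2'
      have h7 : ∃ b : Bool, θ = (p ⟨a, ha⟩).2 + if b then 1 else 0 := by
        rcases sig_fix hk hcard _ h6 with h8 | h8
        · exact ⟨false, by simp; linear_combination h8 - (p ⟨a, ha⟩).2 * h2'⟩
        · exact ⟨true, by simp; linear_combination h8 - (p ⟨a, ha⟩).2 * h2'⟩
      obtain ⟨b, hb⟩ := h7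
      refine ⟨(⟨a, ha⟩, b), ?_, ?_⟩
      · rw [Finset.mem_coe, Finset.mem_product]
        exact ⟨haS, Finset.mem_univ _⟩
      · simp only
        rw [← hb, ← hr, hv']
    · rintro ⟨a, b⟩ hx
      rw [Finset.mem_product] at hx
      simp only
      rw [good_ratio hn hk hcard (hgood a b hx.1)]
  rw [← key, Finset.sum_product, Finset.mul_sum]
  refine Finset.sum_congr rfl fun a _ => ?_
  simp

/-- The second sum does not depend on `k`. -/
theorem T_indep [DecidableEq F] {N m k : ℕ} (hm : N + 2 = 2 * m + 1) (hN : 0 < N)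
    (hk : Nat.Coprime k (N + 2)) (hF : Fintype.card F = 2 ^ (N + 2)) :
    (∑ v ∈ Finset.univ.erase (0 : F), if tr (N + 2) (Rk k v) = 0 then (1 : ℤ) else -1)
    = ∑ v ∈ Finset.univ.erase (0 : F), if tr (N + 2) (Rk 1 v) = 0 then (1 : ℤ) else -1 := by
  classical
  have hcard : ∀ c : F, c ^ (2 ^ (N + 2)) = c := by
    intro c
    rw [← hF]
    exact FiniteField.pow_card c
  have hnodd : Odd (N + 2) := ⟨m, hm⟩
  have hc1 : Nat.Coprime 1 (N + 2) := Nat.coprime_one_left _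
  rw [T_core hnodd hk hcard (fun x => if tr (N + 2) x = 0 then (1 : ℤ) else -1),
    T_core hnodd hc1 hcard (fun x => if tr (N + 2) x = 0 then (1 : ℤ) else -1)]
  congr 2
  obtain ⟨g, hg, hg2⟩ := perm hm hN hk hF
  rw [← hg.sum_comp]
  refine Finset.sum_congr rfl fun a _ => ?_
  obtain ⟨e1, e2⟩ := hg2 a
  have hId : ∀ (k' : ℕ) (b : F), (H (frobenius F 2 ^ k') N b).eval 1 = 0 →
      ((K (frobenius F 2 ^ k') b (N + 1)).eval 1 ≠ 0 ↔ ¬ IdM (frobenius F 2) N k' b) := by
    intro k' b hb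
    rw [H_eval] at hb
    have h3 := euler_one (F := F) N k' b
    have h2' : (2 : F) = 0 := CharTwo.two_eq_zero
    unfold IdM
    rw [not_iff_not]
    constructor
    · intro h
      refine ⟨h, ?_⟩
      rw [h] at h3
      obtain ⟨A, hA⟩ : ∃ A, A = (K (frobenius F 2 ^ k') b (N + 2)).eval 1 := ⟨_, rfl⟩
      obtain ⟨D, hD⟩ : ∃ D, D = (K (frobenius F 2 ^ k') (b ^ 2 ^ k') N).eval 1 := ⟨_, rfl⟩
      rw [← hA, ← hD] at hb h3
      rw [← hA]
      have : (A + 1) ^ 2 = 0 := by linear_combination A * hb - h3 + A * h2'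
      have := pow_eq_zero_iff two_ne_zero |>.mp this
      linear_combination this - h2'
    · exact fun h => h.1
  have hcond : ((H (frobenius F 2 ^ k) N (g a).1).eval 1 = 0 ∧
      (K (frobenius F 2 ^ k) (g a).1 (N + 1)).eval 1 ≠ 0) ↔
      ((H (frobenius F 2 ^ 1) N a.1).eval 1 = 0 ∧
      (K (frobenius F 2 ^ 1) a.1 (N + 1)).eval 1 ≠ 0) := by
    constructor
    · rintro ⟨h1, h2⟩
      have h3 : (H (frobenius F 2 ^ 1) N a.1).eval 1 = 0 := by rw [← e1]; exact h1
      refine ⟨h3, (hId 1 a.1 h3).mpr ?_⟩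
      rw [e2]
      exact (hId k (g a).1 h1).mp h2
    · rintro ⟨h1, h2⟩
      have h3 : (H (frobenius F 2 ^ k) N (g a).1).eval 1 = 0 := by rw [e1]; exact h1
      refine ⟨h3, (hId k (g a).1 h3).mpr ?_⟩
      rw [← e2]
      exact (hId 1 a.1 h1).mp h2
  have hval : tr (N + 2) (((g a).1 * (g a).1 ^ 2 ^ k)⁻¹)
      = tr (N + 2) ((a.1 * a.1 ^ 2 ^ 1)⁻¹) := by
    rw [← H_coeff_one hN hk hcard (g a).2, ← H_coeff_one hN hc1 hcard a.2, e1]
  by_cases hc : ((H (frobenius F 2 ^ 1) N a.1).eval 1 = 0 ∧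
      (K (frobenius F 2 ^ 1) a.1 (N + 1)).eval 1 ≠ 0)
  · rw [if_pos hc, if_pos (hcond.mpr hc), hval]
  · rw [if_neg hc, if_neg (fun h => hc (hcond.mp h))]

omit [Fintype F] in
lemma Rk_one_val {v : F} (hv0 : v ≠ 0) (hv1 : v ≠ 1) : Rk 1 v = v⁻¹ + (v + 1)⁻¹ := by
  have h2' : (2 : F) = 0 := CharTwo.two_eq_zero
  have h1 : v + 1 ≠ 0 := by
    intro h
    apply hv1; linear_combination h - h2'
  have e1 : v ^ 2 ^ 1 + v = v * (v + 1) := by ring
  have e2 : v ^ 2 ^ 1 + 1 = (v + 1) ^ 2 := by linear_combination -v * h2'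
  unfold Rk
  rw [e1, e2]
  have e3 : v⁻¹ + (v + 1)⁻¹ = 1 / (v * (v + 1)) := by
    field_simp
    linear_combination v * h2'
  rw [e3]
  field_simp
  ring

/-- The case `k = 1`. -/
theorem T_one [DecidableEq F] (n : ℕ) :
    (∑ v ∈ Finset.univ.erase (0 : F), if tr n (Rk 1 v) = 0 then (1 : ℤ) else -1)
    = ∑ x ∈ Finset.univ.erase (0 : F), if tr n (x + x⁻¹) = 0 then (1 : ℤ) else -1 := by
  have h2' : (2 : F) = 0 := CharTwo.two_eq_zero
  have h1mem : (1 : F) ∈ Finset.univ.erase (0 : F) := by simp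
  rw [← Finset.add_sum_erase _ _ h1mem, ← Finset.add_sum_erase _
    (fun x => if tr n (x + x⁻¹) = 0 then (1 : ℤ) else -1) h1mem, Rk_one]
  congr 1
  · rw [inv_one, CharTwo.add_self_eq_zero (1 : F)]
  · have hinv : ∀ v : F, v ≠ 0 → v ≠ 1 → v⁻¹ + 1 ≠ 0 ∧ v⁻¹ + 1 ≠ 1 := by
      intro v h0 h1
      constructor
      · intro h
        apply h1
        have : v⁻¹ = 1 := by linear_combination h - h2'
        rwa [inv_eq_one] at this
      · intro h
        have : v⁻¹ = 0 := by linear_combination h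
        exact h0 (inv_eq_zero.mp this)
    have hinv' : ∀ v : F, v ≠ 0 → v ≠ 1 → (v + 1)⁻¹ ≠ 0 ∧ (v + 1)⁻¹ ≠ 1 := by
      intro v h0 h1
      constructor
      · intro h
        apply h1
        have := inv_eq_zero.mp h
        linear_combination this - h2'
      · intro h
        rw [inv_eq_one] at h
        exact h0 (by linear_combination h)
    refine Finset.sum_bij' (fun v _ => v⁻¹ + 1) (fun y _ => (y + 1)⁻¹) ?_ ?_ ?_ ?_ ?_
    · intro v hv
      rw [Finset.mem_erase, Finset.mem_erase] at hv ⊢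
      obtain ⟨a1, a2⟩ := hinv v hv.2.1 hv.1
      exact ⟨a2, a1, Finset.mem_univ _⟩
    · intro v hv
      rw [Finset.mem_erase, Finset.mem_erase] at hv ⊢
      obtain ⟨a1, a2⟩ := hinv' v hv.2.1 hv.1
      exact ⟨a2, a1, Finset.mem_univ _⟩
    · intro v _
      have : v⁻¹ + 1 + 1 = v⁻¹ := by linear_combination h2'
      rw [this, inv_inv]
    · intro v _
      rw [inv_inv]
      linear_combination h2'
    · intro v hv
      rw [Finset.mem_erase, Finset.mem_erase] at hv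
      have hv0 := hv.2.1
      have hv1 := hv.1
      have hv2 : v + 1 ≠ 0 := by
        intro h
        apply hv1; linear_combination h - h2'
      have hv3 : v⁻¹ + 1 ≠ 0 := (hinv v hv0 hv1).1
      have e1 : v⁻¹ + 1 + (v⁻¹ + 1)⁻¹ = Rk 1 v := by
        rw [Rk_one_val hv0 hv1]
        have e2 : (v⁻¹ + 1)⁻¹ = 1 + (v + 1)⁻¹ := by
          have e3 : v⁻¹ + 1 = (v + 1) / v := by field_simp; ring
          rw [e3, inv_div]
          field_simp
          linear_combination -h2'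
        rw [e2]
        linear_combination h2'
      rw [e1]

end

end Pool.Agent.H4
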